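import Mathlib

/-!
Definitions used in the statement on compact complex surfaces fibred over an elliptic curve.
-/

open Filter Topology Set
open scoped Manifold ContDiff

noncomputable section

namespace Pool.Agent.P.MP_7ede32_ag.Ell

variable (X : Type*) [TopologicalSpace X] [ChartedSpace (ℂ × ℂ) X]

/-- All holomorphic charts of the complex surface `X`. -/
def Charts : Set (OpenPartialHomeomorph X (ℂ × ℂ)) := IsManifold.maximalAtlas 𝓘(ℂ, ℂ × ℂ) ω X

/-- A holomorphic section of the `m`-th power of the canonical bundle: in each holomorphic chart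
`e = (x, y)` it is `coeff e * (dx ∧ dy) ^ m`. -/
structure PluriForm (m : ℕ) where
  coeff : OpenPartialHomeomorph X (ℂ × ℂ) → ℂ × ℂ → ℂ
  analytic : ∀ e ∈ Charts X, AnalyticOnNhd ℂ (coeff e) e.target
  compat : ∀ e ∈ Charts X, ∀ e' ∈ Charts X, ∀ x ∈ e.source ∩ e'.source,
    coeff e (e x) = coeff e' (e' x) * (fderiv ℂ (e' ∘ e.symm) (e x)).det ^ m

/-- The value of a pluricanonical form at `x`, in the preferred chart at `x`. -/
def PluriForm.val {m : ℕ} (a : PluriForm X m) (x : X) : ℂ :=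
  a.coeff (chartAt (ℂ × ℂ) x) (chartAt (ℂ × ℂ) x x)

/-- The canonical bundle is ample: finitely many sections of some positive power have no common
zero and define an injective map to projective space. -/
def AmpleCanonical : Prop :=
  ∃ (m N : ℕ) (a : Fin N → PluriForm X m), 0 < m ∧ (∀ x, ∃ l, (a l).val X x ≠ 0) ∧
    ∀ (x y : X) (c : ℂ), (∀ l, (a l).val X x = c * (a l).val X y) → x = y

variable {X}

/-- Entire curve. -/
def IsEntire (h : ℂ → X) : Prop := MDifferentiable 𝓘(ℂ, ℂ) 𝓘(ℂ, ℂ × ℂ) h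

/-- `g` is holomorphic at `x` and lifts `π : X → ℂ / Λ` to `ℂ` near `x`. -/
def IsLocalLift (L : PeriodPair) (π : X → ℂ ⧸ L.lattice) (g : X → ℂ) (x : X) : Prop :=
  ContMDiffAt 𝓘(ℂ, ℂ × ℂ) 𝓘(ℂ, ℂ) ω g x ∧ ∀ᶠ y in 𝓝 x, π y = L.lattice.mkQ (g y)

/-- `π : X → ℂ / Λ` is holomorphic. -/
def IsHolomorphic (L : PeriodPair) (π : X → ℂ ⧸ L.lattice) : Prop :=
  ∀ x, ∃ g, IsLocalLift L π g x

/-- The differential of `π` vanishes at `x`. -/
def IsCritical (L : PeriodPair) (π : X → ℂ ⧸ L.lattice) (x : X) : Prop :=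
  ∃ g, IsLocalLift L π g x ∧ mfderiv 𝓘(ℂ, ℂ × ℂ) 𝓘(ℂ, ℂ) g x = 0

/-- In a holomorphic chart `(u, v)` centred at `x`, the map `π` is `c + u v` modulo `Λ`. -/
def IsNode (L : PeriodPair) (π : X → ℂ ⧸ L.lattice) (x : X) : Prop :=
  ∃ e ∈ Charts X, ∃ c : ℂ, x ∈ e.source ∧ e x = 0 ∧
    ∀ᶠ y in 𝓝 x, π y = L.lattice.mkQ (c + (e y).1 * (e y).2)

end Pool.Agent.P.MP_7ede32_ag.Ell
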