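import Pool.Agent.P.MP_7ede32_ag.Ell.GGL
import Pool.Agent.P.MP_7ede32_ag.Ell.Defs

/-!
From complex manifolds to the working structure.
-/

open Filter Topology Metric Set
open scoped Manifold ContDiff

noncomputable section

namespace Pool.Agent.P.MP_7ede32_ag.Ell

lemma det_eq_jac (A : E2 →L[ℂ] E2) : A.det = jac A := by
  rw [ContinuousLinearMap.det, ← LinearMap.det_toMatrix (Module.Basis.finTwoProd ℂ),
    Matrix.det_fin_two]
  simp [LinearMap.toMatrix_apply, jac, det2]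
  ring

variable {X : Type*} [MetricSpace X] [ChartedSpace (ℂ × ℂ) X] [IsManifold 𝓘(ℂ, ℂ × ℂ) ω X]

omit [IsManifold 𝓘(ℂ, ℂ × ℂ) ω X] in
lemma analyticAt_of_contMDiffAt {F : Type*} [NormedAddCommGroup F] [NormedSpace ℂ F]
    {g : X → F} {x : X} (hg : ContMDiffAt 𝓘(ℂ, ℂ × ℂ) 𝓘(ℂ, F) ω g x)
    {e : OpenPartialHomeomorph X E2} (he : e ∈ Charts X) (hx : x ∈ e.source) :
    AnalyticAt ℂ (g ∘ e.symm) (e x) := by
  have h1 := contMDiffAt_symm_of_mem_maximalAtlas he (e.map_source hx)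
  have h2 : ContMDiffAt 𝓘(ℂ, ℂ × ℂ) 𝓘(ℂ, F) ω (g ∘ e.symm) (e x) :=
    ContMDiffAt.comp (e x) (by rwa [e.left_inv hx]) h1
  exact (contMDiffAt_iff_contDiffAt.1 h2).analyticAt

lemma chart_mem (x : X) : chartAt (ℂ × ℂ) x ∈ Charts X := IsManifold.chart_mem_maximalAtlas x

/-- the working structure of a canonically polarised surface over an elliptic curve -/
def toSrf (L : PeriodPair) (π : X → ℂ ⧸ L.lattice) (hπ : IsHolomorphic L π) {m N : ℕ}
    (a : Fin N → PluriForm X m) (hm : 0 < m) (h1 : ∀ x, ∃ l, (a l).val X x ≠ 0)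
    (h2 : ∀ (x y : X) (c : ℂ), (∀ l, (a l).val X x = c * (a l).val X y) → x = y) : Srf X where
  A := Charts X
  cover x := ⟨_, chart_mem x, mem_chart_source _ x⟩
  trans e he e' he' x hx hx' :=
    analyticAt_of_contMDiffAt (contMDiffAt_of_mem_maximalAtlas he' hx') he hx
  Λ := L.lattice
  disc := by
    obtain ⟨r, hr, h⟩ := Metric.isOpen_iff.1 (isOpen_discrete ({0} : Set L.lattice)) 0 rfl
    refine ⟨r, hr, fun w hw hwr => ?_⟩
    have : (⟨w, hw⟩ : L.lattice) ∈ ({0} : Set L.lattice) := h (by simpa using hwr)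
    simpa using this
  π := π
  lift x := by
    obtain ⟨g, hg, hg'⟩ := hπ x
    exact ⟨g, hg', fun e he hx => analyticAt_of_contMDiffAt hg he hx⟩
  m := m
  m_pos := hm
  N := N
  a l := (a l).coeff
  a_an l e he x hx := (a l).analytic e he _ (e.map_source hx)
  a_compat l e he e' he' x hx hx' := by rw [(a l).compat e he e' he' x ⟨hx, hx'⟩, det_eq_jac]
  bpf e he x hx := by
    obtain ⟨l, hl⟩ := h1 x
    refine ⟨l, fun h0 => hl ?_⟩
    rw [PluriForm.val, (a l).compat _ (chart_mem x) e he x ⟨mem_chart_source _ x, hx⟩, h0, zero_mul]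
  inj e he e' he' x hx y hy c h := by
    refine h2 x y (c * (fderiv ℂ (chartAt (ℂ × ℂ) y ∘ e'.symm) (e' y)).det ^ m *
      (fderiv ℂ (e ∘ (chartAt (ℂ × ℂ) x).symm) (chartAt (ℂ × ℂ) x x)).det ^ m) fun l => ?_
    rw [PluriForm.val, PluriForm.val,
      (a l).compat _ (chart_mem x) e he x ⟨mem_chart_source _ x, hx⟩, h l,
      (a l).compat e' he' _ (chart_mem y) y ⟨hy, mem_chart_source _ y⟩]
    ring

lemma hol_iff {S : Srf X} (hA : S.A = Charts X) {h : ℂ → X} : S.Hol h ↔ IsEntire h := by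
  constructor
  · intro hh z
    have h1 := (hh z).2 _ (hA ▸ chart_mem (h z)) (mem_chart_source _ _)
    have h2 := (contMDiffAt_symm_of_mem_maximalAtlas (chart_mem (h z))
      ((chartAt (ℂ × ℂ) (h z)).map_source (mem_chart_source _ _))).mdifferentiableAt (by simp)
    refine (MDifferentiableAt.comp z h2 (mdifferentiableAt_iff_differentiableAt.2 h1)).congr_of_eventuallyEq ?_
    filter_upwards [Srf.eventually_mem_source (hh z).1 (mem_chart_source (ℂ × ℂ) (h z))] with w hw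
    simp [(chartAt (ℂ × ℂ) (h z)).left_inv hw]
  · intro hh z
    refine ⟨(hh z).continuousAt, fun e he hz => ?_⟩
    rw [hA] at he
    exact mdifferentiableAt_iff_differentiableAt.1 (MDifferentiableAt.comp z
      ((contMDiffAt_of_mem_maximalAtlas he hz).mdifferentiableAt (by simp)) (hh z))

lemma fib_toSrf (L : PeriodPair) (π : X → ℂ ⧸ L.lattice) (hπ : IsHolomorphic L π) {m N : ℕ}
    (a : Fin N → PluriForm X m) (hm : 0 < m) (h1 : ∀ x, ∃ l, (a l).val X x ≠ 0)
    (h2 : ∀ (x y : X) (c : ℂ), (∀ l, (a l).val X x = c * (a l).val X y) → x = y)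
    (hF : ∀ s, (∀ x, π x = s → IsCritical L π x → IsNode L π x) ∨
      ∀ h : ℂ → X, IsEntire h → (∀ z, π (h z) = s) → ∀ z, h z = h 0) :
    (toSrf L π hπ a hm h1 h2).Fib := by
  intro s
  refine (hF s).imp (fun H x hx hc => ?_) fun H h hh _ hv => H h ((hol_iff rfl).1 hh) hv
  obtain ⟨g, hg, hg'⟩ := hπ x
  have hl : (toSrf L π hπ a hm h1 h2).IsLift g x :=
    ⟨hg', fun e he hx => analyticAt_of_contMDiffAt hg he hx⟩
  have h3 := hc _ (chart_mem x) (mem_chart_source _ x)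
  rw [← hl.fderiv_eq (mem_chart_source _ x)] at h3
  obtain ⟨e, he, c, h4, h5, h6⟩ := H x hx ⟨g, ⟨hg, hg'⟩, by
    rw [(hg.mdifferentiableAt (by simp)).mfderiv]
    simp only [writtenInExtChartAt, mfld_simps, fderivWithin_univ]
    exact h3⟩
  exact ⟨e, c, he, h4, h5, h6⟩

end Pool.Agent.P.MP_7ede32_ag.Ell
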