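import Pool.Agent.P.MP_7ede32_ag.Ell.Lift

/-!
One-variable lemmas.
-/

open Filter Topology Metric Set

noncomputable section

namespace Pool.Agent.P.MP_7ede32_ag.Ell

lemma const_of_deriv_ball {F : Type*} [NormedAddCommGroup F] [NormedSpace ℂ F] {f : ℂ → F}
    {ζ : ℂ} {r : ℝ} (hd : DifferentiableOn ℂ f (ball ζ r)) (h0 : ∀ w ∈ ball ζ r, deriv f w = 0)
    {w w' : ℂ} (hw : w ∈ ball ζ r) (hw' : w' ∈ ball ζ r) : f w = f w' :=
  isOpen_ball.is_const_of_fderiv_eq_zero (convex_ball ζ r).isPreconnected hd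
    (fun u hu => by simp [← toSpanSingleton_deriv, h0 u hu]) hw hw'

lemma root_bound {f : ℂ → ℂ} {ζ : ℂ} {r γ : ℝ} (M : ℕ) (hr : 0 < r) (hγ : 0 < γ) (hγ1 : γ ≤ 1)
    (hd : DifferentiableOn ℂ f (ball ζ r)) (h0 : ∀ w ∈ ball ζ r, f w ≠ 0)
    (hb : ∀ w ∈ ball ζ r, ‖f w‖ ≤ γ ^ (M + 1)) :
    ‖f ζ‖ * (‖deriv f ζ / f ζ‖ * r) ^ M ≤ (2 * (M + 1)) ^ M * γ := by
  have hζ : ζ ∈ ball ζ r := mem_ball_self hr
  have hd' : DifferentiableOn ℂ (fun w => deriv f w / f w) (ball ζ r) :=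
    (hd.deriv isOpen_ball).div hd h0
  obtain ⟨g, hg0, hg⟩ := hd'.isExactOn_ball.with_val_at ζ (Complex.log (f ζ))
  have hfa : ∀ w ∈ ball ζ r, HasDerivAt f (deriv f w) w := fun w hw =>
    (hd.differentiableAt (isOpen_ball.mem_nhds hw)).hasDerivAt
  have h1 : ∀ w ∈ ball ζ r, HasDerivAt (fun u => f u * Complex.exp (-g u)) 0 w := by
    intro w hw
    have h3 : HasDerivAt (fun u => f u * Complex.exp (-g u))
        (deriv f w * Complex.exp (-g w) + f w * (Complex.exp (-g w) * -(deriv f w / f w))) w :=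
      (hfa w hw).mul ((hg w hw).neg.cexp)
    convert h3 using 1
    have := h0 w hw
    field_simp
    simp
  have h2 : ∀ w ∈ ball ζ r, f w = Complex.exp (g w) := by
    intro w hw
    have := const_of_deriv_ball (fun u hu => (h1 u hu).differentiableAt.differentiableWithinAt)
      (fun u hu => (h1 u hu).deriv) hw hζ
    simp only [hg0, Complex.exp_neg, Complex.exp_log (h0 ζ hζ)] at this
    rw [mul_inv_cancel₀ (h0 ζ hζ)] at this
    field_simp at this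
    exact this
  have hK : ((M + 1 : ℕ) : ℂ) ≠ 0 := by exact_mod_cast Nat.succ_ne_zero M
  let w : ℂ → ℂ := fun u => Complex.exp (g u / (M + 1 : ℕ))
  have hw1 : ∀ u ∈ ball ζ r, HasDerivAt w (w u * (deriv f u / f u / (M + 1 : ℕ))) u := fun u hu =>
    ((hg u hu).div_const _).cexp
  have hw2 : ∀ u ∈ ball ζ r, ‖w u‖ ^ (M + 1) = ‖f u‖ := by
    intro u hu
    rw [← norm_pow, h2 u hu, ← Complex.exp_nat_mul, mul_div_cancel₀ _ hK]
  have hw3 : ∀ u ∈ ball ζ r, ‖w u‖ ≤ γ := fun u hu =>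
    le_of_pow_le_pow_left₀ (Nat.succ_ne_zero M) hγ.le (by rw [hw2 u hu]; exact hb u hu)
  have hw4 : ‖deriv w ζ‖ ≤ 2 * γ / r := Complex.norm_deriv_le_div_of_mapsTo_ball
    (fun u hu => (hw1 u hu).differentiableAt.differentiableWithinAt) (fun u hu => by
      rw [mem_closedBall, dist_eq_norm]
      linarith [norm_sub_le (w u) (w ζ), hw3 u hu, hw3 ζ hζ]) hr
  rw [(hw1 ζ hζ).deriv, norm_mul, norm_div (deriv f ζ / f ζ), Complex.norm_natCast,
    le_div_iff₀ hr] at hw4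
  have h5 : ‖w ζ‖ * (‖deriv f ζ / f ζ‖ * r) ≤ 2 * (M + 1) := by
    have hKpos : (0 : ℝ) < (M + 1 : ℕ) := by positivity
    have : ‖w ζ‖ * (‖deriv f ζ / f ζ‖ * r) =
        (‖w ζ‖ * (‖deriv f ζ / f ζ‖ / (M + 1 : ℕ)) * r) * (M + 1 : ℕ) := by field_simp
    rw [this]
    push_cast at hw4 ⊢
    calc _ ≤ 2 * γ * (M + 1) := by gcongr
      _ ≤ 2 * 1 * (M + 1) := by gcongr
      _ = 2 * (M + 1) := by ring
  rw [← hw2 ζ hζ, pow_succ, mul_right_comm, ← mul_pow]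
  gcongr
  exact hw3 ζ hζ

lemma mul_zero_dichotomy {x y : ℂ → ℂ} {ζ : ℂ} {r : ℝ} (hx : ContinuousOn x (ball ζ r))
    (hy : ContinuousOn y (ball ζ r)) (h : ∀ w ∈ ball ζ r, x w * y w = 0)
    (h' : ∀ w ∈ ball ζ r, x w ≠ 0 ∨ y w ≠ 0) :
    (∀ w ∈ ball ζ r, x w ≠ 0 ∧ y w = 0) ∨ (∀ w ∈ ball ζ r, y w ≠ 0 ∧ x w = 0) := by
  have := (convex_ball ζ r).isPreconnected.subset_or_subset
    (hx.isOpen_inter_preimage isOpen_ball (isOpen_compl_singleton (x := (0 : ℂ))))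
    (hy.isOpen_inter_preimage isOpen_ball (isOpen_compl_singleton (x := (0 : ℂ))))
    (by
      rw [Set.disjoint_left]
      rintro w ⟨hw, h1⟩ ⟨_, h2⟩
      exact mul_ne_zero h1 h2 (h w hw))
    (fun w hw => (h' w hw).imp (fun h1 => ⟨hw, h1⟩) (fun h1 => ⟨hw, h1⟩))
  rcases this with h1 | h1
  · exact Or.inl fun w hw => ⟨(h1 hw).2, (mul_eq_zero.1 (h w hw)).resolve_left (h1 hw).2⟩
  · exact Or.inr fun w hw => ⟨(h1 hw).2, (mul_eq_zero.1 (h w hw)).resolve_right (h1 hw).2⟩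

lemma hurwitz {ι : Type*} {U : Filter ι} {f : ι → ℂ → ℂ} {g : ℂ → ℂ} {ζ : ℂ} {ρ : ℝ} (hρ : 0 < ρ)
    (hd : ∀ᶠ n in U, DifferentiableOn ℂ (f n) (ball ζ ρ)) (hc : TendstoUniformlyOn f g U (ball ζ ρ))
    (hg : ContinuousOn g (ball ζ ρ)) (h0 : g ζ = 0) (hne : ∀ᶠ w in 𝓝[≠] ζ, g w ≠ 0)
    {η : ℝ} (hη : 0 < η) : ∀ᶠ n in U, ∃ ξ ∈ ball ζ ρ, dist ξ ζ < η ∧ f n ξ = 0 := by
  obtain ⟨r₁, hr₁, h1⟩ := Metric.eventually_nhds_iff.1 (eventually_nhdsWithin_iff.1 hne)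
  set r := min (min r₁ ρ) η / 2 with hr
  have hm : 0 < min (min r₁ ρ) η := by positivity
  have hr0 : 0 < r := by positivity
  have hr1 : r < r₁ := by linarith [min_le_left (min r₁ ρ) η, min_le_left r₁ ρ]
  have hr2 : r < ρ := by linarith [min_le_left (min r₁ ρ) η, min_le_right r₁ ρ]
  have hr3 : r < η := by linarith [min_le_right (min r₁ ρ) η]
  have hsub : closedBall ζ r ⊆ ball ζ ρ := closedBall_subset_ball hr2
  obtain ⟨w₀, hw₀, hmin⟩ := (isCompact_sphere ζ r).exists_isMinOn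
    (NormedSpace.sphere_nonempty.2 hr0.le) ((hg.mono (sphere_subset_closedBall.trans hsub)).norm)
  have hw₀' : dist w₀ ζ = r := hw₀
  have hμ : 0 < ‖g w₀‖ := norm_pos_iff.2 (h1 (by linarith) (by
    intro h; rw [mem_singleton_iff.1 h, dist_self] at hw₀'; linarith))
  filter_upwards [hd, Metric.tendstoUniformlyOn_iff.1 hc (‖g w₀‖ / 2) (by positivity)] with n h2 h3
  by_contra hcon
  push Not at hcon
  have h4 : ∀ w ∈ closedBall ζ r, f n w ≠ 0 := fun w hw =>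
    hcon w (hsub hw) (lt_of_le_of_lt hw hr3)
  have h5 : DiffContOnCl ℂ (fun w => (f n w)⁻¹) (ball ζ r) := by
    apply DifferentiableOn.diffContOnCl
    rw [closure_ball ζ hr0.ne']
    exact (h2.mono hsub).inv h4
  have h6 := Complex.norm_le_of_forall_mem_frontier_norm_le isBounded_ball h5
    (C := (‖g w₀‖ / 2)⁻¹) (z := ζ) (by
      intro w hw
      rw [frontier_ball ζ hr0.ne'] at hw
      have a1 : ‖g w₀‖ ≤ ‖g w‖ := hmin hw
      have a2 := h3 w (hsub (sphere_subset_closedBall hw))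
      rw [dist_eq_norm] at a2
      rw [norm_inv]
      apply inv_anti₀ (by positivity)
      linarith [norm_sub_norm_le (g w) (f n w)]) (subset_closure (mem_ball_self hr0))
  have h7 := h3 ζ (mem_ball_self hρ)
  rw [h0, dist_comm, dist_zero_right] at h7
  rw [norm_inv, inv_le_inv₀ (norm_pos_iff.2 (h4 ζ (mem_closedBall_self hr0.le))) (by positivity)]
    at h6
  linarith

lemma cocompact_norm (R : ℝ) : ∀ᶠ z in cocompact ℂ, R < ‖z‖ :=
  tendsto_norm_cocompact_atTop.eventually_gt_atTop R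

lemma expansion_at_infty {F : Type*} [NormedAddCommGroup F] [NormedSpace ℂ F] [CompleteSpace F]
    {Φ : ℂ → F} {R B : ℝ} (hR : 0 < R) (hd : ∀ z, R < ‖z‖ → DifferentiableAt ℂ Φ z)
    (hb : ∀ z, R < ‖z‖ → ‖Φ z‖ ≤ B) (hne : ¬ ∀ᶠ z in cocompact ℂ, Φ z = 0) :
    ∃ (n : ℕ) (G : ℂ → F) (v : F), v ≠ 0 ∧ Tendsto G (cocompact ℂ) (𝓝 v) ∧
      ∀ᶠ z in cocompact ℂ, Φ z = z⁻¹ ^ n • G z := by
  have hmem : ∀ ω ∈ ball (0 : ℂ) R⁻¹ \ {0}, R < ‖ω⁻¹‖ := by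
    rintro ω ⟨h1, h2⟩
    rw [norm_inv, lt_inv_comm₀ hR (norm_pos_iff.2 h2)]
    simpa using h1
  have h1 := Complex.differentiableOn_update_limUnder_of_bddAbove (f := fun ω => Φ ω⁻¹)
    (ball_mem_nhds (0 : ℂ) (inv_pos.2 hR))
    (fun ω hω => ((hd _ (hmem ω hω)).comp ω (differentiableAt_inv hω.2)).differentiableWithinAt)
    ⟨B, by rintro _ ⟨ω, hω, rfl⟩; exact hb _ (hmem ω hω)⟩
  have h2 := h1.analyticAt (ball_mem_nhds (0 : ℂ) (inv_pos.2 hR))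
  have hinv : Tendsto (fun z : ℂ => z⁻¹) (cocompact ℂ) (𝓝[≠] 0) := by
    rw [← Metric.cobounded_eq_cocompact]; exact tendsto_inv₀_cobounded'
  have hinv' := hinv.mono_right nhdsWithin_le_nhds
  have hev : ∀ᶠ z in cocompact ℂ, Function.update (fun ω => Φ ω⁻¹) 0
      (limUnder (𝓝[≠] 0) fun ω => Φ ω⁻¹) z⁻¹ = Φ z := by
    filter_upwards [hinv.eventually self_mem_nhdsWithin] with z hz
    rw [Function.update_of_ne hz, inv_inv]
  obtain ⟨n, g, hg, hg0, hgeq⟩ := h2.exists_eventuallyEq_pow_smul_nonzero_iff.2 (fun h => hne (by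
    filter_upwards [hinv'.eventually h, hev] with z h3 h4
    rw [← h4, h3]))
  refine ⟨n, fun z => g z⁻¹, g 0, hg0, hg.continuousAt.tendsto.comp hinv', ?_⟩
  filter_upwards [hinv'.eventually hgeq, hev] with z h3 h4
  rw [← h4, h3, sub_zero]

end Pool.Agent.P.MP_7ede32_ag.Ell
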