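import Pool.Agent.P.MP_7ede32_ag.Ell.Gain

/-!
A barrier that carries smallness near a point of maximal modulus back to the origin.
-/

open Filter Topology Metric Set

noncomputable section

namespace Pool.Agent.P.MP_7ede32_ag.Ell

lemma deriv_bound {f : ℂ → ℂ} (hf : Differentiable ℂ f) {R s M : ℝ} (hs : 0 < s)
    (hb : ∀ z, ‖z‖ ≤ R + s → ‖f z‖ ≤ M) {z : ℂ} (hz : ‖z‖ ≤ R) : ‖deriv f z‖ ≤ 2 * M / s := by
  refine Complex.norm_deriv_le_div_of_mapsTo_ball hf.differentiableOn (fun u hu => ?_) hs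
  rw [mem_ball, dist_eq_norm] at hu
  rw [mem_closedBall, dist_eq_norm]
  linarith [norm_sub_le (f u) (f z), hb u (by linarith [norm_sub_norm_le u z]), hb z (by linarith)]

lemma exists_zeros {f : ℂ → ℂ} (hf : Differentiable ℂ f) (h0 : f 0 ≠ 0) {a s M : ℝ} (ha : 1 ≤ a)
    (hs : 0 < s) (hb : ∀ z, ‖z‖ ≤ a * s + 4 * s → ‖f z‖ ≤ M) :
    ∃ Z : Finset ℂ, (Z.card : ℝ) ≤ 2 * a * (M / ‖f 0‖) ∧
      ∀ p, p ∈ Z ↔ f p = 0 ∧ ‖p‖ ≤ a * s + 2 * s := by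
  have hd : 0 < ‖f 0‖ := norm_pos_iff.2 h0
  have hcard : ∀ Z : Finset ℂ, (∀ p ∈ Z, f p = 0 ∧ ‖p‖ ≤ a * s + 2 * s) →
      (Z.card : ℝ) ≤ 2 * a * (M / ‖f 0‖) := by
    intro Z hZ
    have h1 := zeros_bound (R := a * s + 4 * s) (by positivity) Z f M hf
      (fun z hz => hb z (le_of_eq (by simpa using hz))) hZ
    have h2 : (1 + 1 / (2 * a)) * (a * s + 2 * s) ≤ a * s + 4 * s := by
      have : 1 / (2 * a) * (a * s + 2 * s) ≤ 2 * s := by
        rw [div_mul_eq_mul_div, div_le_iff₀ (by positivity)]; nlinarith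
      linarith
    have h3 : ‖f 0‖ * (1 + 1 / (2 * a)) ^ Z.card ≤ M := by
      refine le_of_mul_le_mul_right (le_trans ?_ h1)
        (show 0 < (a * s + 2 * s) ^ Z.card by positivity)
      rw [mul_assoc, ← mul_pow]
      gcongr
    have h4 := one_add_mul_le_pow (a := 1 / (2 * a))
      (le_trans (by norm_num) (show (0 : ℝ) ≤ 1 / (2 * a) by positivity)) Z.card
    have h5 : Z.card * (1 / (2 * a)) ≤ M / ‖f 0‖ := by
      rw [le_div_iff₀ hd]; nlinarith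
    rwa [mul_one_div, div_le_iff₀ (by positivity), mul_comm] at h5
  have hfin : {p | f p = 0 ∧ ‖p‖ ≤ a * s + 2 * s}.Finite := by
    by_contra hinf
    obtain ⟨Z, h1, h2⟩ := Set.Infinite.exists_subset_card_eq hinf (⌈2 * a * (M / ‖f 0‖)⌉₊ + 1)
    have := hcard Z fun p hp => h1 hp
    rw [h2] at this
    push_cast at this
    linarith [Nat.le_ceil (2 * a * (M / ‖f 0‖))]
  exact ⟨hfin.toFinset, hcard _ fun p hp => by simpa using hp, fun p => by simp⟩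

/-- the radius of univalence -/
lemma exists_radius {φ : ℂ → ℂ} (hφ : Differentiable ℂ φ) {R s M Λ : ℝ} (hs : 0 < s) (hΛ : 1 ≤ Λ)
    (hM : 0 < M) (hb : ∀ z, ‖z‖ ≤ R + s → ‖deriv φ z‖ ≤ M) {Z : Finset ℂ}
    (hZ : ∀ p, p ∈ Z ↔ deriv φ p = 0 ∧ ‖p‖ ≤ R + s) {z : ℂ} (hz : ‖z‖ ≤ R)
    (hz' : M * Real.exp (-Λ) ≤ ‖deriv φ z‖) :
    ∃ t > 0, t ≤ s / (20 * Λ) ∧ (∀ p ∈ Z, t ≤ ‖z - p‖ / (20 * Λ)) ∧
      (t = 1 / (2 * ‖deriv φ z‖) ∨ t = s / (20 * Λ) ∨ ∃ p ∈ Z, t = ‖z - p‖ / (20 * Λ)) ∧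
      (∀ ζ ∈ ball z t, ‖deriv φ ζ / deriv φ z - 1‖ ≤ 1 / 2) ∧ InjOn φ (ball z t) ∧
      ∀ ζ ∈ ball z t, ‖φ ζ - φ z‖ ≤ 1 := by
  have hd : 0 < ‖deriv φ z‖ := lt_of_lt_of_le (by positivity) hz'
  have hd' : deriv φ z ≠ 0 := norm_pos_iff.1 hd
  obtain ⟨τ, hτ, h1, h2, h3⟩ : ∃ τ > 0, τ ≤ s ∧ (∀ p ∈ Z, τ ≤ ‖z - p‖) ∧
      (τ = s ∨ ∃ p ∈ Z, τ = ‖z - p‖) := by
    rcases Z.eq_empty_or_nonempty with h | h
    · exact ⟨s, hs, le_rfl, by simp [h], Or.inl rfl⟩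
    · obtain ⟨p, hp, hmin⟩ := Z.exists_min_image (fun p => ‖z - p‖) h
      refine ⟨min s ‖z - p‖, lt_min hs (norm_pos_iff.2 (sub_ne_zero.2 fun h => hd' ?_)),
        min_le_left _ _, fun q hq => (min_le_right _ _).trans (hmin q hq),
        (min_choice _ _).imp id fun h => ⟨p, hp, h⟩⟩
      rw [h]; exact ((hZ p).1 hp).1
  have hball : ∀ w ∈ ball z τ, ‖w‖ ≤ R + s := fun w hw => by
    rw [mem_ball, dist_eq_norm] at hw
    linarith [norm_sub_norm_le w z]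
  have h4 : ∀ ζ, ‖ζ - z‖ ≤ τ / (20 * Λ) → ‖deriv φ ζ / deriv φ z - 1‖ ≤ 1 / 2 := fun ζ hζ =>
    near_one hτ hΛ hφ.deriv.differentiableOn (fun w hw h => by
      have := h2 w ((hZ w).2 ⟨h, hball w hw⟩)
      rw [mem_ball, dist_eq_norm, norm_sub_rev] at hw
      linarith) (fun w hw => by
      refine (hb w (hball w hw)).trans ?_
      rwa [Real.exp_neg, ← div_eq_mul_inv, div_le_iff₀ (Real.exp_pos _), mul_comm] at hz') hζ
  set t := min (τ / (20 * Λ)) (1 / (2 * ‖deriv φ z‖)) with ht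
  have h5 : ∀ ζ ∈ ball z t, ‖deriv φ ζ / deriv φ z - 1‖ ≤ 1 / 2 := fun ζ hζ =>
    h4 ζ (by rw [← dist_eq_norm]; exact (mem_ball.1 hζ).le.trans (min_le_left _ _))
  have h6 : ∀ u ∈ ball z t, ∀ v ∈ ball z t,
      ‖φ u - φ v - deriv φ z * (u - v)‖ ≤ ‖deriv φ z‖ / 2 * ‖u - v‖ := fun u hu v hv =>
    lip_of_deriv (fun ζ _ => hφ ζ) (fun ζ hζ => by
      have := h5 ζ hζ
      rw [div_sub_one hd', norm_div, div_le_iff₀ hd] at this
      linarith) hu hv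
  have ht0 : 0 < t := by positivity
  refine ⟨t, ht0, (min_le_left _ _).trans (by gcongr), fun p hp =>
    (min_le_left _ _).trans (by gcongr; exact h2 p hp), ?_, h5, fun u hu v hv h => ?_,
    fun ζ hζ => ?_⟩
  · rcases min_choice (τ / (20 * Λ)) (1 / (2 * ‖deriv φ z‖)) with h | h
    · exact Or.inr (h3.imp (fun h' => by rw [ht, h, h']) fun ⟨p, hp, h'⟩ =>
        ⟨p, hp, by rw [ht, h, h']⟩)
    · exact Or.inl h
  · have := h6 u hu v hv
    rw [h, sub_self, zero_sub, norm_neg, norm_mul] at this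
    refine sub_eq_zero.1 (norm_le_zero_iff.1 ?_)
    nlinarith
  · have a1 := h6 ζ hζ z (mem_ball_self ht0)
    have a2 := norm_sub_norm_le (φ ζ - φ z) (deriv φ z * (ζ - z))
    rw [norm_mul] at a2
    have a3 : ‖ζ - z‖ ≤ 1 / (2 * ‖deriv φ z‖) := by
      rw [← dist_eq_norm]; exact (mem_ball.1 hζ).le.trans (min_le_right _ _)
    rw [le_div_iff₀ (by positivity)] at a3
    nlinarith

/-- Green function of the disc of radius `R` with pole at `p` -/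
def green (R : ℝ) (p z : ℂ) : ℝ :=
  Real.log ‖(R : ℂ) ^ 2 - starRingEnd ℂ p * z‖ - Real.log ‖z - p‖ - Real.log R

lemma green_den {p z : ℂ} {R : ℝ} : R ^ 2 - ‖p‖ * ‖z‖ ≤ ‖(R : ℂ) ^ 2 - starRingEnd ℂ p * z‖ := by
  have := norm_sub_norm_le ((R : ℂ) ^ 2) (starRingEnd ℂ p * z)
  rwa [norm_pow, Complex.norm_real, Real.norm_eq_abs, sq_abs, norm_mul, Complex.norm_conj] at this

lemma green_le {p z : ℂ} {R β : ℝ} (hR : 0 < R) (h1 : ‖p‖ * ‖z‖ < R ^ 2) (h2 : z ≠ p)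
    (h3 : ‖(R : ℂ) ^ 2 - starRingEnd ℂ p * z‖ ≤ Real.exp β * (R * ‖z - p‖)) : green R p z ≤ β := by
  have h4 : 0 < ‖z - p‖ := norm_pos_iff.2 (sub_ne_zero.2 h2)
  have h5 := Real.log_le_log (lt_of_lt_of_le (by linarith) green_den) h3
  rw [Real.log_mul (Real.exp_pos _).ne' (by positivity), Real.log_exp,
    Real.log_mul hR.ne' h4.ne'] at h5
  unfold green; linarith

lemma green_nonpos {p z : ℂ} {R : ℝ} (hR : ‖p‖ < R) (h1 : ‖p‖ * ‖z‖ < R ^ 2) (h2 : R ≤ ‖z‖) :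
    green R p z ≤ 0 := by
  have h0 : 0 < R := (norm_nonneg _).trans_lt hR
  refine green_le h0 h1 (fun h => by rw [h] at h2; linarith) ?_
  rw [Real.exp_zero, one_mul]
  refine le_of_pow_le_pow_left₀ two_ne_zero (by positivity) ?_
  have h3 : ‖(R : ℂ) ^ 2 - starRingEnd ℂ p * z‖ ^ 2 = (R * ‖z - p‖) ^ 2 +
      (R ^ 2 - ‖z‖ ^ 2) * (R ^ 2 - ‖p‖ ^ 2) := by
    simp only [mul_pow, Complex.sq_norm, Complex.normSq_apply, Complex.mul_re, Complex.mul_im,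
      Complex.conj_re, Complex.conj_im, Complex.sub_re, Complex.sub_im, ← Complex.ofReal_pow,
      Complex.ofReal_re, Complex.ofReal_im]
    ring
  have h4 : R ^ 2 ≤ ‖z‖ ^ 2 := by gcongr
  have h5 : ‖p‖ ^ 2 ≤ R ^ 2 := by gcongr
  nlinarith

lemma green_le_five {p z : ℂ} {s : ℝ} (hs : 0 < s) (h1 : ‖p‖ * ‖z‖ < (‖p‖ + s) ^ 2)
    (h2 : s / 40 ≤ ‖z - p‖) : green (‖p‖ + s) p z ≤ 5 := by
  have hp := norm_nonneg p
  refine green_le (by positivity) h1 (fun h => by rw [h, sub_self, norm_zero] at h2; linarith) ?_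
  have h3 : ((‖p‖ + s : ℝ) : ℂ) ^ 2 - starRingEnd ℂ p * z =
      ((s * (2 * ‖p‖ + s) : ℝ) : ℂ) - starRingEnd ℂ p * (z - p) := by
    rw [mul_sub, Complex.conj_mul']; push_cast; ring
  have h4 : (81 : ℝ) ≤ Real.exp 5 := by
    have := Real.exp_one_gt_d9
    calc (81 : ℝ) ≤ 2.7 ^ 5 := by norm_num
      _ ≤ Real.exp 1 ^ 5 := by gcongr; linarith
      _ = Real.exp 5 := by rw [← Real.exp_nat_mul]; norm_num
  rw [h3]
  refine (norm_sub_le _ _).trans ?_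
  rw [norm_mul, Complex.norm_conj, Complex.norm_real, Real.norm_of_nonneg (by positivity)]
  calc _ ≤ 81 * ((‖p‖ + s) * ‖z - p‖) := by nlinarith [norm_nonneg (z - p)]
    _ ≤ _ := by gcongr

lemma gain_green {p z : ℂ} {s ρ : ℝ} (hs : 0 < s) (hz : ‖z‖ ≤ ‖p‖ + s) (hρ : 2 * ρ ≤ s)
    (h2 : 2 * ρ ≤ ‖z - p‖) (hρ0 : 0 < ρ) : Gain (green (‖p‖ + s) p) z ρ 0 := by
  have hp := norm_nonneg p
  have h3 : (‖p‖ + s) * s ≤ ‖((‖p‖ + s : ℝ) : ℂ) ^ 2 - starRingEnd ℂ p * z‖ :=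
    le_trans (by nlinarith) green_den
  have h4 : 0 < ‖((‖p‖ + s : ℝ) : ℂ) ^ 2 - starRingEnd ℂ p * z‖ := lt_of_lt_of_le (by positivity) h3
  have h5 : 0 < ‖z - p‖ := by linarith
  have a1 := gain_log (f := fun ζ => ((‖p‖ + s : ℝ) : ℂ) ^ 2 - starRingEnd ℂ p * ζ) (z := z) (ρ := ρ)
    (fun _ _ => by fun_prop) (norm_pos_iff.1 h4) (fun ζ hζ => by
      rw [div_sub_one (norm_pos_iff.1 h4), norm_div, div_le_iff₀ h4, sub_sub_sub_cancel_left,
        ← mul_sub, norm_mul, Complex.norm_conj, norm_sub_rev, ← dist_eq_norm]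
      nlinarith [mem_closedBall.1 hζ]) 1
  have a2 := gain_log (f := fun ζ => ζ - p) (z := z) (ρ := ρ)
    (fun _ _ => by fun_prop) (norm_pos_iff.1 h5) (fun ζ hζ => by
      rw [div_sub_one (norm_pos_iff.1 h5), norm_div, div_le_iff₀ h5, sub_sub_sub_cancel_right,
        ← dist_eq_norm]
      linarith [mem_closedBall.1 hζ]) (-1)
  have := (a1.add a2).add (gain_const (-Real.log (‖p‖ + s)))
  convert this using 1
  · funext ζ; unfold green; ring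
  · simp

lemma cost_bound {a lam μ N n : ℝ} (ha : 1 ≤ a) (hl : 1 ≤ lam) (hN : 1 ≤ N) (hμ : N ≤ μ * lam * a)
    (hn : n ≤ 2 * a * N) :
    lam ^ 2 + 9 * a ^ 2 * (20 * a * (Real.log N + 1)) ^ 2 + n * (4 * (20 * a * (Real.log N + 1)) ^ 4)
      ≤ (1 + 9 * 11520000 * μ + 8 * 11520000 * μ ^ 2) * a ^ 7 * lam ^ 2 := by
  have h0 := Real.log_nonneg hN
  set Λ := 20 * a * (Real.log N + 1) with hΛ
  have h1 : 1 ≤ Λ := by nlinarith
  have h2 : (Real.log N + 1) ^ 4 ≤ 72 * N := by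
    have := Real.pow_div_factorial_le_exp (Real.log N + 1) (by linarith) 4
    rw [Real.exp_add, Real.exp_log (by linarith), div_le_iff₀ (by positivity)] at this
    norm_num [Nat.factorial] at this
    nlinarith [Real.exp_one_lt_three]
  have h3 : Λ ^ 4 ≤ 11520000 * a ^ 4 * N := by
    calc Λ ^ 4 = 160000 * a ^ 4 * (Real.log N + 1) ^ 4 := by rw [hΛ]; ring
      _ ≤ 160000 * a ^ 4 * (72 * N) := by gcongr
      _ = _ := by ring
  have hμ0 : 0 ≤ μ := by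
    by_contra h
    nlinarith [mul_pos (show 0 < lam by linarith) (show 0 < a by linarith)]
  have h4 : lam ^ 2 ≤ a ^ 7 * lam ^ 2 := le_mul_of_one_le_left (by positivity) (one_le_pow₀ ha)
  have h5 : 9 * a ^ 2 * Λ ^ 2 ≤ 9 * 11520000 * μ * a ^ 7 * lam ^ 2 := by
    calc _ ≤ 9 * a ^ 2 * Λ ^ 4 := by gcongr; norm_num
      _ ≤ 9 * a ^ 2 * (11520000 * a ^ 4 * (μ * lam * a)) := by gcongr; exact h3.trans (by gcongr)
      _ = 9 * 11520000 * μ * a ^ 7 * lam ^ 1 := by ring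
      _ ≤ _ := by gcongr; norm_num
  have h6 : n * (4 * Λ ^ 4) ≤ 8 * 11520000 * μ ^ 2 * a ^ 7 * lam ^ 2 := by
    calc _ ≤ 2 * a * N * (4 * (11520000 * a ^ 4 * N)) := by gcongr
      _ = 8 * 11520000 * a ^ 5 * N ^ 2 := by ring
      _ ≤ 8 * 11520000 * a ^ 5 * (μ * lam * a) ^ 2 := by gcongr
      _ = _ := by ring
  linarith

theorem barrier {φ : ℂ → ℂ} (hφ : Differentiable ℂ φ) (hd0 : deriv φ 0 ≠ 0) {c γ : ℝ}
    (hc : 0 < c) (hc1 : c ≤ 1) (hγ : 0 < γ) : ∃ C₆ > 0, ∀ (z₁ : ℂ) (a lam : ℝ), 1 ≤ a →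
    1 ≤ ‖z₁‖ → 1 ≤ lam → (∀ z, ‖z‖ ≤ ‖z₁‖ + 5 * (‖z₁‖ / a) → ‖φ z‖ ≤ lam) →
    ∀ (d : ℂ → ℝ) (S D : ℝ), 0 ≤ S → (∀ z, 0 ≤ d z) → (∀ z, d z ≤ D) →
    (∀ z, ‖z - z₁‖ ≤ ‖z₁‖ / a / 20 → d z * Real.exp S ≤ D) →
    (∀ (z : ℂ) (t : ℝ) (H : ℂ → ℂ) (m : ℝ), 0 < t → InjOn φ (ball z t) →
      (∀ ζ ∈ ball z t, ‖φ ζ - φ z‖ ≤ 1) →
      (∀ ζ ∈ closedBall z (c * t / 2), DifferentiableAt ℂ H ζ) → H z = 0 →
      (∀ ζ ∈ sphere z (c * t / 2), d ζ * Real.exp (H ζ).re ≤ m) → d z ≤ Real.exp γ / 2 * m) →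
    d 0 * Real.exp (S / (20 * a) - C₆ * a ^ 7 * lam ^ 2) ≤ D := by
  have hd0' : 0 < ‖deriv φ 0‖ := norm_pos_iff.2 hd0
  set μ := 2 / ‖deriv φ 0‖ with hμ
  have hμ0 : 0 < μ := by positivity
  set γ₁ := 3200 * γ / c ^ 2 with hγ₁
  have hγ₁0 : 0 < γ₁ := by positivity
  refine ⟨γ₁ * (1 + 9 * 11520000 * μ + 8 * 11520000 * μ ^ 2), by positivity,
    fun z₁ a lam ha hr hl hM0 d S D hS hd hD hΔ hstep => ?_⟩
  set s := ‖z₁‖ / a with hs
  have ha0 : 0 < a := by linarith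
  have hs0 : 0 < s := by positivity
  have hrs : ‖z₁‖ = a * s := by rw [hs]; field_simp
  have hsr : s ≤ ‖z₁‖ := by nlinarith
  set M₁ := 2 * lam / s with hM₁
  have hM₁0 : 0 < M₁ := by positivity
  have hM1 : ∀ z, ‖z‖ ≤ ‖z₁‖ + 4 * s → ‖deriv φ z‖ ≤ M₁ := fun z hz =>
    deriv_bound hφ hs0 (fun u hu => hM0 u (by linarith)) hz
  have hM2 : ∀ z, ‖z‖ ≤ ‖z₁‖ + 3 * s → ‖deriv (deriv φ) z‖ ≤ 2 * M₁ / s := fun z hz =>
    deriv_bound hφ.deriv hs0 (fun u hu => hM1 u (by linarith)) hz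
  obtain ⟨Z, hZc, hZ⟩ := exists_zeros hφ.deriv hd0 ha hs0 (M := M₁) (by rwa [← hrs])
  rw [← hrs] at hZ
  set N := M₁ / ‖deriv φ 0‖ with hN
  have hN1 : 1 ≤ N := by
    rw [hN, le_div_iff₀ hd0', one_mul]; exact hM1 0 (by simp; positivity)
  have hNμ : N ≤ μ * lam * a := by
    have h1 : N = μ * lam * (a / ‖z₁‖) := by rw [hN, hM₁, hμ, hs]; field_simp
    rw [h1]
    gcongr
    exact div_le_self ha0.le hr
  have hL0 := Real.log_nonneg hN1
  have hcost := cost_bound ha hl hN1 hNμ hZc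
  set Λ := 20 * a * (Real.log N + 1) with hΛ
  have hΛa : 20 * a ≤ Λ := by nlinarith
  have hΛ0 : 0 < Λ := by linarith
  set W := lam ^ 2 + 9 * a ^ 2 * Λ ^ 2 + Z.card * (4 * Λ ^ 4) with hW
  let V₀ : ℂ → ℝ := fun z => ‖φ z‖ ^ 2 + (Λ / s) ^ 2 * ‖z‖ ^ 2 +
    Λ ^ 2 * ∑ p ∈ Z, Real.log (‖z - p‖ / s) ^ 2
  let V : ℂ → ℝ := fun z => γ₁ * V₀ z + S / 5 * green (‖z₁‖ + s) z₁ z +
    S / Λ * Real.log ‖deriv φ z‖ + (-(γ₁ * W) - S / Λ * Real.log M₁)
  let Ω' := {z | ‖z‖ ≤ ‖z₁‖ + 3 / 2 * s ∧ s / 40 ≤ ‖z - z₁‖ ∧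
    M₁ * Real.exp (-Λ) / 2 ≤ ‖deriv φ z‖}
  let Ω := {z | ‖z‖ ≤ ‖z₁‖ + s ∧ s / 20 ≤ ‖z - z₁‖ ∧ M₁ * Real.exp (-Λ) ≤ ‖deriv φ z‖}
  have hV₀ : ∀ z ∈ Ω', V₀ z ≤ W := by
    intro z ⟨h1, _, h3⟩
    have a1 : ‖φ z‖ ^ 2 ≤ lam ^ 2 := by gcongr; exact hM0 z (by linarith)
    have a2 : (Λ / s) ^ 2 * ‖z‖ ^ 2 ≤ 9 * a ^ 2 * Λ ^ 2 := by
      calc _ ≤ (Λ / s) ^ 2 * (3 * a * s) ^ 2 := by gcongr; nlinarith
        _ = _ := by field_simp; ring
    have a3 : ∑ p ∈ Z, Real.log (‖z - p‖ / s) ^ 2 ≤ Z.card * (4 * Λ ^ 2) := by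
      rw [← nsmul_eq_mul]
      refine Finset.sum_le_card_nsmul _ _ _ fun p hp => ?_
      obtain ⟨b1, b2⟩ := (hZ p).1 hp
      have b3 := (convex_closedBall (0 : ℂ) (‖z₁‖ + 3 * s)).norm_image_sub_le_of_norm_deriv_le
        (f := deriv φ) (fun u _ => hφ.deriv u) (fun u hu => hM2 u (by simpa using hu))
        (x := p) (y := z) (by simp; linarith) (by simp; linarith)
      rw [b1, sub_zero] at b3
      have b4 : Real.exp (-Λ) / 4 ≤ ‖z - p‖ / s := by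
        refine le_of_mul_le_mul_left ?_ (show 0 < 2 * M₁ by positivity)
        calc _ = M₁ * Real.exp (-Λ) / 2 := by ring
          _ ≤ _ := h3.trans b3
          _ = _ := by ring
      have b5 : ‖z - p‖ / s ≤ 6 * a := by
        rw [div_le_iff₀ hs0]; nlinarith [norm_sub_le z p]
      have b6 : 0 < ‖z - p‖ / s := lt_of_lt_of_le (by positivity) b4
      have b7 : Real.log (‖z - p‖ / s) ≤ 2 * Λ := by linarith [Real.log_le_sub_one_of_pos b6]
      have b8 : -(2 * Λ) ≤ Real.log (‖z - p‖ / s) := by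
        rw [Real.le_log_iff_exp_le b6]
        refine le_trans ?_ b4
        rw [le_div_iff₀ (by norm_num), show -Λ = -(2 * Λ) + Λ by ring, Real.exp_add]
        gcongr
        linarith [Real.add_one_le_exp Λ]
      calc _ ≤ (2 * Λ) ^ 2 := sq_le_sq' b8 b7
        _ = _ := by ring
    have a4 : Λ ^ 2 * ∑ p ∈ Z, Real.log (‖z - p‖ / s) ^ 2 ≤ Z.card * (4 * Λ ^ 4) := by
      calc _ ≤ Λ ^ 2 * (Z.card * (4 * Λ ^ 2)) := by gcongr
        _ = _ := by ring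
    simp only [V₀, hW]; linarith
  have hpos : ∀ z ∈ Ω', 0 < ‖deriv φ z‖ := fun z hz => lt_of_lt_of_le (by positivity) hz.2.2
  have hden : ∀ z ∈ Ω', ‖z₁‖ * ‖z‖ < (‖z₁‖ + s) ^ 2 := fun z hz => by nlinarith [hz.1]
  have hVle : ∀ z ∈ Ω', ∀ g l : ℝ, green (‖z₁‖ + s) z₁ z ≤ g →
      Real.log ‖deriv φ z‖ ≤ Real.log M₁ + l → V z ≤ S / 5 * g + S / Λ * l := by
    intro z hz g l h1 h2
    have a1 : γ₁ * V₀ z ≤ γ₁ * W := by gcongr; exact hV₀ z hz
    have a2 : S / 5 * green (‖z₁‖ + s) z₁ z ≤ S / 5 * g := by gcongr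
    have a3 : S / Λ * Real.log ‖deriv φ z‖ ≤ S / Λ * (Real.log M₁ + l) := by gcongr
    simp only [V]; linarith
  have hlog : ∀ z ∈ Ω', Real.log ‖deriv φ z‖ ≤ Real.log M₁ + 0 := fun z hz => by
    rw [add_zero]; exact Real.log_le_log (hpos z hz) (hM1 z (by linarith [hz.1]))
  have hg5 : ∀ z ∈ Ω', green (‖z₁‖ + s) z₁ z ≤ 5 := fun z hz =>
    green_le_five hs0 (hden z hz) hz.2.1
  have hVS : ∀ z ∈ Ω', V z ≤ S := fun z hz => by linarith [hVle z hz 5 0 (hg5 z hz) (hlog z hz)]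
  have hD0 : 0 ≤ D := (hd 0).trans (hD 0)
  have hzero : ∀ z, V z ≤ 0 → d z * Real.exp (V z) ≤ D := fun z hz => by
    calc _ ≤ D * 1 := by
          gcongr
          · exact hD z
          · exact Real.exp_le_one_iff.2 hz
      _ = D := mul_one _
  have key := discrete_max (Ω := Ω) (Ω' := Ω') (E := fun z => d z * Real.exp (V z)) hD0
    (M := D * Real.exp S) (fun z hz => by
      gcongr
      · exact hD z
      · exact hVS z hz) (fun z hz hz' => by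
      simp only [Ω, mem_ofPred_eq, not_and_or, not_le] at hz'
      rcases hz' with h | h | h
      · apply hzero
        linarith [hVle z hz 0 0 (green_nonpos (by linarith) (hden z hz) h.le) (hlog z hz)]
      · refine le_trans ?_ (hΔ z h.le)
        have := hd z
        gcongr
        exact hVS z hz
      · apply hzero
        have a1 := Real.log_le_log (hpos z hz) h.le
        rw [Real.log_mul hM₁0.ne' (Real.exp_pos _).ne', Real.log_exp] at a1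
        have a2 : S / Λ * -Λ = -S := by field_simp
        linarith [hVle z hz 5 _ (hg5 z hz) a1]) (fun z ⟨h1, h2, h3⟩ m hm => by
      obtain ⟨t, ht, a1, a2, a3, a4, a5, a6⟩ := exists_radius hφ hs0 (by linarith) hM₁0
        (R := ‖z₁‖ + s) (fun u hu => hM1 u (by linarith)) (Z := Z)
        (fun p => by rw [hZ p, add_assoc, ← two_mul]) h1 h3
      set ρ := c * t / 2 with hρ
      have hρ0 : 0 < ρ := by positivity
      have hρt : 2 * ρ ≤ t := by nlinarith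
      have hts : t ≤ s / 400 := a1.trans (by gcongr; linarith)
      have hsub : closedBall z ρ ⊆ ball z t := closedBall_subset_ball (by linarith)
      have hdz : 0 < ‖deriv φ z‖ := lt_of_lt_of_le (by positivity) h3
      have hΩ' : ∀ ζ ∈ closedBall z ρ, ζ ∈ Ω' := by
        intro ζ hζ
        have b1 := a4 ζ (hsub hζ)
        rw [div_sub_one (norm_pos_iff.1 hdz), norm_div, div_le_iff₀ hdz, norm_sub_rev] at b1
        rw [mem_closedBall, dist_eq_norm] at hζ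
        refine ⟨by linarith [norm_sub_norm_le ζ z], ?_,
          by linarith [norm_sub_norm_le (deriv φ z) (deriv φ ζ)]⟩
        have := norm_sub_le_norm_sub_add_norm_sub z ζ z₁
        rw [norm_sub_rev z ζ] at this
        linarith
      have hZρ : ∀ p ∈ Z, 2 * ρ ≤ ‖z - p‖ := fun p hp =>
        hρt.trans ((a2 p hp).trans (div_le_self (norm_nonneg _) (by linarith)))
      have g0 : Gain V₀ z ρ _ := ((gain_normSq hρ0 fun ζ _ => hφ ζ).add
        ((gain_normSq (F := fun ζ => ζ) hρ0 fun ζ _ => differentiableAt_id).smul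
          (sq_nonneg (Λ / s)))).add
        ((gain_sum Z fun p hp => gain_logSq hρ0 hs0 (hZρ p hp)).smul (sq_nonneg Λ))
      have g1 : Gain V₀ z ρ (c ^ 2 / 3200) := by
        refine g0.mono ?_
        have b1 : 0 ≤ ρ ^ 2 * ‖deriv φ z‖ ^ 2 := by positivity
        have b2 : 0 ≤ (Λ / s) ^ 2 * (ρ ^ 2 * ‖deriv (fun ζ : ℂ => ζ) z‖ ^ 2) := by positivity
        have b3 : 0 ≤ Λ ^ 2 * ∑ p ∈ Z, ρ ^ 2 / (2 * ‖z - p‖ ^ 2) := by positivity
        have b0 := sq_nonneg c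
        rcases a3 with h | h | ⟨p, hp, h⟩
        · have : ρ ^ 2 * ‖deriv φ z‖ ^ 2 = c ^ 2 / 16 := by rw [hρ, h]; field_simp; norm_num
          linarith
        · have : (Λ / s) ^ 2 * (ρ ^ 2 * ‖deriv (fun ζ : ℂ => ζ) z‖ ^ 2) = c ^ 2 / 1600 := by
            rw [hρ, h, deriv_id'', norm_one]; field_simp; norm_num
          linarith
        · have b4 : 0 < ‖z - p‖ := by linarith [hZρ p hp]
          have b5 : Λ ^ 2 * (ρ ^ 2 / (2 * ‖z - p‖ ^ 2)) = c ^ 2 / 3200 := by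
            rw [hρ, h]; field_simp; norm_num
          have b6 : Λ ^ 2 * (ρ ^ 2 / (2 * ‖z - p‖ ^ 2)) ≤
              Λ ^ 2 * ∑ p ∈ Z, ρ ^ 2 / (2 * ‖z - p‖ ^ 2) := by
            gcongr
            exact Finset.single_le_sum (f := fun p => ρ ^ 2 / (2 * ‖z - p‖ ^ 2))
              (fun _ _ => by positivity) hp
          linarith
      have g2 : Gain V z ρ _ := (((g1.smul hγ₁0.le).add ((gain_green hs0 h1 (by linarith)
        (by linarith) hρ0).smul (show 0 ≤ S / 5 by positivity))).add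
        (gain_log (fun ζ _ => hφ.deriv ζ) (norm_pos_iff.1 hdz) (fun ζ hζ => a4 ζ (hsub hζ))
          (S / Λ))).add (gain_const _)
      obtain ⟨H, b1, b2, b3⟩ := g2
      have b4 : γ₁ * (c ^ 2 / 3200) = γ := by rw [hγ₁]; field_simp
      have b5 := hstep z t H (m * Real.exp (-(V z + γ))) ht a5 a6 b1 b2 fun ζ hζ => by
        have c1 := b3 ζ hζ
        have c2 := hm ζ (hΩ' ζ (sphere_subset_closedBall hζ))
        have c3 := hd ζ
        calc _ ≤ d ζ * Real.exp (V ζ + -(V z + γ)) := by gcongr; linarith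
          _ = d ζ * Real.exp (V ζ) * Real.exp (-(V z + γ)) := by rw [Real.exp_add, mul_assoc]
          _ ≤ _ := by gcongr
      calc d z * Real.exp (V z) ≤ Real.exp γ / 2 * (m * Real.exp (-(V z + γ))) * Real.exp (V z) := by
            gcongr
        _ = m / 2 := by rw [Real.exp_neg, Real.exp_add]; field_simp) 0
    ⟨by simp; positivity, by simp; linarith, by
      have a1 : M₁ * Real.exp (-Real.log N) = ‖deriv φ 0‖ := by
        rw [Real.exp_neg, Real.exp_log (by linarith), hN]; field_simp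
      have a2 : M₁ * Real.exp (-Λ) ≤ M₁ * Real.exp (-Real.log N) := by gcongr; nlinarith
      have a3 : 0 < M₁ * Real.exp (-Λ) := by positivity
      linarith⟩
  refine le_trans ?_ key
  have := hd 0
  gcongr
  have a1 : 0 ≤ γ₁ * V₀ 0 := by positivity
  have a2 : 1 / (2 * a) ≤ green (‖z₁‖ + s) z₁ 0 := by
    have b1 : green (‖z₁‖ + s) z₁ 0 = Real.log (1 + 1 / a) := by
      unfold green
      rw [mul_zero, sub_zero, norm_pow, Complex.norm_real, Real.norm_of_nonneg (by positivity),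
        Real.log_pow, zero_sub, norm_neg, show 1 + 1 / a = (‖z₁‖ + s) / ‖z₁‖ by
          rw [hs]; field_simp, Real.log_div (by positivity) (by positivity)]
      push_cast; ring
    rw [b1]
    refine le_trans ?_ (Real.one_sub_inv_le_log_of_pos (by positivity))
    rw [show 1 - (1 + 1 / a)⁻¹ = 1 / (a + 1) by field_simp; ring]
    gcongr; linarith
  have a3 : S / 5 * (1 / (2 * a)) ≤ S / 5 * green (‖z₁‖ + s) z₁ 0 := by gcongr
  have a4 : Real.log ‖deriv φ 0‖ = Real.log M₁ - Real.log N := by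
    rw [hN, Real.log_div hM₁0.ne' hd0'.ne']; ring
  have a5 : S / Λ * Real.log N ≤ S / (20 * a) := by
    rw [div_mul_eq_mul_div, div_le_div_iff₀ hΛ0 (by positivity), hΛ]
    nlinarith [mul_nonneg hS ha0.le]
  have a6 : γ₁ * W ≤ γ₁ * ((1 + 9 * 11520000 * μ + 8 * 11520000 * μ ^ 2) * a ^ 7 * lam ^ 2) := by
    gcongr
  have a7 : S / 5 * (1 / (2 * a)) = 2 * (S / (20 * a)) := by field_simp; ring
  simp only [V]
  rw [a4]
  linarith

end Pool.Agent.P.MP_7ede32_ag.Ell
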