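import Mathlib

/-!
Surfaces fibred over an elliptic curve: the working structure (charts, lifts of the fibration,
pluricanonical coefficients), holomorphic maps from the plane, finite chart covers,
equicontinuity and limits along ultrafilters.
-/

open Filter Topology Metric Set

noncomputable section

namespace Pool.Agent.P.MP_7ede32_ag.Ell

abbrev E2 := ℂ × ℂ

/-- determinant of two vectors of the plane -/
def det2 (u v : E2) : ℂ := u.1 * v.2 - u.2 * v.1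

/-- Jacobian determinant of a linear map of the plane -/
def jac (A : E2 →L[ℂ] E2) : ℂ := det2 (A (1, 0)) (A (0, 1))

lemma lin_apply {F : Type*} [NormedAddCommGroup F] [NormedSpace ℂ F] (A : E2 →L[ℂ] F) (u : E2) :
    A u = u.1 • A (1, 0) + u.2 • A (0, 1) := by
  have : u = u.1 • ((1, 0) : E2) + u.2 • ((0, 1) : E2) := by ext <;> simp
  conv_lhs => rw [this]
  rw [map_add, map_smul, map_smul]

lemma det2_map (A : E2 →L[ℂ] E2) (u v : E2) : det2 (A u) (A v) = jac A * det2 u v := by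
  rw [lin_apply A u, lin_apply A v]
  simp only [det2, jac, Prod.fst_add, Prod.snd_add, Prod.smul_fst, Prod.smul_snd, smul_eq_mul]
  ring

lemma norm_det2_le (u v : E2) : ‖det2 u v‖ ≤ 2 * ‖u‖ * ‖v‖ := by
  have h1 : ‖u.1‖ ≤ ‖u‖ := norm_fst_le u
  have h2 : ‖u.2‖ ≤ ‖u‖ := norm_snd_le u
  have h3 : ‖v.1‖ ≤ ‖v‖ := norm_fst_le v
  have h4 : ‖v.2‖ ≤ ‖v‖ := norm_snd_le v
  calc ‖det2 u v‖ ≤ ‖u.1 * v.2‖ + ‖u.2 * v.1‖ := norm_sub_le _ _
    _ = ‖u.1‖ * ‖v.2‖ + ‖u.2‖ * ‖v.1‖ := by rw [norm_mul, norm_mul]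
    _ ≤ ‖u‖ * ‖v‖ + ‖u‖ * ‖v‖ := by gcongr
    _ = 2 * ‖u‖ * ‖v‖ := by ring

/-- The working structure. -/
structure Srf (X : Type*) [MetricSpace X] where
  A : Set (OpenPartialHomeomorph X E2)
  cover : ∀ x, ∃ e ∈ A, x ∈ e.source
  trans : ∀ e ∈ A, ∀ e' ∈ A, ∀ x ∈ e.source, x ∈ e'.source → AnalyticAt ℂ (e' ∘ e.symm) (e x)
  Λ : Submodule ℤ ℂ
  disc : ∃ r > 0, ∀ w ∈ Λ, ‖w‖ < r → w = 0
  π : X → ℂ ⧸ Λ
  lift : ∀ x, ∃ g : X → ℂ, (∀ᶠ y in 𝓝 x, π y = Λ.mkQ (g y)) ∧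
    ∀ e ∈ A, x ∈ e.source → AnalyticAt ℂ (g ∘ e.symm) (e x)
  m : ℕ
  m_pos : 0 < m
  N : ℕ
  a : Fin N → OpenPartialHomeomorph X E2 → E2 → ℂ
  a_an : ∀ l, ∀ e ∈ A, ∀ x ∈ e.source, AnalyticAt ℂ (a l e) (e x)
  a_compat : ∀ l, ∀ e ∈ A, ∀ e' ∈ A, ∀ x ∈ e.source, x ∈ e'.source →
    a l e (e x) = a l e' (e' x) * jac (fderiv ℂ (e' ∘ e.symm) (e x)) ^ m
  bpf : ∀ e ∈ A, ∀ x ∈ e.source, ∃ l, a l e (e x) ≠ 0
  inj : ∀ e ∈ A, ∀ e' ∈ A, ∀ x ∈ e.source, ∀ y ∈ e'.source, ∀ c : ℂ,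
    (∀ l, a l e (e x) = c * a l e' (e' y)) → x = y

variable {X : Type*} [MetricSpace X]

namespace Srf

variable (S : Srf X)

/-- holomorphic at a point, for maps from the plane -/
def HolAt (f : ℂ → X) (z : ℂ) : Prop :=
  ContinuousAt f z ∧ ∀ e ∈ S.A, f z ∈ e.source → DifferentiableAt ℂ (e ∘ f) z

/-- entire curve -/
def Hol (f : ℂ → X) : Prop := ∀ z, S.HolAt f z

variable {S}

lemma Hol.continuous {f : ℂ → X} (hf : S.Hol f) : Continuous f :=
  continuous_iff_continuousAt.2 fun z => (hf z).1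

lemma eventually_mem_source {f : ℂ → X} {z : ℂ} (hf : ContinuousAt f z)
    {e : OpenPartialHomeomorph X E2} (he : f z ∈ e.source) : ∀ᶠ w in 𝓝 z, f w ∈ e.source :=
  hf.eventually (e.open_source.mem_nhds he)

lemma comp_chart_eventuallyEq {F : Type*} {f : ℂ → X} {z : ℂ} (hf : ContinuousAt f z)
    {e : OpenPartialHomeomorph X E2} (he : f z ∈ e.source) (g : X → F) :
    g ∘ f =ᶠ[𝓝 z] (g ∘ e.symm) ∘ (e ∘ f) := by
  filter_upwards [eventually_mem_source hf he] with w hw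
  simp [e.left_inv hw]

lemma holAt_of_chart {f : ℂ → X} {z : ℂ} (hf : ContinuousAt f z)
    {e : OpenPartialHomeomorph X E2} (he : e ∈ S.A) (hz : f z ∈ e.source)
    (hd : DifferentiableAt ℂ (e ∘ f) z) : S.HolAt f z := by
  refine ⟨hf, fun e' he' hz' => ?_⟩
  refine DifferentiableAt.congr_of_eventuallyEq ?_ (comp_chart_eventuallyEq hf hz e')
  exact DifferentiableAt.comp z (S.trans e he e' he' _ hz hz').differentiableAt hd

lemma HolAt.comp {f : ℂ → X} {φ : ℂ → ℂ} {z : ℂ} (hf : S.HolAt f (φ z))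
    (hφ : DifferentiableAt ℂ φ z) : S.HolAt (f ∘ φ) z :=
  ⟨hf.1.comp hφ.continuousAt, fun e he hz => (hf.2 e he hz).comp z hφ⟩

lemma Hol.affine {f : ℂ → X} (hf : S.Hol f) (a b : ℂ) : S.Hol (fun w => f (a + b * w)) :=
  fun z => HolAt.comp (f := f) (φ := fun w => a + b * w) (hf _) (by fun_prop)

lemma Hol.shift {f : ℂ → X} (hf : S.Hol f) (a : ℂ) : S.Hol (fun w => f (a + w)) :=
  fun z => HolAt.comp (f := f) (φ := fun w => a + w) (hf _) (by fun_prop)

lemma HolAt.analyticAt {f : ℂ → X} {z : ℂ} (hf : ∀ᶠ w in 𝓝 z, S.HolAt f w)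
    {e : OpenPartialHomeomorph X E2} (he : e ∈ S.A) (hz : f z ∈ e.source) :
    AnalyticAt ℂ (e ∘ f) z := by
  rw [Complex.analyticAt_iff_eventually_differentiableAt]
  filter_upwards [hf, eventually_mem_source hf.self_of_nhds.1 hz] with w hw hw'
  exact hw.2 e he hw'

lemma Hol.analyticAt {f : ℂ → X} (hf : S.Hol f) {z : ℂ}
    {e : OpenPartialHomeomorph X E2} (he : e ∈ S.A) (hz : f z ∈ e.source) :
    AnalyticAt ℂ (e ∘ f) z :=
  HolAt.analyticAt (Eventually.of_forall hf) he hz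

/-- identity theorem -/
lemma Hol.eq_of_frequently {f g : ℂ → X} (hf : S.Hol f) (hg : S.Hol g) {z₀ : ℂ}
    (h : ∃ᶠ w in 𝓝[≠] z₀, f w = g w) : f = g := by
  have key : ∀ z, (∃ᶠ w in 𝓝[≠] z, f w = g w) → ∀ᶠ w in 𝓝 z, f w = g w := by
    intro z hz
    have hfz : f z = g z := by
      have hc : IsClosed {w | f w = g w} := isClosed_eq hf.continuous hg.continuous
      exact hc.closure_subset (mem_closure_iff_frequently.2 (hz.filter_mono nhdsWithin_le_nhds))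
    obtain ⟨e, he, hx⟩ := S.cover (f z)
    have hx' : g z ∈ e.source := hfz ▸ hx
    have h1 := hf.analyticAt he hx
    have h2 := hg.analyticAt he hx'
    have h3 : ∀ᶠ w in 𝓝 z, (e ∘ f) w = (e ∘ g) w := by
      refine (h1.frequently_eq_iff_eventually_eq h2).1 ?_
      exact hz.mono fun w hw => by simp [hw]
    filter_upwards [h3, eventually_mem_source (hf z).1 hx, eventually_mem_source (hg z).1 hx']
      with w hw h4 h5
    exact e.injOn h4 h5 hw
  have hclopen : IsClopen {z | ∀ᶠ w in 𝓝 z, f w = g w} := by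
    refine ⟨?_, isOpen_setOfPred_eventually_nhds⟩
    rw [← closure_subset_iff_isClosed]
    intro z hz
    apply key
    rw [mem_closure_iff_frequently] at hz
    by_contra hcon
    rw [not_frequently] at hcon
    have h1 : ∀ᶠ w in 𝓝 z, w ≠ z → ¬ f w = g w := eventually_nhdsWithin_iff.1 hcon
    have h2 := h1.eventually_nhds
    obtain ⟨w, hw1, hw2⟩ := (hz.and_eventually h2).exists
    have h3 : ∀ᶠ u in 𝓝[≠] w, u ≠ z := by
      by_cases hwz : w = z
      · subst hwz; exact self_mem_nhdsWithin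
      · exact mem_nhdsWithin_of_mem_nhds (isOpen_ne.mem_nhds hwz)
    have h4 : ∀ᶠ u in 𝓝[≠] w, False := by
      filter_upwards [h3, mem_nhdsWithin_of_mem_nhds hw1, mem_nhdsWithin_of_mem_nhds hw2]
        with u hu1 hu2 hu3
      exact hu3 hu1 hu2
    exact (h4.exists).elim fun _ h => h
  have huniv := hclopen.eq_univ ⟨z₀, key z₀ h⟩
  funext z
  have : z ∈ {z | ∀ᶠ w in 𝓝 z, f w = g w} := huniv ▸ mem_univ z
  exact (show ∀ᶠ w in 𝓝 z, f w = g w from this).self_of_nhds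

lemma Hol.eq_of_eventually {f g : ℂ → X} (hf : S.Hol f) (hg : S.Hol g) {z₀ : ℂ}
    (h : ∀ᶠ w in 𝓝 z₀, f w = g w) : f = g :=
  hf.eq_of_frequently hg (z₀ := z₀) (h.filter_mono nhdsWithin_le_nhds).frequently

lemma hol_const (x : X) : S.Hol (fun _ => x) := fun _ =>
  ⟨continuousAt_const, fun _ _ _ => differentiableAt_const _⟩

end Srf

/-- A finite cover by compact pieces of chart domains, with a Lebesgue number. -/
structure Cov (S : Srf X) where
  k : ℕ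
  e : Fin k → OpenPartialHomeomorph X E2
  K : Fin k → Set X
  mem : ∀ i, e i ∈ S.A
  cpt : ∀ i, IsCompact (K i)
  sub : ∀ i, K i ⊆ (e i).source
  ε : ℝ
  ε_pos : 0 < ε
  idx : X → Fin k
  leb : ∀ x, closedBall x ε ⊆ K (idx x)
  B : ℝ
  B_pos : 0 < B
  bd : ∀ i, ∀ x ∈ K i, ‖e i x‖ ≤ B
  bda : ∀ i l, ∀ x ∈ K i, ‖S.a l (e i) (e i x)‖ ≤ B

lemma exists_bound_fin {k : ℕ} (P : Fin k → ℝ → Prop) (hP : ∀ i, ∃ B, P i B)
    (hm : ∀ i B B', B ≤ B' → P i B → P i B') : ∃ B > 0, ∀ i, P i B := by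
  choose b hb using hP
  refine ⟨1 + ∑ i, |b i|, by positivity, fun i => hm i _ _ ?_ (hb i)⟩
  have : |b i| ≤ ∑ i, |b i| :=
    Finset.single_le_sum (f := fun i => |b i|) (fun _ _ => abs_nonneg _) (Finset.mem_univ i)
  linarith [le_abs_self (b i)]

lemma exists_pos_fin {ι : Type*} [Finite ι] (P : ι → ℝ → Prop) (hP : ∀ i, ∃ r > 0, P i r)
    (hm : ∀ i r r', 0 < r' → r' ≤ r → P i r → P i r') : ∃ r > 0, ∀ i, P i r := by
  have h : ∀ i, ∀ᶠ r in 𝓝[>] (0 : ℝ), P i r := by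
    intro i
    obtain ⟨r, hr, h⟩ := hP i
    filter_upwards [Ioc_mem_nhdsGT hr] with r' hr' using hm i r r' hr'.1 hr'.2 h
  obtain ⟨r, h1, h2⟩ := ((eventually_all.2 h).and self_mem_nhdsWithin).exists
  exact ⟨r, h2, h1⟩

lemma Srf.nonempty_cov [CompactSpace X] (S : Srf X) : Nonempty (Cov S) := by
  choose ch hch hx using S.cover
  have h1 : ∀ x, ∃ r > 0, closedBall x (2 * r) ⊆ (ch x).source := by
    intro x
    obtain ⟨r, hr, h⟩ := Metric.nhds_basis_closedBall.mem_iff.1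
      ((ch x).open_source.mem_nhds (hx x))
    exact ⟨r / 2, by positivity, by rwa [show 2 * (r / 2) = r by ring]⟩
  choose r hr hsub using h1
  obtain ⟨t, ht⟩ := isCompact_univ.elim_finite_subcover (fun x => ball x (r x))
    (fun _ => isOpen_ball) (fun x _ => mem_iUnion.2 ⟨x, mem_ball_self (hr x)⟩)
  let p : Fin t.card → X := fun i => (t.equivFin.symm i : X)
  have hp : ∀ x, ∃ i, x ∈ ball (p i) (r (p i)) := by
    intro x
    obtain ⟨y, hy, h⟩ := mem_iUnion₂.1 (ht (mem_univ x))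
    exact ⟨t.equivFin ⟨y, hy⟩, by simpa [p] using h⟩
  choose idx hidx using hp
  obtain ⟨ε, hε, hεr⟩ := exists_pos_fin (fun i ε => ε ≤ r (p i)) (fun i => ⟨_, hr _, le_rfl⟩)
    (fun i a b _ h1 h2 => h1.trans h2)
  have hK : ∀ i, IsCompact (closedBall (p i) (2 * r (p i))) := fun i => isClosed_closedBall.isCompact
  have hb : ∀ i, ∃ B, (∀ x ∈ closedBall (p i) (2 * r (p i)), ‖ch (p i) x‖ ≤ B) ∧
      ∀ l, ∀ x ∈ closedBall (p i) (2 * r (p i)), ‖S.a l (ch (p i)) (ch (p i) x)‖ ≤ B := by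
    intro i
    have hc : ContinuousOn (ch (p i)) (closedBall (p i) (2 * r (p i))) :=
      (ch (p i)).continuousOn.mono (hsub _)
    obtain ⟨B1, hB1⟩ := (hK i).exists_bound_of_continuousOn hc
    obtain ⟨B2, _, hB2⟩ := exists_bound_fin (fun l B =>
      ∀ x ∈ closedBall (p i) (2 * r (p i)), ‖S.a l (ch (p i)) (ch (p i) x)‖ ≤ B) (fun l => by
        refine (hK i).exists_bound_of_continuousOn fun x hx' => ?_
        exact (S.a_an l _ (hch _) x (hsub _ hx')).continuousAt.comp_continuousWithinAt (hc x hx'))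
      (fun l B B' h1 h2 x hx' => (h2 x hx').trans h1)
    exact ⟨max B1 B2, fun x hx' => (hB1 x hx').trans (le_max_left _ _),
      fun l x hx' => (hB2 l x hx').trans (le_max_right _ _)⟩
  obtain ⟨B, hB, hB'⟩ := exists_bound_fin _ hb (fun i B B' h1 h2 =>
    ⟨fun x hx' => (h2.1 x hx').trans h1, fun l x hx' => (h2.2 l x hx').trans h1⟩)
  refine ⟨⟨t.card, fun i => ch (p i), fun i => closedBall (p i) (2 * r (p i)), fun i => hch _,
      hK, fun i => hsub _, ε, hε, idx, ?_, B, hB, fun i => (hB' i).1, fun i => (hB' i).2⟩⟩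
  intro x y hy
  have h1 := hidx x
  have h2 := hεr (idx x)
  rw [mem_ball] at h1
  rw [mem_closedBall] at hy ⊢
  linarith [dist_triangle y x (p (idx x))]

end Pool.Agent.P.MP_7ede32_ag.Ell
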