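import Pool.Agent.P.MP_7ede32_ag.Ell.Half

/-!
Brody curves project to affine maps; periodicity of the sections; finitely many fibres carry
entire curves.
-/

open Filter Topology Metric Set

noncomputable section

namespace Pool.Agent.P.MP_7ede32_ag.Ell

variable {X : Type*} [MetricSpace X]

namespace Srf

variable {S : Srf X}

lemma deriv_lf_eq {h : ℂ → X} {z : ℂ} (hh : ContinuousAt h z) {g : X → ℂ} (hg : S.IsLift g (h z)) :
    deriv (S.lf (h z) ∘ h) z = deriv (g ∘ h) z := by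
  have h1 : S.lf (h z) ∘ h =ᶠ[𝓝 z] fun w => (g ∘ h) w + (S.lf (h z) (h z) - g (h z)) :=
    hh.eventually ((isLift_lf (h z)).sub_const hg)
  rw [h1.deriv_eq, deriv_add_const]

theorem affine_of_uc [CompactSpace X] {h : ℂ → X} (hh : S.Hol h) (huc : UniformContinuous h) :
    ∃ a b : ℂ, ∀ z, S.π (h z) = S.Λ.mkQ (a * z + b) := by
  let ψ : ℂ → ℂ := fun z => deriv (S.lf (h z) ∘ h) z
  have hloc : ∀ z, ∀ᶠ w in 𝓝 z, S.IsLift (S.lf (h z)) (h w) := fun z =>
    (hh z).1.eventually (isLift_lf (h z)).eventually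
  have hψ : ∀ z, ψ =ᶠ[𝓝 z] deriv (S.lf (h z) ∘ h) := fun z =>
    (hloc z).mono fun w hw => deriv_lf_eq (hh w).1 hw
  have han : ∀ z, AnalyticAt ℂ (S.lf (h z) ∘ h) z := fun z =>
    Complex.analyticAt_iff_eventually_differentiableAt.2
      ((hloc z).mono fun w hw => hw.2.differentiableAt (hh w))
  have hψd : Differentiable ℂ ψ := fun z =>
    ((han z).deriv.differentiableAt).congr_of_eventuallyEq (hψ z)
  have hV : ∀ x : X, {y | S.IsLift (S.lf x) y ∧ dist (S.lf x y) (S.lf x x) < 1} ∈ 𝓝 x := fun x =>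
    (isLift_lf x).eventually.and (Metric.tendsto_nhds.1 (isLift_lf x).2.continuousAt 1 one_pos)
  obtain ⟨δ, hδ, h1⟩ := lebesgue_number_lemma_of_metric (isCompact_univ (X := X))
    (c := fun x => interior {y | S.IsLift (S.lf x) y ∧ dist (S.lf x y) (S.lf x x) < 1})
    (fun _ => isOpen_interior) (fun x _ => mem_iUnion.2 ⟨x, mem_interior_iff_mem_nhds.2 (hV x)⟩)
  obtain ⟨r, hr, h2⟩ := Metric.uniformContinuous_iff.1 huc δ hδ
  have hψb : ∀ z, ‖ψ z‖ ≤ 2 / r := by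
    intro z
    obtain ⟨x, hx⟩ := h1 (h z) (mem_univ _)
    have h3 : ∀ w ∈ ball z r, S.IsLift (S.lf x) (h w) ∧ dist (S.lf x (h w)) (S.lf x x) < 1 :=
      fun w hw => interior_subset
        (s := {y | S.IsLift (S.lf x) y ∧ dist (S.lf x y) (S.lf x x) < 1}) (hx (h2 hw))
    have h4 := h3 z (mem_ball_self hr)
    simp only [ψ]
    rw [deriv_lf_eq (hh z).1 h4.1]
    refine Complex.norm_deriv_le_div_of_mapsTo_ball
      (fun w hw => ((h3 w hw).1.2.differentiableAt (hh w)).differentiableWithinAt)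
      (fun w hw => ?_) hr
    rw [mem_closedBall]
    linarith [dist_triangle_right (S.lf x (h w)) (S.lf x (h z)) (S.lf x x), (h3 w hw).2, h4.2,
      show dist ((S.lf x ∘ h) w) ((S.lf x ∘ h) z) = dist (S.lf x (h w)) (S.lf x (h z)) from rfl]
  have hψc : ∀ z, ψ z = ψ 0 := fun z => hψd.apply_eq_apply_of_bounded
    (isBounded_iff_forall_norm_le.2 ⟨2 / r, by rintro _ ⟨w, rfl⟩; exact hψb w⟩) z 0
  have hlc : IsLocallyConstant fun z => S.π (h z) - S.Λ.mkQ (ψ 0 * z) := by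
    rw [IsLocallyConstant.iff_eventually_eq]
    intro z
    obtain ⟨ρ, hρ, h3⟩ := Metric.eventually_nhds_iff_ball.1 ((hloc z).and (hψ z))
    filter_upwards [ball_mem_nhds z hρ] with w hw
    have h4 := const_of_deriv_ball (f := fun u => (S.lf (h z) ∘ h) u - ψ 0 * u) (ζ := z) (r := ρ)
      (fun u hu => (((h3 u hu).1.2.differentiableAt (hh u)).sub (by fun_prop)).differentiableWithinAt)
      (fun u hu => by
        have := (((h3 u hu).1.2.differentiableAt (hh u)).hasDerivAt.sub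
          ((hasDerivAt_id u).const_mul (ψ 0))).deriv
        refine this.trans ?_
        rw [← (h3 u hu).2, hψc u]; simp) hw (mem_ball_self hρ)
    rw [(h3 w hw).1.1.self_of_nhds, (h3 z (mem_ball_self hρ)).1.1.self_of_nhds, ← map_sub,
      ← map_sub]
    exact congrArg _ h4
  obtain ⟨b, hb⟩ := S.Λ.mkQ_surjective (S.π (h 0))
  refine ⟨ψ 0, b, fun z => ?_⟩
  have := hlc.apply_eq_of_preconnectedSpace z 0
  rw [mul_zero, map_zero, sub_zero, sub_eq_iff_eq_add] at this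
  rw [this, map_add, hb, add_comm]

theorem periodic_of_finite (hT : {f | S.Hol f ∧ ∀ z, S.π (f z) = S.Λ.mkQ z}.Finite) :
    ∃ n : ℕ, 0 < n ∧ ∀ f, S.Hol f → (∀ z, S.π (f z) = S.Λ.mkQ z) →
      ∀ w ∈ S.Λ, ∀ z, f (z + n * w) = f z := by
  let T := {f | S.Hol f ∧ ∀ z, S.π (f z) = S.Λ.mkQ z}
  have : Finite T := hT
  have hsh : ∀ w ∈ S.Λ, ∀ f ∈ T, (fun z => f (w + z)) ∈ T := fun w hw f hf =>
    ⟨hf.1.shift w, fun z => by rw [hf.2, mk_eq_iff]; simpa using hw⟩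
  refine ⟨Nat.card (Equiv.Perm T), Nat.card_pos, fun f h1 h2 w hw z => ?_⟩
  let σ : Equiv.Perm T := ⟨fun f => ⟨_, hsh w hw f.1 f.2⟩, fun f => ⟨_, hsh (-w) (S.Λ.neg_mem hw) f.1 f.2⟩,
    fun f => by ext z; simp, fun f => by ext z; simp⟩
  have hσ : ∀ (k : ℕ) (g : T) (z : ℂ), ((σ ^ k) g).1 z = g.1 (z + k * w) := by
    intro k
    induction k with
    | zero => simp
    | succ k ih =>
      intro g z
      rw [pow_succ', Equiv.Perm.mul_apply]
      refine (ih g (w + z)).trans ?_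
      rw [show w + z + k * w = z + ((k + 1 : ℕ) : ℂ) * w by push_cast; ring]
  have := hσ (Nat.card (Equiv.Perm T)) ⟨f, h1, h2⟩ z
  rw [pow_card_eq_one'] at this
  exact this.symm

lemma exists_far (C : Cov S) {h : ℂ → X} (hh : S.Hol h) (hn : ¬ ∀ z, h z = h 0) :
    ∃ z, C.ε ≤ dist (h z) (h 0) := by
  by_contra hcon
  push Not at hcon
  exact hn (C.const_of_small hh fun z => (hcon z).le)

/-- Brody's lemma in a fibre -/
lemma exists_uc_vert [CompactSpace X] {h : ℂ → X} {s : ℂ ⧸ S.Λ} (hh : S.Hol h)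
    (hv : ∀ z, S.π (h z) = s) (hn : ¬ ∀ z, h z = h 0) :
    ∃ g, S.Hol g ∧ UniformContinuous g ∧ (∀ z, S.π (g z) = s) ∧ ¬ ∀ z, g z = g 0 := by
  obtain ⟨C⟩ := S.nonempty_cov
  obtain ⟨w, hw⟩ := exists_far C hh hn
  obtain ⟨z, ρ, g, _, _, hg, huc, hconv, ζ, hζ⟩ := C.exists_bubble (f := fun _ => h) (fun _ => hh)
    C.ε_pos le_rfl (z₀ := fun _ => 0) (w₀ := fun _ => w) (fun _ => hw)
  exact ⟨g, hg, huc, fun u => (isClosed_fib s).mem_of_tendsto (hconv.tendsto u)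
    (Eventually.of_forall fun n => hv _), fun H => hζ (H ζ)⟩

theorem finite_bad [CompactSpace X] (hF : S.Fib) :
    {s | ∃ h, S.Hol h ∧ (∀ z, S.π (h z) = s) ∧ ¬ ∀ z, h z = h 0}.Finite := by
  obtain ⟨C⟩ := S.nonempty_cov
  by_contra hinf
  let F := Set.Infinite.natEmbedding _ hinf
  let s : ℕ → ℂ ⧸ S.Λ := fun n => (F n).1
  have hsinj : Function.Injective s := fun a b h => F.injective (Subtype.ext h)
  have H : ∀ n, ∃ g, S.Hol g ∧ UniformContinuous g ∧ (∀ z, S.π (g z) = s n) ∧ ¬ ∀ z, g z = g 0 :=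
    fun n => by
      obtain ⟨h, h1, h2, h3⟩ := (F n).2
      exact exists_uc_vert h1 h2 h3
  choose g hg huc hv hn using H
  have hp : ∀ n, ∃ p, S.π p = s n ∧ S.Crit p := by
    intro n
    by_contra hcon
    push Not at hcon
    exact hn n (vert_const (hg n) (huc n) (hv n) (fun x h1 h2 => absurd h2 (hcon x h1)) (ζs := 0)
      fun ζ _ => hcon _ (hv n ζ))
  choose p hp hpc using hp
  obtain ⟨x, _, hx⟩ := isCompact_univ.ultrafilter_le_nhds (UU.map p) (by simp)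
  have hx' : Tendsto p UU (𝓝 x) := hx
  choose w hw using fun n => exists_far C (hg n) (hn n)
  obtain ⟨z, ρ, h, _, _, hh, hhuc, hconv, ζ, hζ⟩ := C.exists_bubble hg
    C.ε_pos le_rfl (z₀ := fun _ => 0) (w₀ := w) hw
  have hhv : ∀ u, S.π (h u) = S.π x := fun u => by
    simpa using π_lim (S := S) (hconv.tendsto u) hx' (tendsto_const_nhds (x := (0 : ℂ)))
      (Eventually.of_forall fun n => by rw [hv, hp]; simp)
  rcases hF (S.π x) with hnod | hhyp
  · have h1 : ∀ᶠ n in (UU : Filter ℕ), s n = S.π x := by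
      filter_upwards [hx'.eventually (crit_isolated (hnod x rfl))] with n h2
      rw [← hp, h2 (hpc n)]
    have h2 : ∀ᶠ n in (UU : Filter ℕ), s n ≠ S.π x := by
      apply ev_UU
      rw [← Nat.cofinite_eq_atTop, eventually_cofinite]
      refine Set.Subsingleton.finite fun a ha b hb => hsinj ?_
      simp only [mem_ofPred_eq, not_not] at ha hb
      rw [ha, hb]
    obtain ⟨n, h3, h4⟩ := (h1.and h2).exists
    exact h4 h3
  · exact hζ (hhyp h hh hhuc hhv ζ)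

theorem main [CompactSpace X] (hF : S.Fib) :
    ∃ (B : Set (ℂ ⧸ S.Λ)) (T : Set (ℂ → X)) (n : ℕ), B.Finite ∧ T.Finite ∧ 0 < n ∧
      (∀ f ∈ T, S.Hol f ∧ (∀ z, S.π (f z) = S.Λ.mkQ z) ∧ ∀ w ∈ S.Λ, ∀ z, f (z + n * w) = f z) ∧
      ∀ h, S.Hol h → UniformContinuous h → (¬ ∀ z, h z = h 0) →
        (∃ s ∈ B, ∀ z, S.π (h z) = s) ∨ ∃ f ∈ T, range h = range f := by
  obtain ⟨n, hn, H⟩ := periodic_of_finite (finite_sec hF)
  refine ⟨_, _, n, finite_bad hF, finite_sec hF, hn, fun f hf => ⟨hf.1, hf.2, H f hf.1 hf.2⟩,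
    fun h hh huc hne => ?_⟩
  obtain ⟨a, b, hab⟩ := affine_of_uc hh huc
  by_cases ha : a = 0
  · have : ∀ z, S.π (h z) = S.Λ.mkQ b := fun z => by rw [hab, ha, zero_mul, zero_add]
    exact Or.inl ⟨_, ⟨h, hh, this, hne⟩, this⟩
  · refine Or.inr ⟨fun w => h (-b / a + a⁻¹ * w), ⟨hh.affine _ _, fun w => ?_⟩, ?_⟩
    · rw [hab]; congr 1; field_simp; ring
    · ext x
      constructor
      · rintro ⟨z, rfl⟩
        exact ⟨a * z + b, congrArg h (by field_simp; ring)⟩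
      · rintro ⟨z, rfl⟩
        exact ⟨_, rfl⟩

end Srf

end Pool.Agent.P.MP_7ede32_ag.Ell
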