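import Pool.Agent.P.MP_7ede32_ag.Ell.Barrier

/-!
Every entire curve that is not vertical factors through one of the finitely many sections.
-/

open Filter Topology Metric Set

noncomputable section

namespace Pool.Agent.P.MP_7ede32_ag.Ell

variable {X : Type*} [MetricSpace X] [CompactSpace X] {S : Srf X}

omit [CompactSpace X] in
theorem exists_lift {h : ℂ → X} (hh : S.Hol h) :
    ∃ φ : ℂ → ℂ, Differentiable ℂ φ ∧ ∀ z, S.π (h z) = S.Λ.mkQ (φ z) := by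
  let ψ : ℂ → ℂ := fun z => deriv (S.lf (h z) ∘ h) z
  have hloc : ∀ z, ∀ᶠ w in 𝓝 z, S.IsLift (S.lf (h z)) (h w) := fun z =>
    (hh z).1.eventually (Srf.isLift_lf (h z)).eventually
  have hψ : ∀ z, ψ =ᶠ[𝓝 z] deriv (S.lf (h z) ∘ h) := fun z =>
    (hloc z).mono fun w hw => Srf.deriv_lf_eq (hh w).1 hw
  have han : ∀ z, AnalyticAt ℂ (S.lf (h z) ∘ h) z := fun z =>
    Complex.analyticAt_iff_eventually_differentiableAt.2
      ((hloc z).mono fun w hw => hw.2.differentiableAt (hh w))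
  have hψd : Differentiable ℂ ψ := fun z =>
    ((han z).deriv.differentiableAt).congr_of_eventuallyEq (hψ z)
  obtain ⟨g, hg⟩ := hψd.isExactOn_univ
  have hlc : IsLocallyConstant fun z => S.π (h z) - S.Λ.mkQ (g z) := by
    rw [IsLocallyConstant.iff_eventually_eq]
    intro z
    obtain ⟨ρ, hρ, h3⟩ := Metric.eventually_nhds_iff_ball.1 ((hloc z).and (hψ z))
    filter_upwards [ball_mem_nhds z hρ] with w hw
    have h4 := const_of_deriv_ball (f := fun u => (S.lf (h z) ∘ h) u - g u) (ζ := z) (r := ρ)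
      (fun u hu => (((h3 u hu).1.2.differentiableAt (hh u)).sub
        (hg u (mem_univ u)).differentiableAt).differentiableWithinAt)
      (fun u hu => by
        have := (((h3 u hu).1.2.differentiableAt (hh u)).hasDerivAt.sub (hg u (mem_univ u))).deriv
        refine this.trans ?_
        rw [← (h3 u hu).2, sub_self]) hw (mem_ball_self hρ)
    rw [(h3 w hw).1.1.self_of_nhds, (h3 z (mem_ball_self hρ)).1.1.self_of_nhds, ← map_sub,
      ← map_sub]
    exact congrArg _ h4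
  obtain ⟨b, hb⟩ := S.Λ.mkQ_surjective (S.π (h 0) - S.Λ.mkQ (g 0))
  refine ⟨fun z => b + g z, fun z => (hg z (mem_univ z)).differentiableAt.const_add b, fun z => ?_⟩
  have := hlc.apply_eq_of_preconnectedSpace z 0
  rw [map_add, hb, ← this, sub_add_cancel]

theorem core (hF : S.Fib) {h : ℂ → X} (hh : S.Hol h) {φ : ℂ → ℂ} {c : ℂ} (hφ : Differentiable ℂ φ)
    (h0 : φ 0 = 0) (hd0 : deriv φ 0 ≠ 0) (hπ : ∀ z, S.π (h z) = S.Λ.mkQ (c + φ z)) :
    ∃ f ∈ S.Tc c, f 0 = h 0 := by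
  by_contra hne
  push Not at hne
  obtain ⟨C⟩ := S.nonempty_cov
  have hB := C.B_pos
  obtain ⟨η, hη, hηC, γ, hγ, hstep⟩ := C.step
  obtain ⟨k, hk, hk1, hle⟩ := Srf.loc_equi hF (show 0 < η / 4 by positivity)
  obtain ⟨κ, hκ, R, hR, ε, hε, hcap⟩ := cap_est hF C
  obtain ⟨Rs, hRs, hsh⟩ := shadow_conn hF c (lt_min hε hη)
  obtain ⟨C₆, hC₆, hbar⟩ := barrier hφ hd0 hk hk1 hγ
  have : Finite (S.Tc c) := finite_Tc hF c
  obtain ⟨δ, hδ, hδT⟩ := exists_pos_fin (fun (f : S.Tc c) r => r ≤ C.Dt η (f.1 0) (h 0))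
    (fun f => ⟨_, C.Dt_pos hηC (hne f.1 f.2), le_rfl⟩) fun f a b _ h1 h2 => h1.trans h2
  set C₇ := 2560 * (C₆ * Real.exp 6 ^ 2 + 1) / κ + 256 with hC₇
  have hC₇' : 0 < 2560 * (C₆ * Real.exp 6 ^ 2 + 1) / κ := by positivity
  set A := 128 * (Nat.factorial 24 * C₇) + 512 with hA
  have hA' : 0 ≤ Nat.factorial 24 * C₇ := by positivity
  obtain ⟨zs, hzs⟩ : ∃ zs, φ zs ≠ 0 := by
    by_contra hcon
    push Not at hcon
    exact hd0 (by rw [show φ = fun _ => 0 from funext hcon]; simp)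
  have hq : 0 < (4 * C.B + 1) / δ := by positivity
  obtain ⟨z₁, y, hy, hr, hl, hwv⟩ := wv hφ h0 hzs (A := A)
    (r₀ := 1 + 8 * R + 4 * Rs + (4 * C.B + 1) / δ) (by linarith) (by positivity)
  set l := ‖φ z₁‖ with hldef
  set a := y ^ 3 with ha
  have hy0 : 0 < y := by linarith
  have ha1 : 1 ≤ a := one_le_pow₀ hy
  have hr1 : 1 ≤ ‖z₁‖ := by linarith
  have hl1 : 1 ≤ l := by linarith
  have hl0 : 0 < l := by linarith
  have hz₁ : z₁ ≠ 0 := norm_pos_iff.1 (by linarith)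
  have hw₁ : φ z₁ ≠ 0 := norm_pos_iff.1 hl0
  have hAy : A * y / a = A / y ^ 2 := by rw [ha]; field_simp
  obtain ⟨Ψ, hΨ1, hΨ2⟩ := inv_branch hφ hz₁ hw₁ ha1 (K := A * y) (by nlinarith) fun ζ hζ => by
    have h1 : Real.log ‖z₁ * Complex.exp (ζ / a)‖ - Real.log ‖z₁‖ = ζ.re / a := by
      rw [norm_mul, Real.log_mul (norm_ne_zero_iff.2 hz₁) (by simp), Complex.norm_exp,
        Real.log_exp, Complex.div_ofReal_re]; ring
    have := hwv _ (mul_ne_zero hz₁ (Complex.exp_ne_zero (ζ / a))) (by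
      rw [h1, abs_div, abs_of_pos (by linarith : 0 < a), ← hAy]
      gcongr
      exact (Complex.abs_re_le_norm ζ).trans hζ)
    rwa [h1, mul_div_cancel₀ _ (by linarith : a ≠ 0)] at this
  have hM0 : ∀ z, ‖z‖ ≤ ‖z₁‖ + 5 * (‖z₁‖ / a) → ‖φ z‖ ≤ l * Real.exp 6 := fun z hz =>
    max_sphere (ρ := ‖z₁‖ + 5 * (‖z₁‖ / a)) (z := 0) (by positivity) (fun ζ _ => hφ ζ)
      (fun ζ hζ => by
        have h1 : ‖ζ‖ = ‖z₁‖ * (1 + 5 / a) := by
          rw [mem_sphere_zero_iff_norm.1 hζ]; ring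
        have h2 : Real.log ‖ζ‖ - Real.log ‖z₁‖ = Real.log (1 + 5 / a) := by
          rw [h1, Real.log_mul (norm_ne_zero_iff.2 hz₁) (by positivity)]; ring
        have h3 : Real.log (1 + 5 / a) ≤ 5 / a := by
          linarith [Real.log_le_sub_one_of_pos (show 0 < 1 + 5 / a by positivity)]
        have h4 : 0 ≤ Real.log (1 + 5 / a) :=
          Real.log_nonneg (by linarith [show 0 < 5 / a by positivity])
        refine (hwv ζ (norm_pos_iff.1 (by rw [h1]; positivity)) (by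
          rw [h2, abs_of_nonneg h4, ← hAy]
          exact h3.trans (by gcongr; nlinarith))).trans ?_
        rw [h2]
        gcongr
        rw [le_div_iff₀ (by linarith)] at h3
        linarith) (by simpa using hz)
  set E := Real.exp (A * y / 128) with hE
  have hEa : C₇ * a ^ 8 ≤ E := by
    refine le_trans ?_ (Real.pow_div_factorial_le_exp _ (by positivity) 24)
    rw [le_div_iff₀ (by positivity), show A * y / 128 = A / 128 * y by ring, mul_pow]
    have h1 : A / 128 ≤ (A / 128) ^ 24 := le_self_pow₀ (by linarith) (by norm_num)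
    calc _ = Nat.factorial 24 * C₇ * y ^ 24 := by rw [ha]; ring
      _ ≤ _ := mul_le_mul_of_nonneg_right (le_trans (by
          rw [le_div_iff₀ (by norm_num), hA, mul_comm]
          exact le_add_of_nonneg_right (by norm_num)) h1) (by positivity)
  have hE1 : 256 ≤ E := by
    have : 1 ≤ a ^ 8 := one_le_pow₀ ha1
    nlinarith
  set u := φ z₁ / l with hu
  have hl' : (l : ℂ) ≠ 0 := by exact_mod_cast hl0.ne'
  have hu1 : ‖u‖ = 1 := by
    rw [hu, norm_div, Complex.norm_real, Real.norm_of_nonneg hl0.le, div_self hl0.ne']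
  have hux : ∀ w, (starRingEnd ℂ u * w).re = l * (w / φ z₁).re := fun w => by
    rw [← Complex.re_ofReal_mul]
    congr 1
    have := Complex.conj_mul' (φ z₁)
    rw [hu, map_div₀, Complex.conj_ofReal]
    field_simp
    rw [← hldef] at this
    linear_combination w * this
  have hnw : ∀ w, ‖w‖ = l * ‖w / φ z₁‖ := fun w => by
    rw [norm_div, ← hldef, mul_div_cancel₀ _ hl0.ne']
  let Ω := {w | l / 2 ≤ (starRingEnd ℂ u * w).re ∧ ‖w‖ ≤ l * E / 2}
  have hΩc : Convex ℝ Ω := by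
    refine Convex.inter (s := {w | l / 2 ≤ (starRingEnd ℂ u * w).re}) (t := {w | ‖w‖ ≤ l * E / 2})
      (convex_halfSpace_ge (f := fun w => (starRingEnd ℂ u * w).re)
        ⟨fun a b => ?_, fun a b => ?_⟩ _) ?_
    · rw [mul_add, Complex.add_re]
    · rw [Complex.real_smul, mul_left_comm, Complex.re_ofReal_mul, smul_eq_mul]
    · simpa [closedBall] using convex_closedBall (0 : ℂ) (l * E / 2)
  have hsec : ∀ w₀ ∈ Ω, ∀ w, ‖w - w₀‖ ≤ Rs →
      S.HolAt (h ∘ Ψ) w ∧ S.π ((h ∘ Ψ) w) = S.Λ.mkQ (c + w) := by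
    intro w₀ hw₀ w hw
    have h1 : (starRingEnd ℂ u * w).re = (starRingEnd ℂ u * w₀).re +
        (starRingEnd ℂ u * (w - w₀)).re := by rw [mul_sub, Complex.sub_re]; ring
    have h2 := neg_le_of_abs_le (Complex.abs_re_le_norm (starRingEnd ℂ u * (w - w₀)))
    rw [norm_mul, Complex.norm_conj, hu1, one_mul] at h2
    obtain ⟨a1, a2⟩ := hΨ1 w (le_of_mul_le_mul_left (by rw [← hux]; linarith [hw₀.1]) hl0)
      (le_of_mul_le_mul_left (by
        rw [← hnw]; nlinarith [hw₀.2, norm_sub_norm_le w w₀]) hl0)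
    exact ⟨(hh _).comp a1, by rw [Function.comp, hπ, a2]⟩
  obtain ⟨f, hf, hfs⟩ := hsh (h ∘ Ψ) Ω hΩc.isPreconnected ⟨φ z₁, by
    rw [hux, div_self hw₁]; simp; linarith, by nlinarith⟩ hsec
  have hcap' := hcap f (h ∘ Ψ) c u (l / 2) (l * E / 2) hu1 (by nlinarith) (fun w h1 h2 =>
    ⟨hf.1 w, (hsec w ⟨h1, h2⟩ w (by simp [hRs.le])).1, hf.2 w,
      (hsec w ⟨h1, h2⟩ w (by simp [hRs.le])).2, (hfs w ⟨h1, h2⟩).le.trans (min_le_left _ _)⟩)
    (by positivity)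
  have key := hbar z₁ a (l * Real.exp 6) ha1 hr1
    (by nlinarith [Real.add_one_le_exp (6 : ℝ)]) hM0 (fun z => C.Dt η (f (φ z)) (h z))
    (κ * l ^ 2 * E / 128) (4 * C.B + 1) (by positivity) (fun z => C.Dt_nonneg _ _ _)
    (fun z => C.Dt_le hηC _ _) (fun z hz => by
      obtain ⟨a1, a2⟩ := hΨ2 z hz
      have a3 : 3 / 4 ≤ (φ z / φ z₁).re := by
        have := neg_le_of_abs_le ((Complex.abs_re_le_norm _).trans a2)
        rw [Complex.sub_re, Complex.one_re] at this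
        linarith
      have a4 : ‖φ z / φ z₁‖ ≤ 5 / 4 := by
        linarith [norm_sub_norm_le (φ z / φ z₁) 1, norm_one (α := ℂ)]
      have a5 : 3 / 4 * l ≤ (starRingEnd ℂ u * φ z).re := by rw [hux]; nlinarith
      have a6 : ‖φ z‖ ≤ 5 / 4 * l := by rw [hnw]; nlinarith
      have a7 : φ z ∈ Ω := ⟨by linarith, by nlinarith⟩
      have a8 := hcap' _ a7.1 a7.2
      have a9 := (hfs _ a7).le.trans (min_le_right _ _)
      simp only [Function.comp, a1] at a8 a9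
      simp only [Cov.Dt, if_pos a9]
      refine le_trans ?_ (a8.trans (by linarith))
      have := C.D_nonneg (f (φ z)) (h z)
      gcongr
      have b1 : κ * (l * E / 2) / 4 * (l / 8) ≤
          κ * (l * E / 2) / 4 * ((starRingEnd ℂ u * φ z).re - l / 2 - R) := by gcongr; linarith
      have b2 : κ * ‖φ z‖ ^ 2 ≤ κ * (5 / 4 * l) ^ 2 := by gcongr
      have b3 : κ * l ^ 2 * 256 ≤ κ * l ^ 2 * E := by gcongr
      have b4 : 0 < κ * l ^ 2 := by positivity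
      linarith) (fun z t H m ht h1 h2 h3 h4 h5 => by
      have a1 : ∀ g : ℂ → X, S.Hol g → (∀ ζ, S.π (g ζ) = S.Λ.mkQ (c + φ ζ)) →
          ∀ ζ ∈ closedBall z (k * t / 2), dist (g ζ) (g z) < η / 4 := fun g hg hg' ζ hζ =>
        hle g (fun ζ => c + φ ζ) z t (fun w hw => ⟨hg w, hg' w, by simpa using h2 w hw⟩)
          (by fun_prop) (fun w hw w' hw' h => h1 hw hw' (add_left_cancel h)) ζ
          (lt_of_le_of_lt hζ (half_lt_self (by positivity)))
      have a2 : S.Hol (f ∘ φ) := fun ζ => (hf.1 _).comp (hφ ζ)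
      exact hstep (f ∘ φ) h H z _ m (by positivity) (fun ζ hζ => ⟨a2 ζ, hh ζ,
        a1 _ a2 (fun ζ => hf.2 _) ζ hζ, a1 _ hh hπ ζ hζ, h3 ζ hζ⟩) h4 h5)
  simp only [h0] at key
  have b1 : l ≤ κ * l ^ 2 * E / 128 / (20 * a) - C₆ * a ^ 7 * (l * Real.exp 6) ^ 2 := by
    have c1 : (C₆ * Real.exp 6 ^ 2 + 1) * a ^ 7 * l ^ 2 ≤ κ * l ^ 2 * E / 128 / (20 * a) := by
      rw [le_div_iff₀ (by positivity), le_div_iff₀ (by positivity)]
      calc _ = κ * l ^ 2 * (2560 * (C₆ * Real.exp 6 ^ 2 + 1) / κ * a ^ 8) := by field_simp; ring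
        _ ≤ κ * l ^ 2 * (C₇ * a ^ 8) := by gcongr; linarith
        _ ≤ _ := by gcongr
    have c2 : 1 * l ^ 1 ≤ a ^ 7 * l ^ 2 := by
      gcongr
      · exact one_le_pow₀ ha1
      · norm_num
    nlinarith
  have b2 : δ * (l + 1) ≤ 4 * C.B + 1 := by
    refine le_trans ?_ key
    gcongr
    · exact C.Dt_nonneg _ _ _
    · exact hδT ⟨f, hf⟩
    · exact (Real.add_one_le_exp l).trans (Real.exp_le_exp.2 b1)
  have b3 : (4 * C.B + 1) / δ ≤ l := by linarith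
  rw [div_le_iff₀ hδ] at b3
  nlinarith

theorem factor (hF : S.Fib) {h : ℂ → X} (hh : S.Hol h) {φ : ℂ → ℂ} (hφ : Differentiable ℂ φ)
    (hπ : ∀ z, S.π (h z) = S.Λ.mkQ (φ z)) (hn : ¬ ∀ z, φ z = φ 0) :
    ∃ f, (S.Hol f ∧ ∀ z, S.π (f z) = S.Λ.mkQ z) ∧ h = f ∘ φ := by
  by_contra hcon
  push Not at hcon
  have h1 : ∀ᶠ z in 𝓝[≠] (0 : ℂ), deriv φ z ≠ 0 := by
    refine (hφ.deriv.analyticAt 0).eventually_eq_zero_or_eventually_ne_zero.resolve_left
      fun h2 => hn fun z => ?_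
    have h3 : deriv φ = 0 := AnalyticOnNhd.eq_of_eventuallyEq (fun z _ => hφ.deriv.analyticAt z)
      analyticOnNhd_const h2
    exact is_const_of_deriv_eq_zero hφ (fun w => congrFun h3 w) z 0
  have h2 : ∀ᶠ z in 𝓝[≠] (0 : ℂ), ∀ f ∈ {f | S.Hol f ∧ ∀ z, S.π (f z) = S.Λ.mkQ z},
      h z ≠ f (φ z) := by
    refine (eventually_all_finite (finite_sec hF)).2 fun f hf => ?_
    by_contra h3
    exact hcon f hf (hh.eq_of_frequently (fun ζ => (hf.1 _).comp (hφ ζ)) (z₀ := 0)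
      (by simpa [not_eventually] using h3))
  obtain ⟨z₀, a1, a2⟩ := (h1.and h2).exists
  obtain ⟨f, hf, a3⟩ := core hF (hh.shift z₀) (φ := fun z => φ (z₀ + z) - φ z₀) (c := φ z₀)
    (by fun_prop) (by simp) (by
      rw [deriv_sub_const, deriv_comp_const_add, add_zero]; exact a1) (fun z => by
      rw [hπ, add_sub_cancel])
  refine a2 (fun w => f (-φ z₀ + w)) ⟨hf.1.shift _, fun w => by rw [hf.2]; simp⟩ ?_
  simpa using a3.symm

theorem ggl (hF : S.Fib) :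
    ∃ (B : Set (ℂ ⧸ S.Λ)) (T : Set (ℂ → X)) (n : ℕ), B.Finite ∧ T.Finite ∧ 0 < n ∧
      (∀ f ∈ T, S.Hol f ∧ (∀ z, S.π (f z) = S.Λ.mkQ z) ∧ ∀ w ∈ S.Λ, ∀ z, f (z + n * w) = f z) ∧
      ∀ h, S.Hol h → (¬ ∀ z, h z = h 0) → (∃ s ∈ B, ∀ z, S.π (h z) = s) ∨
        ∃ f ∈ T, ∃ φ : ℂ → ℂ, Differentiable ℂ φ ∧ h = f ∘ φ := by
  obtain ⟨n, hn, H⟩ := Srf.periodic_of_finite (finite_sec hF)
  refine ⟨_, _, n, Srf.finite_bad hF, finite_sec hF, hn, fun f hf => ⟨hf.1, hf.2, H f hf.1 hf.2⟩,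
    fun h hh hne => ?_⟩
  obtain ⟨φ, hφ, hπ⟩ := exists_lift hh
  by_cases hc : ∀ z, φ z = φ 0
  · have : ∀ z, S.π (h z) = S.Λ.mkQ (φ 0) := fun z => by rw [hπ, hc]
    exact Or.inl ⟨_, ⟨h, hh, this, hne⟩, this⟩
  · obtain ⟨f, hf, h1⟩ := factor hF hh hφ hπ hc
    exact Or.inr ⟨f, hf, φ, hφ, h1⟩

end Pool.Agent.P.MP_7ede32_ag.Ell
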