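import Pool.Agent.P.MP_7ede32_ag.Ell.WV

/-!
Counting zeros, the radius of univalence, and strict subharmonicity in a holomorphic form.
-/

open Filter Topology Metric Set

noncomputable section

namespace Pool.Agent.P.MP_7ede32_ag.Ell

lemma zeros_bound {R ρ : ℝ} (hR : 0 < R) (Z : Finset ℂ) : ∀ (f : ℂ → ℂ) (M : ℝ),
    Differentiable ℂ f → (∀ z ∈ sphere (0 : ℂ) R, ‖f z‖ ≤ M) → (∀ p ∈ Z, f p = 0 ∧ ‖p‖ ≤ ρ) →
    ‖f 0‖ * R ^ Z.card ≤ M * ρ ^ Z.card := by
  classical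
  induction Z using Finset.induction_on with
  | empty =>
    intro f M hf hM _
    simpa using max_sphere hR (fun ζ _ => hf ζ) hM (mem_closedBall_self hR.le)
  | insert p Z hp ih =>
    intro f M hf hM hZ
    obtain ⟨h1, h2⟩ := hZ p (Finset.mem_insert_self _ _)
    have hg : Differentiable ℂ (dslope f p) := differentiableOn_univ.1
      ((Complex.differentiableOn_dslope univ_mem).2 hf.differentiableOn)
    have hz : ∀ z, f z = (z - p) * dslope f p z := fun z => by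
      have := sub_smul_dslope f p z
      rw [h1, sub_zero, smul_eq_mul] at this
      exact this.symm
    have h3 := ih (fun z => dslope f p z * ((R : ℂ) ^ 2 - starRingEnd ℂ p * z)) (R * M)
      (by fun_prop) (fun z hz' => by
        have h4 : ‖z‖ = R := by simpa using hz'
        have h5 : (R : ℂ) ^ 2 - starRingEnd ℂ p * z = z * starRingEnd ℂ (z - p) := by
          rw [map_sub, mul_sub, Complex.mul_conj', h4]; ring
        rw [h5, norm_mul, norm_mul, Complex.norm_conj, h4]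
        have h6 := hM z hz'
        rw [hz z, norm_mul] at h6
        nlinarith) (fun q hq => by
        refine ⟨?_, (hZ q (Finset.mem_insert_of_mem hq)).2⟩
        have h4 := (hZ q (Finset.mem_insert_of_mem hq)).1
        rw [hz q, mul_eq_zero, sub_eq_zero] at h4
        rw [h4.resolve_left fun h => hp (h ▸ hq), zero_mul])
    simp only [mul_zero, sub_zero, norm_mul, norm_pow, Complex.norm_real,
      Real.norm_of_nonneg hR.le] at h3
    have h4 : ‖dslope f p 0‖ * R ^ (Z.card + 1) ≤ M * ρ ^ Z.card := by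
      refine le_of_mul_le_mul_left ?_ hR
      calc _ = ‖dslope f p 0‖ * R ^ 2 * R ^ Z.card := by ring
        _ ≤ _ := h3
        _ = _ := by ring
    rw [Finset.card_insert_of_notMem hp, hz 0, norm_mul, zero_sub, norm_neg]
    calc _ = ‖p‖ * (‖dslope f p 0‖ * R ^ (Z.card + 1)) := by ring
      _ ≤ ρ * (M * ρ ^ Z.card) := by gcongr; exact (norm_nonneg _).trans h2
      _ = _ := by ring

lemma near_one {f : ℂ → ℂ} {z : ℂ} {τ Λ : ℝ} (hτ : 0 < τ) (hΛ : 1 ≤ Λ)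
    (hd : DifferentiableOn ℂ f (ball z τ)) (h0 : ∀ w ∈ ball z τ, f w ≠ 0)
    (hb : ∀ w ∈ ball z τ, ‖f w‖ ≤ Real.exp Λ * ‖f z‖) {ζ : ℂ} (hζ : ‖ζ - z‖ ≤ τ / (20 * Λ)) :
    ‖f ζ / f z - 1‖ ≤ 1 / 2 := by
  have hz : z ∈ ball z τ := mem_ball_self hτ
  have hd' : DifferentiableOn ℂ (fun w => deriv f w / f w) (ball z τ) :=
    (hd.deriv isOpen_ball).div hd h0
  obtain ⟨g, hg0, hg⟩ := hd'.isExactOn_ball.with_val_at z 0
  have h1 : ∀ w ∈ ball z τ, HasDerivAt (fun u => f u * Complex.exp (-g u)) 0 w := by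
    intro w hw
    have h3 : HasDerivAt (fun u => f u * Complex.exp (-g u))
        (deriv f w * Complex.exp (-g w) + f w * (Complex.exp (-g w) * -(deriv f w / f w))) w :=
      (hd.differentiableAt (isOpen_ball.mem_nhds hw)).hasDerivAt.mul ((hg w hw).neg.cexp)
    convert h3 using 1
    have := h0 w hw
    field_simp
    simp
  have h2 : ∀ w ∈ ball z τ, f w / f z = Complex.exp (g w) := by
    intro w hw
    have := const_of_deriv_ball (fun u hu => (h1 u hu).differentiableAt.differentiableWithinAt)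
      (fun u hu => (h1 u hu).deriv) hw hz
    simp only [hg0, neg_zero, Complex.exp_zero, mul_one, Complex.exp_neg] at this
    rw [← this]
    have := h0 w hw
    field_simp
  have h3 : ∀ u ∈ ball (0 : ℂ) τ, z + u ∈ ball z τ := fun u hu => by simpa using hu
  have h4 : τ / (20 * Λ) ≤ τ / 20 := by gcongr; linarith
  have h5 := Complex.borelCaratheodory_zero (f := fun u => g (z + u)) (M := Λ) (R := τ)
    (z := ζ - z) (by linarith) (fun u hu => (DifferentiableAt.comp (g := g) u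
      (hg _ (h3 u hu)).differentiableAt (by fun_prop)).differentiableWithinAt) (fun u hu => by
      have a1 := hb _ (h3 u hu)
      rw [← div_le_iff₀ (norm_pos_iff.2 (h0 z hz)), ← norm_div, h2 _ (h3 u hu),
        Complex.norm_exp] at a1
      exact Real.exp_le_exp.1 a1) hτ (mem_ball_zero_iff.2 (by linarith)) (by simpa using hg0)
  simp only [add_sub_cancel] at h5
  have h6 : ‖g ζ‖ ≤ 1 / 4 := by
    refine h5.trans ?_
    rw [div_le_iff₀ (by linarith)]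
    rw [le_div_iff₀ (by positivity)] at hζ
    nlinarith [norm_nonneg (ζ - z)]
  rw [h2 ζ (by rw [mem_ball, dist_eq_norm]; linarith)]
  linarith [Complex.norm_exp_sub_one_le (h6.trans (by norm_num))]

/-- on the circle, `V` exceeds its central value by `γ` up to the real part of a holomorphic
function vanishing at the centre -/
def Gain (V : ℂ → ℝ) (z : ℂ) (ρ γ : ℝ) : Prop :=
  ∃ H : ℂ → ℂ, (∀ ζ ∈ closedBall z ρ, DifferentiableAt ℂ H ζ) ∧ H z = 0 ∧
    ∀ ζ ∈ sphere z ρ, V z + γ + (H ζ).re ≤ V ζ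

variable {V W : ℂ → ℝ} {z : ℂ} {ρ γ γ' : ℝ}

lemma Gain.add (h : Gain V z ρ γ) (h' : Gain W z ρ γ') :
    Gain (fun ζ => V ζ + W ζ) z ρ (γ + γ') := by
  obtain ⟨H, a1, a2, a3⟩ := h
  obtain ⟨H', b1, b2, b3⟩ := h'
  refine ⟨fun ζ => H ζ + H' ζ, fun ζ hζ => (a1 ζ hζ).add (b1 ζ hζ), by simp [a2, b2],
    fun ζ hζ => ?_⟩
  rw [Complex.add_re]
  linarith [a3 ζ hζ, b3 ζ hζ]

lemma Gain.smul (h : Gain V z ρ γ) {c : ℝ} (hc : 0 ≤ c) : Gain (fun ζ => c * V ζ) z ρ (c * γ) := by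
  obtain ⟨H, a1, a2, a3⟩ := h
  refine ⟨fun ζ => c * H ζ, fun ζ hζ => (a1 ζ hζ).const_mul _, by simp [a2], fun ζ hζ => ?_⟩
  rw [Complex.re_ofReal_mul]
  nlinarith [a3 ζ hζ]

lemma Gain.mono (h : Gain V z ρ γ) (h' : γ' ≤ γ) : Gain V z ρ γ' := by
  obtain ⟨H, a1, a2, a3⟩ := h
  exact ⟨H, a1, a2, fun ζ hζ => by linarith [a3 ζ hζ]⟩

lemma gain_const (c : ℝ) : Gain (fun _ => c) z ρ 0 :=
  ⟨fun _ => 0, fun _ _ => differentiableAt_const _, rfl, fun _ _ => by simp⟩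

lemma gain_sum {ι : Type*} (Z : Finset ι) {V : ι → ℂ → ℝ} {γ : ι → ℝ}
    (h : ∀ i ∈ Z, Gain (V i) z ρ (γ i)) : Gain (fun ζ => ∑ i ∈ Z, V i ζ) z ρ (∑ i ∈ Z, γ i) := by
  classical
  induction Z using Finset.induction_on with
  | empty => simpa using gain_const 0
  | insert p Z hp ih =>
    simp only [Finset.sum_insert hp]
    exact (h p (Finset.mem_insert_self _ _)).add (ih fun i hi => h i (Finset.mem_insert_of_mem hi))

lemma slit_of_near {u : ℂ} (h : ‖u - 1‖ ≤ 1 / 2) : u ∈ Complex.slitPlane := by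
  simpa using Complex.mem_slitPlane_of_norm_lt_one (h.trans_lt (by norm_num))

lemma gain_log {f : ℂ → ℂ} (hd : ∀ ζ ∈ closedBall z ρ, DifferentiableAt ℂ f ζ) (h0 : f z ≠ 0)
    (h1 : ∀ ζ ∈ closedBall z ρ, ‖f ζ / f z - 1‖ ≤ 1 / 2) (s : ℝ) :
    Gain (fun ζ => s * Real.log ‖f ζ‖) z ρ 0 := by
  refine ⟨fun ζ => s * Complex.log (f ζ / f z), fun ζ hζ =>
    (((hd ζ hζ).div_const _).clog (slit_of_near (h1 ζ hζ))).const_mul _, by simp [h0],
    fun ζ hζ => ?_⟩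
  have h2 := Complex.slitPlane_ne_zero (slit_of_near (h1 ζ (sphere_subset_closedBall hζ)))
  rw [Complex.re_ofReal_mul, Complex.log_re, norm_div, Real.log_div
    (norm_ne_zero_iff.2 (div_ne_zero_iff.1 h2).1) (norm_ne_zero_iff.2 h0)]
  linarith

lemma normSq_ge (u v : ℂ) : ‖v‖ ^ 2 + (2 * (starRingEnd ℂ v * (u - v))).re + ‖u - v‖ ^ 2 = ‖u‖ ^ 2 := by
  simp only [Complex.sq_norm, Complex.normSq_apply, Complex.mul_re, Complex.conj_re,
    Complex.conj_im, Complex.sub_re, Complex.sub_im, Complex.re_ofNat, Complex.im_ofNat]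
  ring

lemma gain_normSq {F : ℂ → ℂ} (hρ : 0 < ρ) (hd : ∀ ζ ∈ closedBall z ρ, DifferentiableAt ℂ F ζ) :
    Gain (fun ζ => ‖F ζ‖ ^ 2) z ρ (ρ ^ 2 * ‖deriv F z‖ ^ 2) := by
  have hG : ∀ ζ ∈ closedBall z ρ, DifferentiableAt ℂ (dslope F z) ζ := by
    intro ζ hζ
    by_cases h : ζ = z
    · subst h
      exact ((Complex.differentiableOn_dslope (ball_mem_nhds ζ hρ)).2 fun u hu =>
        (hd u (ball_subset_closedBall hu)).differentiableWithinAt).differentiableAt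
        (ball_mem_nhds ζ hρ)
    · exact (differentiableAt_dslope_of_ne h).2 (hd ζ hζ)
  refine ⟨fun ζ => 2 * (starRingEnd ℂ (F z) * (F ζ - F z)) + (ρ ^ 2 : ℝ) *
    (2 * (starRingEnd ℂ (deriv F z) * (dslope F z ζ - deriv F z))), fun ζ hζ => ?_, by simp,
    fun ζ hζ => ?_⟩
  · have := hd ζ hζ
    have := hG ζ hζ
    fun_prop
  · have h1 : ‖F ζ - F z‖ ^ 2 = ρ ^ 2 * ‖dslope F z ζ‖ ^ 2 := by
      rw [← sub_smul_dslope, norm_smul, mul_pow, ← dist_eq_norm, mem_sphere.1 hζ]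
    have h2 := normSq_ge (F ζ) (F z)
    have h3 := normSq_ge (dslope F z ζ) (deriv F z)
    rw [Complex.add_re, Complex.re_ofReal_mul]
    nlinarith [mul_nonneg (sq_nonneg ρ) (sq_nonneg ‖dslope F z ζ - deriv F z‖)]

lemma gain_logSq {p : ℂ} {s : ℝ} (hρ : 0 < ρ) (hs : 0 < s) (hp : 2 * ρ ≤ ‖z - p‖) :
    Gain (fun ζ => Real.log (‖ζ - p‖ / s) ^ 2) z ρ (ρ ^ 2 / (2 * ‖z - p‖ ^ 2)) := by
  have h0 : 0 < ‖z - p‖ := by linarith
  have h0' : z - p ≠ 0 := norm_pos_iff.1 h0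
  have h1 : ∀ ζ ∈ closedBall z ρ, (ζ - p) / (z - p) ∈ Complex.slitPlane := fun ζ hζ => by
    apply slit_of_near
    rw [div_sub_one h0', norm_div, div_le_iff₀ h0, sub_sub_sub_cancel_right, ← dist_eq_norm]
    linarith [mem_closedBall.1 hζ]
  let F : ℂ → ℂ := fun ζ => Complex.log ((ζ - p) / (z - p)) + Real.log (‖z - p‖ / s)
  have hd : ∀ ζ ∈ closedBall z ρ, HasDerivAt F (1 / (z - p) / ((ζ - p) / (z - p))) ζ :=
    fun ζ hζ => ((((hasDerivAt_id ζ).sub_const p).div_const _).clog (h1 ζ hζ)).add_const _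
  have hre : ∀ ζ ∈ closedBall z ρ, (F ζ).re = Real.log (‖ζ - p‖ / s) := fun ζ hζ => by
    have h2 : ‖ζ - p‖ ≠ 0 :=
      norm_ne_zero_iff.2 (div_ne_zero_iff.1 (Complex.slitPlane_ne_zero (h1 ζ hζ))).1
    simp only [F]
    rw [Complex.add_re, Complex.log_re, Complex.ofReal_re, norm_div, Real.log_div h2 h0.ne',
      Real.log_div h2 hs.ne', Real.log_div h0.ne' hs.ne']
    ring
  have hsq : ∀ u : ℂ, u.re ^ 2 = ‖u‖ ^ 2 / 2 + (u ^ 2 / 2).re := fun u => by
    rw [Complex.sq_norm, Complex.normSq_apply, Complex.div_ofNat_re, sq u, Complex.mul_re]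
    ring
  obtain ⟨H, a1, a2, a3⟩ := gain_normSq hρ fun ζ hζ => (hd ζ hζ).differentiableAt
  have hz := mem_closedBall_self (x := z) hρ.le
  refine ⟨fun ζ => H ζ / 2 + (F ζ ^ 2 / 2 - F z ^ 2 / 2), fun ζ hζ => ?_, by simp [a2],
    fun ζ hζ => ?_⟩
  · have := a1 ζ hζ
    have := (hd ζ hζ).differentiableAt
    fun_prop
  · have b1 := a3 ζ hζ
    rw [(hd z hz).deriv, div_self h0', div_one, norm_div, norm_one] at b1
    simp only
    rw [← hre z hz, ← hre ζ (sphere_subset_closedBall hζ), hsq, hsq, Complex.add_re,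
      Complex.sub_re, Complex.div_ofNat_re (H ζ)]
    have : ρ ^ 2 / (2 * ‖z - p‖ ^ 2) = ρ ^ 2 * (1 / ‖z - p‖) ^ 2 / 2 := by field_simp
    linarith

/-- the discrete maximum principle -/
lemma discrete_max {Ω Ω' : Set ℂ} {E : ℂ → ℝ} {D M : ℝ} (hD : 0 ≤ D) (hM : ∀ z ∈ Ω', E z ≤ M)
    (hb : ∀ z ∈ Ω', z ∉ Ω → E z ≤ D)
    (hs : ∀ z ∈ Ω, ∀ m, (∀ ζ ∈ Ω', E ζ ≤ m) → E z ≤ m / 2) : ∀ z ∈ Ω', E z ≤ D := by
  intro z hz
  have hbdd : BddAbove (E '' Ω') := ⟨M, by rintro _ ⟨w, hw, rfl⟩; exact hM w hw⟩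
  have hle : ∀ w ∈ Ω', E w ≤ sSup (E '' Ω') := fun w hw => le_csSup hbdd (mem_image_of_mem _ hw)
  have h1 : sSup (E '' Ω') ≤ max D (sSup (E '' Ω') / 2) := by
    refine csSup_le ⟨_, mem_image_of_mem _ hz⟩ ?_
    rintro _ ⟨w, hw, rfl⟩
    by_cases h : w ∈ Ω
    · exact (hs w h _ hle).trans (le_max_right _ _)
    · exact (hb w hw h).trans (le_max_left _ _)
  rcases le_max_iff.1 h1 with h | h
  · exact (hle z hz).trans h
  · linarith [hle z hz]

end Pool.Agent.P.MP_7ede32_ag.Ell
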