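import Pool.Agent.P.MP_7ede32_ag.Ell.Jacobi

/-!
Two sections that stay close on a half-plane coincide; hence there are finitely many sections.
-/

open Filter Topology Metric Set

noncomputable section

namespace Pool.Agent.P.MP_7ede32_ag.Ell

lemma select_aux {α : Type*} {x D : α → ℝ} {B J b : ℝ} {Λ : ℝ → ℝ} (hD : ∀ w, 0 ≤ D w)
    (hB : ∀ w, 1 ≤ x w → D w ≤ B) (hbd : ∃ M, ∀ w, 1 ≤ x w → D w * Real.exp (Λ (x w)) ≤ M)
    (hJ : ∀ t, 1 ≤ t → t ≤ J → Λ t ≤ b) {w₀ : α} (h0 : 1 ≤ x w₀)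
    (h1 : 2 * B * Real.exp b < D w₀ * Real.exp (Λ (x w₀))) :
    ∃ v, J < x v ∧ 0 < D v ∧ ∀ w, 1 ≤ x w → D w * Real.exp (Λ (x w) - Λ (x v)) ≤ 2 * D v := by
  obtain ⟨M₀, hM₀⟩ := hbd
  let s := (fun w => D w * Real.exp (Λ (x w))) '' {w | 1 ≤ x w}
  have hs : BddAbove s := ⟨M₀, by rintro _ ⟨w, hw, rfl⟩; exact hM₀ w hw⟩
  have hle : ∀ w, 1 ≤ x w → D w * Real.exp (Λ (x w)) ≤ sSup s := fun w hw =>
    le_csSup hs (mem_image_of_mem _ hw)
  have hB0 : 0 ≤ B := (hD w₀).trans (hB w₀ h0)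
  have h2 : 0 ≤ 2 * B * Real.exp b := by positivity
  obtain ⟨_, ⟨v, hv, rfl⟩, h3⟩ := exists_lt_of_lt_csSup (s := s) (b := sSup s / 2)
    ⟨_, mem_image_of_mem _ h0⟩ (by linarith [hle w₀ h0])
  have hv' : 1 ≤ x v := hv
  have h4 : sSup s / 2 < D v * Real.exp (Λ (x v)) := h3
  refine ⟨v, ?_, ?_, fun w hw => ?_⟩
  · by_contra hcon
    have : D v * Real.exp (Λ (x v)) ≤ B * Real.exp b := by
      gcongr
      · exact hB v hv'
      · exact hJ _ hv' (not_lt.1 hcon)
    linarith [hle w₀ h0]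
  · refine (hD v).lt_of_ne' fun h => ?_
    rw [h, zero_mul] at h4
    linarith [hle w₀ h0]
  · rw [Real.exp_sub, ← mul_div_assoc, div_le_iff₀ (Real.exp_pos _)]
    linarith [hle w hw]

lemma select {α : Type*} {x D : α → ℝ} {B : ℝ} (hD : ∀ w, 0 ≤ D w)
    (hB : ∀ w, 1 ≤ x w → D w ≤ B) (hpos : ∀ s, ∃ w, s ≤ x w ∧ 0 < D w) {J ε : ℝ} (hJ : 1 ≤ J)
    (hε : 0 < ε) : ∃ (l : ℝ) (v : α), J < x v ∧ 0 < D v ∧ ∀ w, 1 ≤ x w →
      D w * Real.exp (l * (x w - x v)) ≤ 2 * Real.exp (ε * |x w - x v|) * D v := by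
  let T := {l : ℝ | ∃ M, ∀ w, 1 ≤ x w → D w * Real.exp (l * x w) ≤ M}
  have hT0 : (0 : ℝ) ∈ T := ⟨B, fun w hw => by simpa using hB w hw⟩
  have hTd : ∀ l ∈ T, ∀ l' ≤ l, l' ∈ T := by
    rintro l ⟨M, hM⟩ l' hl
    refine ⟨M, fun w hw => le_trans ?_ (hM w hw)⟩
    have := hD w
    gcongr
  by_cases hT : BddAbove T
  · set ℓ := sSup T with hℓ
    have hℓ0 : 0 ≤ ℓ := le_csSup hT hT0
    obtain ⟨l, hl, hl'⟩ := exists_lt_of_lt_csSup (s := T) (b := ℓ - ε) ⟨0, hT0⟩ (by linarith)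
    obtain ⟨M, hM⟩ := hTd l hl _ hl'.le
    have h1 : ℓ + ε ∉ T := fun h => by linarith [le_csSup hT h]
    obtain ⟨w₀, h0, h2⟩ : ∃ w₀, 1 ≤ x w₀ ∧
        2 * B * Real.exp ((ℓ + ε) * J) < D w₀ * Real.exp ((ℓ + ε) * x w₀) := by
      by_contra hcon
      push Not at hcon
      exact h1 ⟨_, hcon⟩
    obtain ⟨v, a1, a2, a3⟩ := select_aux (J := J) (b := (ℓ + ε) * J)
      (Λ := fun t => ℓ * t + ε * x w₀ - ε * |t - x w₀|) hD hB
      ⟨M * Real.exp (2 * ε * x w₀), fun w hw => by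
        calc D w * Real.exp (ℓ * x w + ε * x w₀ - ε * |x w - x w₀|)
            ≤ D w * Real.exp ((ℓ - ε) * x w + 2 * ε * x w₀) := by
              have := hD w
              gcongr
              nlinarith [le_abs_self (x w - x w₀)]
          _ = D w * Real.exp ((ℓ - ε) * x w) * Real.exp (2 * ε * x w₀) := by
              rw [Real.exp_add, ← mul_assoc]
          _ ≤ _ := mul_le_mul_of_nonneg_right (hM w hw) (Real.exp_pos _).le⟩
      (fun t _ ht => by
        have b1 : ε * (x w₀ - t) ≤ ε * |t - x w₀| := by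
          gcongr; rw [abs_sub_comm]; exact le_abs_self _
        have b2 : (ℓ + ε) * t ≤ (ℓ + ε) * J := by gcongr
        linarith) h0 (by simpa [add_mul] using h2)
    refine ⟨ℓ, v, a1, a2, fun w hw => ?_⟩
    have b1 : ε * (|x w - x w₀| - |x v - x w₀|) ≤ ε * |x w - x v| := by
      gcongr
      simpa using abs_sub_abs_le_abs_sub (x w - x w₀) (x v - x w₀)
    calc D w * Real.exp (ℓ * (x w - x v))
        ≤ D w * Real.exp ((ℓ * x w + ε * x w₀ - ε * |x w - x w₀| -
            (ℓ * x v + ε * x w₀ - ε * |x v - x w₀|)) + ε * |x w - x v|) := by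
          have := hD w
          gcongr
          linarith
      _ = D w * Real.exp (ℓ * x w + ε * x w₀ - ε * |x w - x w₀| -
            (ℓ * x v + ε * x w₀ - ε * |x v - x w₀|)) * Real.exp (ε * |x w - x v|) := by
          rw [Real.exp_add, ← mul_assoc]
      _ ≤ 2 * D v * Real.exp (ε * |x w - x v|) :=
          mul_le_mul_of_nonneg_right (a3 w hw) (Real.exp_pos _).le
      _ = _ := by ring
  · obtain ⟨w₀, h0, h2⟩ := hpos (J + 1)
    have hB0 : 0 ≤ B := h2.le.trans (hB w₀ (by linarith))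
    set l := 2 * B / D w₀ with hl
    have hl0 : 0 ≤ l := by positivity
    have hlT : l ∈ T := by
      obtain ⟨l', h3, h4⟩ := not_bddAbove_iff.1 hT l
      exact hTd l' h3 l h4.le
    obtain ⟨v, a1, a2, a3⟩ := select_aux (J := J) (b := l * J) (Λ := fun t => l * t) hD hB hlT
      (fun t _ ht => by gcongr) (w₀ := w₀) (by linarith) (by
        calc 2 * B * Real.exp (l * J) = D w₀ * (l * Real.exp (l * J)) := by rw [hl]; field_simp
          _ < D w₀ * (Real.exp l * Real.exp (l * J)) := by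
              gcongr; linarith [Real.add_one_le_exp l]
          _ = D w₀ * Real.exp (l * (J + 1)) := by rw [← Real.exp_add]; ring_nf
          _ ≤ _ := by gcongr)
    refine ⟨l, v, a1, a2, fun w hw => ?_⟩
    have b1 : 1 ≤ Real.exp (ε * |x w - x v|) := Real.one_le_exp (by positivity)
    have b2 := a3 w hw
    rw [← mul_sub] at b2
    nlinarith

variable {X : Type*} [MetricSpace X] [CompactSpace X] {S : Srf X}

/-- two sections over the same translate -/
def Srf.Pair (S : Srf X) (p q : ℂ → X) : Prop := S.Sec p ∧ S.Sec q ∧ S.π (p 0) = S.π (q 0)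

omit [CompactSpace X] in
lemma Srf.Pair.π_eq {p q : ℂ → X} (h : S.Pair p q) (w : ℂ) : S.π (p w) = S.π (q w) := by
  rw [h.1.2 w, h.2.1.2 w, h.2.2]

omit [CompactSpace X] in
lemma Srf.Pair.shift {p q : ℂ → X} (h : S.Pair p q) (a : ℂ) :
    S.Pair (fun w => p (a + w)) (fun w => q (a + w)) :=
  ⟨h.1.shift a, h.2.1.shift a, h.π_eq _⟩

lemma exists_pair_limit (hF : S.Fib) {p q : ℕ → ℂ → X} (h : ∀ n, S.Pair (p n) (q n)) :
    ∃ f g, S.Pair f g ∧ Conv UU p f ∧ Conv UU q g := by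
  obtain ⟨f, hf, hp⟩ := Srf.exists_sec_limit hF fun n => (h n).1
  obtain ⟨g, hg, hq⟩ := Srf.exists_sec_limit hF fun n => (h n).2.1
  refine ⟨f, g, ⟨hf, hg, ?_⟩, hp, hq⟩
  simpa using Srf.π_lim (S := S) (hp.tendsto 0) (hq.tendsto 0) (tendsto_const_nhds (x := (0 : ℂ)))
    (Eventually.of_forall fun n => by simpa using (h n).2.2)

omit [CompactSpace X] in
lemma Cov.D_tendsto (C : Cov S) {p q : ℕ → X} {x : X} (hp : Tendsto p UU (𝓝 x))
    (hq : Tendsto q UU (𝓝 x)) : Tendsto (fun n => C.D (p n) (q n)) UU (𝓝 0) := by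
  obtain ⟨i, hi⟩ := Ultrafilter.eventually_exists_iff.1
    (show ∀ᶠ n in (UU : Filter ℕ), ∃ i, C.idx (p n) = i from Eventually.of_forall fun n => ⟨_, rfl⟩)
  have hx : x ∈ C.K i := (C.cpt i).isClosed.mem_of_tendsto hp (hi.mono fun n hn => hn ▸ C.mem_K _)
  have hc := ((C.e i).continuousAt (C.sub i hx)).tendsto
  have := ((hc.comp hp).sub (hc.comp hq)).norm
  rw [sub_self, norm_zero] at this
  refine this.congr' ?_
  filter_upwards [hi] with n hn
  simp [Cov.D, hn]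

lemma eq_of_close_plane (hF : S.Fib) (C : Cov S) : ∃ ε > 0, ε ≤ C.ε ∧ ∀ p q, S.Pair p q →
    (∀ w, dist (q w) (p w) ≤ ε) → p = q := by
  by_contra hcon
  push Not at hcon
  choose p q hpq hd hne using fun n : ℕ => hcon (min C.ε (1 / ((n : ℝ) + 1)))
    (lt_min C.ε_pos (by positivity)) (min_le_left _ _)
  have hdε : ∀ n w, dist (q n w) (p n w) ≤ C.ε := fun n w => (hd n w).trans (min_le_left _ _)
  have hsel : ∀ n, ∃ v, 0 < C.D (p n v) (q n v) ∧
      ∀ w, C.D (p n w) (q n w) ≤ 2 * C.D (p n v) (q n v) := by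
    intro n
    obtain ⟨w₀, hw₀⟩ := Function.ne_iff.1 (hne n)
    have h0 : 0 < C.D (p n w₀) (q n w₀) :=
      (C.D_nonneg _ _).lt_of_ne' fun h => hw₀ (C.eq_of_D (hdε n w₀) h)
    have hs : BddAbove (range fun w => C.D (p n w) (q n w)) :=
      ⟨_, by rintro _ ⟨w, rfl⟩; exact C.D_le (hdε n w)⟩
    have hle := fun w => le_csSup hs (mem_range_self w)
    obtain ⟨_, ⟨v, rfl⟩, h3⟩ := exists_lt_of_lt_csSup (s := range fun w => C.D (p n w) (q n w))
      (b := sSup (range fun w => C.D (p n w) (q n w)) / 2) (range_nonempty _)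
      (by linarith [hle w₀])
    exact ⟨v, by linarith [hle w₀], fun w => by linarith [hle w]⟩
  choose v hv0 hv using hsel
  obtain ⟨f, g, hfg, hp, hq⟩ := exists_pair_limit hF fun n => (hpq n).shift (v n)
  have hfg' : g = f := by
    funext w
    refine dist_le_zero.1 (le_of_tendsto_of_tendsto' ((hq.tendsto w).dist (hp.tendsto w))
      (tendsto_one_div_add_atTop_nhds_zero_nat.mono_left UU_le) fun n => ?_)
    exact (hd n _).trans (min_le_right _ _)
  subst hfg'
  refine linearise hF C (c := fun n _ => ((C.D (p n (v n)) (q n (v n)))⁻¹ : ℝ)) hfg.1 hp hq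
    (fun R => Eventually.of_forall fun n w _ =>
      ⟨((hpq n).shift _).1.1 w, ((hpq n).shift _).2.1.1 w, (hpq n).π_eq _,
        differentiableAt_const _, ?_⟩)
    (Eventually.of_forall fun n => ?_)
  · rw [Complex.norm_real, Real.norm_of_nonneg (inv_pos.2 (hv0 n)).le, inv_mul_le_iff₀ (hv0 n)]
    linarith [hv n (v n + w), hv0 n]
  · rw [Complex.norm_real, Real.norm_of_nonneg (inv_pos.2 (hv0 n)).le, add_zero,
      inv_mul_cancel₀ (hv0 n).ne']

lemma eq_of_close_half (hF : S.Fib) (C : Cov S) : ∃ ε > 0, ∀ p q, S.Pair p q → ∀ u : ℂ, ‖u‖ = 1 →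
    (∀ w, 0 < (starRingEnd ℂ u * w).re → dist (q w) (p w) ≤ ε) → p = q := by
  obtain ⟨ε, hε, hεC, H⟩ := eq_of_close_plane hF C
  refine ⟨ε, hε, fun p q hpq u hu hd => ?_⟩
  by_contra hne
  let x : ℂ → ℝ := fun w => (starRingEnd ℂ u * w).re
  have hxadd : ∀ a w, x (a + w) = x a + x w := fun a w => by simp only [x, mul_add, Complex.add_re]
  have hxle : ∀ w, |x w| ≤ ‖w‖ := fun w =>
    (Complex.abs_re_le_norm _).trans_eq (by rw [norm_mul, Complex.norm_conj, hu, one_mul])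
  have hxu : ∀ t : ℝ, x (t * u) = t := fun t => by
    simp only [x]
    rw [mul_left_comm, Complex.conj_mul', hu]; simp
  have hdε : ∀ w, 0 < x w → dist (q w) (p w) ≤ C.ε := fun w hw => (hd w hw).trans hεC
  have hpos : ∀ s, ∃ w, s ≤ x w ∧ 0 < C.D (p w) (q w) := by
    intro s
    by_contra hcon
    push Not at hcon
    apply hne
    refine hpq.1.1.eq_of_eventually hpq.2.1.1 (z₀ := ((max s 0 + 1 : ℝ) : ℂ) * u) ?_
    have hc : Continuous x := by fun_prop
    filter_upwards [hc.continuousAt.eventually (lt_mem_nhds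
      (show max s 0 < x (((max s 0 + 1 : ℝ) : ℂ) * u) by rw [hxu]; linarith))] with w hw
    exact C.eq_of_D (hdε w ((le_max_right _ _).trans_lt hw))
      (le_antisymm (hcon w ((le_max_left _ _).trans hw.le)) (C.D_nonneg _ _))
  have hdeep : ∀ v : ℕ → ℂ, (∀ n : ℕ, (n : ℝ) ≤ x (v n)) → ∀ R s : ℝ,
      ∀ᶠ n in (UU : Filter ℕ), ∀ w, ‖w‖ ≤ R → s ≤ x (v n + w) := by
    intro v hv R s
    filter_upwards [ev_UU (tendsto_natCast_atTop_atTop.eventually_ge_atTop (s + R))] with n hn w hw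
    rw [hxadd]
    linarith [hv n, neg_abs_le (x w), hxle w]
  by_cases hA : ∃ m > 0, ∀ s, ∃ w, s ≤ x w ∧ m ≤ C.D (p w) (q w)
  · obtain ⟨m, hm, hA⟩ := hA
    choose v hv hvm using fun n : ℕ => hA n
    obtain ⟨f, g, hfg, hp, hq⟩ := exists_pair_limit hF fun n => hpq.shift (v n)
    have hfg' : f = g := H f g hfg fun w =>
      le_of_tendsto ((hq.tendsto w).dist (hp.tendsto w)) ((hdeep v hv ‖w‖ 1).mono fun n hn =>
        hd _ (lt_of_lt_of_le one_pos (hn w le_rfl)))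
    subst hfg'
    have := ge_of_tendsto (C.D_tendsto (hp.tendsto 0) (hq.tendsto 0))
      (Eventually.of_forall fun n => by simpa using hvm n)
    linarith
  push Not at hA
  choose l v hv hv0 hl using fun n : ℕ => select (x := x) (D := fun w => C.D (p w) (q w))
    (fun w => C.D_nonneg _ _) (fun w hw => C.D_le (hdε w (by linarith))) hpos
    (J := (n : ℝ) + 1) (ε := 1 / ((n : ℝ) + 1)) (by linarith [Nat.cast_nonneg (α := ℝ) n])
    (by positivity)
  have hv' : ∀ n : ℕ, (n : ℝ) ≤ x (v n) := fun n => by linarith [hv n]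
  obtain ⟨f, g, hfg, hp, hq⟩ := exists_pair_limit hF fun n => hpq.shift (v n)
  have hfg' : g = f := by
    funext w
    refine dist_le_zero.1 (le_of_forall_pos_le_add fun η hη => ?_)
    rw [zero_add]
    obtain ⟨m, hm, h1⟩ := C.symm_uc hη
    obtain ⟨s, hs⟩ := hA m hm
    refine le_of_tendsto ((hq.tendsto w).dist (hp.tendsto w)) ?_
    filter_upwards [hdeep v hv' ‖w‖ 1, hdeep v hv' ‖w‖ s] with n a1 a2
    rw [dist_comm]
    exact (h1 _ _ (C.mem_K _) _ (C.leb _ (hdε _ (lt_of_lt_of_le one_pos (a1 w le_rfl))))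
      (hs _ (a2 w le_rfl))).le
  subst hfg'
  have hnorm : ∀ n w, ‖Complex.exp (l n * (starRingEnd ℂ u * w)) *
      ((C.D (p (v n)) (q (v n)))⁻¹ : ℝ)‖ = Real.exp (l n * x w) * (C.D (p (v n)) (q (v n)))⁻¹ := by
    intro n w
    rw [norm_mul, Complex.norm_exp, Complex.norm_real, Real.norm_of_nonneg (inv_pos.2 (hv0 n)).le,
      Complex.re_ofReal_mul]
  refine linearise hF C (c := fun n w => Complex.exp (l n * (starRingEnd ℂ u * w)) *
      ((C.D (p (v n)) (q (v n)))⁻¹ : ℝ)) hfg.1 hp hq (fun R => ?_)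
    (Eventually.of_forall fun n => ?_)
  · filter_upwards [hdeep v hv' R 1,
      ev_UU (tendsto_natCast_atTop_atTop.eventually_ge_atTop (2 * R))] with n a1 a2 w hw
    refine ⟨(hpq.shift _).1.1 w, (hpq.shift _).2.1.1 w, hpq.π_eq _, by fun_prop, ?_⟩
    have b1 := hl n _ (a1 w hw)
    rw [hxadd, add_sub_cancel_left] at b1
    have b2 : Real.exp (1 / ((n : ℝ) + 1) * |x w|) ≤ 2 := by
      have b3 : 1 / ((n : ℝ) + 1) * |x w| ≤ 1 / 2 := by
        rw [div_mul_eq_mul_div, div_le_iff₀ (by positivity)]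
        linarith [hxle w]
      calc _ ≤ Real.exp (1 / 2) := Real.exp_le_exp.2 b3
        _ ≤ 1 / (1 - 1 / 2) := Real.exp_bound_div_one_sub_of_interval (by norm_num) (by norm_num)
        _ = 2 := by norm_num
    rw [hnorm, mul_right_comm, ← div_eq_mul_inv, div_le_iff₀ (hv0 n), mul_comm]
    nlinarith [hv0 n]
  · rw [hnorm, add_zero]
    simp [x, inv_mul_cancel₀ (hv0 n).ne']

theorem finite_sec (hF : S.Fib) : {f | S.Hol f ∧ ∀ z, S.π (f z) = S.Λ.mkQ z}.Finite := by
  obtain ⟨C⟩ := S.nonempty_cov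
  obtain ⟨ε, hε, H⟩ := eq_of_close_half hF C
  by_contra hinf
  let F := Set.Infinite.natEmbedding _ hinf
  let f : ℕ → ℂ → X := fun n => (F n).1
  have hfinj : Function.Injective f := fun a b h => F.injective (Subtype.ext h)
  have hf : ∀ n, S.Sec (f n) := fun n => ⟨(F n).2.1, fun z => by
    rw [(F n).2.2 z, (F n).2.2 0]; simp⟩
  obtain ⟨g, hg, hconv⟩ := Srf.exists_sec_limit hF hf
  have hpair : ∀ n, S.Pair g (f n) := fun n => ⟨hg, hf n, by
    simpa using Srf.π_lim (S := S) (hconv.tendsto 0) (tendsto_const_nhds (x := f n 0))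
      (tendsto_const_nhds (x := (0 : ℂ))) (Eventually.of_forall fun k => by
        rw [(F k).2.2 0, (F n).2.2 0]; simp)⟩
  have hne : ∀ᶠ n in (UU : Filter ℕ), f n ≠ g := by
    apply ev_UU
    rw [← Nat.cofinite_eq_atTop, eventually_cofinite]
    refine Set.Subsingleton.finite fun a ha b hb => hfinj ?_
    simp only [mem_ofPred_eq, not_not] at ha hb
    rw [ha, hb]
  have hz : ∀ n, ∃ z : ℂ, f n ≠ g → ε ≤ dist (f n z) (g z) ∧
      ∀ w, ‖w‖ < ‖z‖ → dist (f n w) (g w) ≤ ε := by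
    intro n
    by_cases h : f n = g
    · exact ⟨0, fun h' => absurd h h'⟩
    have hcl : IsClosed {w | ε ≤ dist (f n w) (g w)} :=
      isClosed_le continuous_const ((hf n).1.continuous.dist hg.1.continuous)
    have hnon : {w | ε ≤ dist (f n w) (g w)}.Nonempty := by
      by_contra hcon
      rw [not_nonempty_iff_eq_empty, eq_empty_iff_forall_notMem] at hcon
      exact h (H _ _ (hpair n) 1 norm_one fun w _ => (not_le.1 (hcon w)).le).symm
    obtain ⟨z, hz, hz'⟩ := hcl.exists_infDist_eq_dist hnon 0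
    refine ⟨z, fun _ => ⟨hz, fun w hw => (not_le.1 (notMem_of_dist_lt_infDist (x := 0)
      (s := {w | ε ≤ dist (f n w) (g w)}) ?_)).le⟩⟩
    rwa [hz', dist_zero_left, dist_zero_left]
  choose z hz using hz
  have hzinf : ∀ R : ℝ, ∀ᶠ n in (UU : Filter ℕ), R < ‖z n‖ := by
    intro R
    filter_upwards [hconv R ε hε, hne] with n a1 a2
    by_contra hcon
    exact absurd (a1 _ (not_lt.1 hcon)) (not_lt.2 (hz n a2).1)
  obtain ⟨u, hu, hulim⟩ := (isCompact_sphere (0 : ℂ) 1).ultrafilter_le_nhds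
    (UU.map fun n => -(z n / ‖z n‖)) (by
      rw [le_principal_iff]
      refine Filter.mem_map.2 ((hzinf 0).mono fun n hn => ?_)
      simp [hn.ne'])
  have hulim' : Tendsto (fun n => -(z n / ‖z n‖)) UU (𝓝 u) := hulim
  obtain ⟨p, q, hpq, hp, hq⟩ := exists_pair_limit hF fun n => (hpair n).shift (z n)
  have h1 : p = q := by
    refine H p q hpq u (by simpa using hu) fun w hw => ?_
    refine le_of_tendsto ((hq.tendsto w).dist (hp.tendsto w)) ?_
    have hc : Continuous fun v : ℂ => (starRingEnd ℂ v * w).re := by fun_prop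
    filter_upwards [hne, hzinf 0, hzinf (‖w‖ ^ 2 / (starRingEnd ℂ u * w).re),
      (hc.continuousAt.tendsto.comp hulim').eventually (lt_mem_nhds (half_lt_self hw))]
      with n a1 a2 a3 a4
    refine (hz n a1).2 _ ?_
    rw [div_lt_iff₀ hw] at a3
    have a5 : (starRingEnd ℂ (z n) * w).re =
        -‖z n‖ * (starRingEnd ℂ (-(z n / ‖z n‖)) * w).re := by
      have : (‖z n‖ : ℂ) ≠ 0 := by exact_mod_cast a2.ne'
      rw [← Complex.re_ofReal_mul]
      congr 1
      simp only [map_neg, map_div₀, Complex.conj_ofReal]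
      push_cast
      field_simp
    have a6 : ‖z n + w‖ ^ 2 = ‖z n‖ ^ 2 + 2 * (starRingEnd ℂ (z n) * w).re + ‖w‖ ^ 2 := by
      simp only [Complex.sq_norm, Complex.normSq_apply, Complex.add_re, Complex.add_im,
        Complex.mul_re, Complex.conj_re, Complex.conj_im]
      ring
    refine lt_of_pow_lt_pow_left₀ 2 (norm_nonneg _) ?_
    rw [a6, a5]
    simp only [Function.comp] at a4
    nlinarith
  subst h1
  have h2 : ε ≤ dist (p 0) (p 0) :=
    ge_of_tendsto ((hq.tendsto 0).dist (hp.tendsto 0)) (hne.mono fun n hn => by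
      simpa using (hz n hn).1)
  rw [dist_self] at h2
  linarith

end Pool.Agent.P.MP_7ede32_ag.Ell
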