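import Pool.Agent.P.MP_7ede32_ag.Ell.Normal

/-!
Linearisation: two sequences of sections that converge to the same section, with a controlled
normalised difference, produce a bounded vertical vector field along the limit, which is impossible.
-/

open Filter Topology Metric Set Asymptotics

noncomputable section

namespace Pool.Agent.P.MP_7ede32_ag.Ell

variable {X : Type*} [MetricSpace X] {S : Srf X}

/-- distance read in the preferred chart of the first point -/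
def Cov.D (C : Cov S) (p q : X) : ℝ := ‖C.e (C.idx p) p - C.e (C.idx p) q‖

lemma Cov.D_nonneg (C : Cov S) (p q : X) : 0 ≤ C.D p q := norm_nonneg _

lemma Cov.mem_K (C : Cov S) (p : X) : p ∈ C.K (C.idx p) := C.leb p (mem_closedBall_self C.ε_pos.le)

lemma Cov.D_le (C : Cov S) {p q : X} (h : dist q p ≤ C.ε) : C.D p q ≤ 2 * C.B := by
  linarith [norm_sub_le (C.e (C.idx p) p) (C.e (C.idx p) q), C.bd _ _ (C.mem_K p),
    C.bd _ _ (C.leb p h), show C.D p q = ‖C.e (C.idx p) p - C.e (C.idx p) q‖ from rfl]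

lemma Cov.eq_of_D (C : Cov S) {p q : X} (h : dist q p ≤ C.ε) (h0 : C.D p q = 0) : p = q :=
  (C.e _).injOn (C.sub _ (C.mem_K p)) (C.sub _ (C.leb p h)) (sub_eq_zero.1 (norm_eq_zero.1 h0))

lemma Cov.lip (C : Cov S) {x : X} {e : OpenPartialHomeomorph X E2} (he : e ∈ S.A)
    (hx : x ∈ e.source) : ∃ L > 0, ∃ V ∈ 𝓝 x, V ⊆ e.source ∧
      ∀ y ∈ V, ∀ y' ∈ V, ‖e y - e y'‖ ≤ L * C.D y y' := by
  obtain ⟨L, hL, H⟩ := exists_bound_fin (fun i L => ∃ V ∈ 𝓝 x, ∀ y ∈ V, ∀ y' ∈ V, C.idx y = i →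
      ‖e y - e y'‖ ≤ L * ‖C.e i y - C.e i y'‖) (fun i => by
    by_cases hi : x ∈ C.K i
    · have h1 := (S.trans _ (C.mem i) e he x (C.sub i hi) hx).contDiffAt (n := 1)
      obtain ⟨K, t, ht, hK⟩ := h1.exists_lipschitzOnWith
      refine ⟨K, _, inter_mem ((C.e i).open_source.mem_nhds (C.sub i hi))
        ((C.e i).continuousAt (C.sub i hi) ht), fun y hy y' hy' _ => ?_⟩
      have := hK.dist_le_mul _ hy.2 _ hy'.2
      simpa [dist_eq_norm, (C.e i).left_inv hy.1, (C.e i).left_inv hy'.1] using this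
    · refine ⟨0, ball x C.ε, ball_mem_nhds _ C.ε_pos, fun y hy _ _ hyi => absurd ?_ hi⟩
      rw [← hyi]
      exact C.leb y (by rw [mem_closedBall, dist_comm]; exact (mem_ball.1 hy).le))
    (fun i B B' h1 ⟨V, hV, h2⟩ => ⟨V, hV, fun y hy y' hy' hi =>
      (h2 y hy y' hy' hi).trans (by gcongr)⟩)
  choose V hV H using H
  refine ⟨L, hL, e.source ∩ ⋂ i, V i, inter_mem (e.open_source.mem_nhds hx) (iInter_mem.2 hV),
    inter_subset_left, fun y hy y' hy' => ?_⟩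
  exact H _ y (mem_iInter.1 hy.2 _) y' (mem_iInter.1 hy'.2 _) rfl

lemma exists_lim_of_bounded {F : Type*} [NormedAddCommGroup F] [ProperSpace F] {u : ℕ → F} {M : ℝ}
    (h : ∀ᶠ n in (UU : Filter ℕ), ‖u n‖ ≤ M) : Tendsto u UU (𝓝 (limUnder UU u)) := by
  obtain ⟨a, _, ha⟩ := (isCompact_closedBall (0 : F) M).ultrafilter_le_nhds (UU.map u) (by
    rw [le_principal_iff]
    exact Filter.mem_map.2 (h.mono fun n hn => by simpa using hn))
  exact tendsto_nhds_limUnder ⟨a, ha⟩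

lemma tendsto_lin {F : Type*} [NormedAddCommGroup F] [NormedSpace ℂ F] [CompleteSpace F]
    {ι : Type*} {U : Filter ι} {p q : ι → X} {c : ι → ℂ} {x : X} (hp : Tendsto p U (𝓝 x))
    (hq : Tendsto q U (𝓝 x)) {e : OpenPartialHomeomorph X E2} (he : e ∈ S.A) (hx : x ∈ e.source)
    {J : E2} (hJ : Tendsto (fun n => c n • (e (p n) - e (q n))) U (𝓝 J)) {g : X → F}
    (hg : S.AnAt g x) :
    Tendsto (fun n => c n • (g (p n) - g (q n))) U (𝓝 (fderiv ℂ (g ∘ e.symm) (e x) J)) := by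
  have h1 := (hg e he hx).hasStrictFDerivAt.isLittleO
  have h2 : Tendsto (fun n => (e (p n), e (q n))) U (𝓝 (e x, e x)) :=
    ((e.continuousAt hx).tendsto.comp hp).prodMk_nhds ((e.continuousAt hx).tendsto.comp hq)
  have h3 := (isBigO_refl c U).smul_isLittleO (h1.comp_tendsto h2)
  have h4 := h3.trans_isBigO (hJ.isBigO_one ℝ)
  rw [isLittleO_one_iff] at h4
  have h5 := ((fderiv ℂ (g ∘ e.symm) (e x)).continuous.tendsto J).comp hJ
  have h6 := h4.add h5
  rw [zero_add] at h6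
  refine h6.congr' ?_
  filter_upwards [hp.eventually (e.open_source.mem_nhds hx),
    hq.eventually (e.open_source.mem_nhds hx)] with n a1 a2
  simp only [Function.comp, e.left_inv a1, e.left_inv a2, map_smul]
  rw [← smul_add, sub_add_cancel]

theorem linearise [CompactSpace X] (hF : S.Fib) (C : Cov S) {p q : ℕ → ℂ → X} {f : ℂ → X}
    {c : ℕ → ℂ → ℂ} (hf : S.Sec f) (hp : Conv UU p f) (hq : Conv UU q f)
    (hb : ∀ R : ℝ, ∀ᶠ n in (UU : Filter ℕ), ∀ w, ‖w‖ ≤ R → S.HolAt (p n) w ∧ S.HolAt (q n) w ∧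
      S.π (p n w) = S.π (q n w) ∧ DifferentiableAt ℂ (c n) w ∧
      ‖c n w‖ * C.D (p n w) (q n w) ≤ 4)
    (h0 : ∀ᶠ n in (UU : Filter ℕ), 1 ≤ ‖c n 0‖ * C.D (p n 0) (q n 0)) : False := by
  let Fn : OpenPartialHomeomorph X E2 → ℕ → ℂ → E2 :=
    fun e n w => c n w • (e (p n w) - e (q n w))
  let J : OpenPartialHomeomorph X E2 → ℂ → E2 := fun e w => limUnder UU (fun n => Fn e n w)
  have hloc : ∀ w₀, ∀ e ∈ S.A, f w₀ ∈ e.source →
      Tendsto (fun n => Fn e n w₀) UU (𝓝 (J e w₀)) ∧ DifferentiableAt ℂ (J e) w₀ := by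
    intro w₀ e he hx
    obtain ⟨L, hL, V, hV, hVe, hlip⟩ := C.lip he hx
    obtain ⟨ρ₁, hρ₁, _, h1, _⟩ := hp.chart (hf.1 w₀).1 hV (e.continuousOn.mono hVe)
    obtain ⟨ρ₂, hρ₂, _, h2, _⟩ := hq.chart (hf.1 w₀).1 hV (e.continuousOn.mono hVe)
    have hρ : 0 < min ρ₁ ρ₂ := lt_min hρ₁ hρ₂
    have h3 : ∀ᶠ n in (UU : Filter ℕ), DifferentiableOn ℂ (Fn e n) (ball w₀ (min ρ₁ ρ₂)) ∧
        ∀ w ∈ ball w₀ (min ρ₁ ρ₂), ‖Fn e n w‖ ≤ L * 4 := by
      filter_upwards [h1, h2, hb (‖w₀‖ + ρ₁)] with n a1 a2 a3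
      have b : ∀ w ∈ ball w₀ (min ρ₁ ρ₂), p n w ∈ V ∧ q n w ∈ V ∧ ‖w‖ ≤ ‖w₀‖ + ρ₁ := by
        intro w hw
        have hw1 := ball_subset_ball (min_le_left _ _) hw
        refine ⟨a1 w hw1, a2 w (ball_subset_ball (min_le_right _ _) hw), ?_⟩
        rw [mem_ball, dist_eq_norm] at hw1
        linarith [norm_sub_norm_le w w₀]
      refine ⟨fun w hw => ?_, fun w hw => ?_⟩
      · obtain ⟨b1, b2, b3⟩ := b w hw
        exact ((a3 w b3).2.2.2.1.smul (((a3 w b3).1.2 e he (hVe b1)).sub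
          ((a3 w b3).2.1.2 e he (hVe b2)))).differentiableWithinAt
      · obtain ⟨b1, b2, b3⟩ := b w hw
        calc ‖Fn e n w‖ = ‖c n w‖ * ‖e (p n w) - e (q n w)‖ := norm_smul _ _
          _ ≤ ‖c n w‖ * (L * C.D (p n w) (q n w)) := by gcongr; exact hlip _ b1 _ b2
          _ = L * (‖c n w‖ * C.D (p n w) (q n w)) := by ring
          _ ≤ L * 4 := by gcongr; exact (a3 w b3).2.2.2.2
    have h4 : ∀ w ∈ ball w₀ (min ρ₁ ρ₂), Tendsto (fun n => Fn e n w) UU (𝓝 (J e w)) :=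
      fun w hw => exists_lim_of_bounded (h3.mono fun n hn => hn.2 w hw)
    exact ⟨h4 w₀ (mem_ball_self hρ),
      (montel_filter hρ h3 h4).1.differentiableAt (ball_mem_nhds _ (half_pos hρ))⟩
  have htr : ∀ w, ∀ e ∈ S.A, ∀ e' ∈ S.A, f w ∈ e.source → f w ∈ e'.source →
      J e' w = fderiv ℂ (e' ∘ e.symm) (e (f w)) (J e w) := fun w e he e' he' hx hx' =>
    tendsto_nhds_unique (hloc w e' he' hx').1 (tendsto_lin (hp.tendsto w) (hq.tendsto w) he hx
      (hloc w e he hx).1 (Srf.anAt_chart he' hx'))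
  have hvert : ∀ w, ∀ e ∈ S.A, f w ∈ e.source → S.dπ e (f w) (J e w) = 0 := by
    intro w e he hx
    have hg := Srf.isLift_lf (S := S) (f w)
    have h1 := tendsto_lin (hp.tendsto w) (hq.tendsto w) he hx (hloc w e he hx).1 hg.2
    have h2 := (Srf.lam_lim (S := S) ((hg.2.continuousAt.tendsto.comp (hp.tendsto w)).sub
      (hg.2.continuousAt.tendsto.comp (hq.tendsto w))) (by
        filter_upwards [hb ‖w‖, (hp.tendsto w).eventually hg.1, (hq.tendsto w).eventually hg.1]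
          with n a1 a2 a3
        rw [← Srf.mk_eq_iff]
        exact a2.symm.trans ((a1 w le_rfl).2.2.1.trans a3))).2
    refine tendsto_nhds_unique h1 (tendsto_const_nhds.congr' ?_)
    filter_upwards [h2] with n hn
    simp only [Function.comp, sub_self] at hn
    rw [hn, smul_zero]
  have hone : ∀ w, ∀ e ∈ S.A, f w ∈ e.source → S.dπ e (f w) (deriv (e ∘ f) w) = 1 := by
    intro w e he hx
    obtain ⟨a, ha⟩ := S.Λ.mkQ_surjective (S.π (f 0))
    refine Srf.dπ_deriv (hf.1 w) ((hasDerivAt_id w).const_add a)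
      (Eventually.of_forall fun z => ?_) he hx
    rw [hf.2 z, map_add, ha]; rfl
  let G : ℂ → (Fin S.N → ℂ) := fun w =>
    det2 (J (S.ch (f w)) w) (deriv (S.ch (f w) ∘ f) w) ^ S.m • S.av (S.ch (f w)) (f w)
  have hG : ∀ w, ∀ e ∈ S.A, f w ∈ e.source →
      G w = det2 (J e w) (deriv (e ∘ f) w) ^ S.m • S.av e (f w) := by
    intro w e he hx
    simp only [G]
    rw [htr w e he _ (S.ch_mem _) hx (S.mem_ch _),
      Srf.deriv_trans (hf.1 w) he (S.ch_mem _) hx (S.mem_ch _), det2_map,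
      Srf.av_compat he (S.ch_mem (f w)) hx (S.mem_ch _), smul_smul, mul_pow, mul_comm]
  have hGd : Differentiable ℂ G := by
    intro w
    obtain ⟨e, he, hx⟩ := S.cover (f w)
    have h1 := (hloc w e he hx).2
    have h2 : DifferentiableAt ℂ (deriv (e ∘ f)) w := (hf.1.analyticAt he hx).deriv.differentiableAt
    have h3 : DifferentiableAt ℂ (fun z => S.av e (f z)) w :=
      (Srf.anAt_av he hx).differentiableAt (hf.1 w)
    have h4 : DifferentiableAt ℂ
        (fun z => det2 (J e z) (deriv (e ∘ f) z) ^ S.m • S.av e (f z)) w :=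
      DifferentiableAt.smul (DifferentiableAt.pow ((h1.fst.mul h2.snd).sub (h1.snd.mul h2.fst)) _) h3
    refine h4.congr_of_eventuallyEq ?_
    filter_upwards [Srf.eventually_mem_source (hf.1 w).1 hx] with z hz using hG z e he hz
  have hidx : ∀ w, ∃ i, ball (f w) (C.ε / 2) ⊆ C.K i ∧
      Tendsto (fun n => ‖c n w‖ * C.D (p n w) (q n w)) UU (𝓝 ‖J (C.e i) w‖) := by
    intro w
    obtain ⟨i, hi⟩ := Ultrafilter.eventually_exists_iff.1
      (show ∀ᶠ n in (UU : Filter ℕ), ∃ i, C.idx (p n w) = i from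
        Eventually.of_forall fun n => ⟨_, rfl⟩)
    have h1 : ball (f w) (C.ε / 2) ⊆ C.K i := by
      obtain ⟨n, a1, a2⟩ := (hi.and
        (Metric.tendsto_nhds.1 (hp.tendsto w) (C.ε / 2) (half_pos C.ε_pos))).exists
      intro y hy
      rw [← a1]
      apply C.leb
      rw [mem_ball] at hy
      rw [mem_closedBall]
      linarith [dist_triangle_right y (p n w) (f w)]
    refine ⟨i, h1, ?_⟩
    refine (hloc w _ (C.mem i) (C.sub i (h1 (mem_ball_self (half_pos C.ε_pos))))).1.norm.congr' ?_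
    filter_upwards [hi] with n hn
    simp only [Fn, norm_smul, Cov.D, hn]
  obtain ⟨r, hr, hequi⟩ := Srf.equicont hF (half_pos C.ε_pos)
  have hB := C.B_pos
  have hGb : ∀ w, ‖G w‖ ≤ (2 * 4 * (2 * C.B / r)) ^ S.m * C.B := by
    intro w
    obtain ⟨i, h1, h2⟩ := hidx w
    have hK := h1 (mem_ball_self (half_pos C.ε_pos))
    have h3 : ‖J (C.e i) w‖ ≤ 4 :=
      le_of_tendsto h2 ((hb ‖w‖).mono fun n hn => (hn w le_rfl).2.2.2.2)
    have h4 := C.deriv_le (i := i) hr (fun ξ _ => hf.1 ξ) (fun ξ hξ => h1 (hequi f hf w ξ hξ))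
    have h5 : ‖S.av (C.e i) (f w)‖ ≤ C.B :=
      (pi_norm_le_iff_of_nonneg hB.le).2 fun l => C.bda i l _ hK
    rw [hG w _ (C.mem i) (C.sub i hK), norm_smul, norm_pow]
    gcongr
    exact (norm_det2_le _ _).trans (by gcongr)
  have hconst : ∀ w, G w = G 0 := fun w => hGd.apply_eq_apply_of_bounded
    (isBounded_iff_forall_norm_le.2 ⟨_, by rintro _ ⟨w, rfl⟩; exact hGb w⟩) w 0
  obtain ⟨i, h1, h2⟩ := hidx 0
  have hx := C.sub i (h1 (mem_ball_self (half_pos C.ε_pos)))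
  have h3 : 1 ≤ ‖J (C.e i) 0‖ := ge_of_tendsto h2 h0
  have h4 : det2 (J (C.e i) 0) (deriv (C.e i ∘ f) 0) ≠ 0 := by
    intro h5
    have h6 : S.dπ (C.e i) (f 0) ≠ 0 := fun h => by simpa [h] using hone 0 _ (C.mem i) hx
    rw [tau_spec h6 (hvert 0 _ (C.mem i) hx), hone 0 _ (C.mem i) hx, mul_one] at h5
    rw [eq_zero_of_tau h6 (hvert 0 _ (C.mem i) hx) h5, norm_zero] at h3
    linarith
  obtain ⟨ρ, hρ, hΛ⟩ := S.disc
  have h5 : f 0 = f (ρ / 2 : ℝ) := by
    have h6 := hconst (ρ / 2 : ℝ)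
    rw [hG 0 _ (C.mem i) hx] at h6
    simp only [G] at h6
    refine Srf.eq_of_av (C.mem i) (S.ch_mem _) hx (S.mem_ch _)
      (c := (det2 (J (C.e i) 0) (deriv (C.e i ∘ f) 0) ^ S.m)⁻¹ *
        det2 (J (S.ch (f (ρ / 2 : ℝ))) (ρ / 2 : ℝ))
          (deriv (S.ch (f (ρ / 2 : ℝ)) ∘ f) (ρ / 2 : ℝ)) ^ S.m) ?_
    rw [mul_smul, h6, smul_smul, inv_mul_cancel₀ (pow_ne_zero _ h4), one_smul]
  have h7 := hf.2 (ρ / 2 : ℝ)
  rw [← h5, left_eq_add, Submodule.mkQ_apply, Submodule.Quotient.mk_eq_zero] at h7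
  have h8 := hΛ _ h7 (by rw [Complex.norm_real, Real.norm_of_nonneg (by positivity)]; linarith)
  have h9 : ρ / 2 = 0 := by exact_mod_cast h8
  linarith

end Pool.Agent.P.MP_7ede32_ag.Ell
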