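import Pool.Agent.P.MP_7ede32_ag.Ell.Rescale

/-!
Local lifts of the fibration, its differential, critical points and nodes.
-/

open Filter Topology Metric Set

noncomputable section

namespace Pool.Agent.P.MP_7ede32_ag.Ell

variable {X : Type*} [MetricSpace X]

namespace Srf

variable (S : Srf X)

/-- analytic at a point of the surface -/
def AnAt {F : Type*} [NormedAddCommGroup F] [NormedSpace ℂ F] (g : X → F) (x : X) : Prop :=
  ∀ e ∈ S.A, x ∈ e.source → AnalyticAt ℂ (g ∘ e.symm) (e x)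

/-- local lift of the fibration -/
def IsLift (g : X → ℂ) (x : X) : Prop := (∀ᶠ y in 𝓝 x, S.π y = S.Λ.mkQ (g y)) ∧ S.AnAt g x

variable {S}
variable {F : Type*} [NormedAddCommGroup F] [NormedSpace ℂ F]

lemma AnAt.continuousAt {g : X → F} {x : X} (h : S.AnAt g x) : ContinuousAt g x := by
  obtain ⟨e, he, hx⟩ := S.cover x
  have h1 : g =ᶠ[𝓝 x] (g ∘ e.symm) ∘ e := by
    filter_upwards [e.open_source.mem_nhds hx] with y hy
    simp [e.left_inv hy]
  exact ((h e he hx).continuousAt.comp (e.continuousAt hx)).congr h1.symm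

lemma symm_eventually {e : OpenPartialHomeomorph X E2} {x : X} (hx : x ∈ e.source) {p : X → Prop}
    (h : ∀ᶠ y in 𝓝 x, p y) : ∀ᶠ u in 𝓝 (e x), p (e.symm u) := by
  have h1 : ContinuousAt e.symm (e x) := e.continuousAt_symm (e.map_source hx)
  apply h1.eventually
  rwa [e.left_inv hx]

lemma chart_change_eventuallyEq {G : Type*} (g : X → G) {e e' : OpenPartialHomeomorph X E2} {x : X}
    (hx : x ∈ e.source) (hx' : x ∈ e'.source) :
    g ∘ e.symm =ᶠ[𝓝 (e x)] (g ∘ e'.symm) ∘ (e' ∘ e.symm) := by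
  filter_upwards [symm_eventually hx (e'.open_source.mem_nhds hx')] with u hu
  simp [e'.left_inv hu]

lemma anAt_of_chart {g : X → F} {x : X} {e : OpenPartialHomeomorph X E2} (he : e ∈ S.A)
    (hx : x ∈ e.source) (h : AnalyticAt ℂ (g ∘ e.symm) (e x)) : S.AnAt g x := by
  intro e' he' hx'
  refine AnalyticAt.congr ?_ (chart_change_eventuallyEq g hx' hx).symm
  exact AnalyticAt.comp_of_eq h (S.trans e' he' e he x hx' hx) (by simp [e'.left_inv hx'])

lemma AnAt.eventually [CompleteSpace F] {g : X → F} {x : X} (h : S.AnAt g x) :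
    ∀ᶠ y in 𝓝 x, S.AnAt g y := by
  obtain ⟨e, he, hx⟩ := S.cover x
  filter_upwards [e.open_source.mem_nhds hx,
    (e.continuousAt hx).eventually (h e he hx).eventually_analyticAt] with y hy hy'
  exact anAt_of_chart he hy hy'

lemma anAt_chart {x : X} {e : OpenPartialHomeomorph X E2} (he : e ∈ S.A) (hx : x ∈ e.source) :
    S.AnAt e x := fun e' he' hx' => S.trans e' he' e he x hx' hx

lemma AnAt.hasDerivAt {g : X → F} {f : ℂ → X} {z : ℂ} (hg : S.AnAt g (f z)) (hf : S.HolAt f z)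
    {e : OpenPartialHomeomorph X E2} (he : e ∈ S.A) (hx : f z ∈ e.source) :
    HasDerivAt (g ∘ f) (fderiv ℂ (g ∘ e.symm) (e (f z)) (deriv (e ∘ f) z)) z := by
  refine HasDerivAt.congr_of_eventuallyEq ?_ (comp_chart_eventuallyEq hf.1 hx g)
  exact HasFDerivAt.comp_hasDerivAt z (hg e he hx).differentiableAt.hasFDerivAt
    (hf.2 e he hx).hasDerivAt

lemma AnAt.differentiableAt {g : X → F} {f : ℂ → X} {z : ℂ} (hg : S.AnAt g (f z))
    (hf : S.HolAt f z) : DifferentiableAt ℂ (g ∘ f) z := by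
  obtain ⟨e, he, hx⟩ := S.cover (f z)
  exact (hg.hasDerivAt hf he hx).differentiableAt

lemma deriv_trans {f : ℂ → X} {z : ℂ} (hf : S.HolAt f z) {e e' : OpenPartialHomeomorph X E2}
    (he : e ∈ S.A) (he' : e' ∈ S.A) (hx : f z ∈ e.source) (hx' : f z ∈ e'.source) :
    deriv (e' ∘ f) z = fderiv ℂ (e' ∘ e.symm) (e (f z)) (deriv (e ∘ f) z) :=
  ((anAt_chart he' hx').hasDerivAt hf he hx).deriv

lemma lam_lim {ι : Type*} {U : Filter ι} [U.NeBot] {u : ι → ℂ} {c : ℂ} (hu : Tendsto u U (𝓝 c))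
    (hm : ∀ᶠ n in U, u n ∈ S.Λ) : c ∈ S.Λ ∧ ∀ᶠ n in U, u n = c := by
  obtain ⟨r, hr, hd⟩ := S.disc
  have h1 := Metric.tendsto_nhds.1 hu (r / 2) (by positivity)
  obtain ⟨n₀, h2, h3⟩ := (h1.and hm).exists
  have h4 : ∀ᶠ n in U, u n = u n₀ := by
    filter_upwards [h1, hm] with n h5 h6
    refine sub_eq_zero.1 (hd _ (S.Λ.sub_mem h6 h3) ?_)
    rw [← dist_eq_norm]
    linarith [dist_triangle_right (u n) (u n₀) c]
  have h5 : c = u n₀ := tendsto_nhds_unique hu (tendsto_const_nhds.congr' (h4.mono fun _ h => h.symm))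
  exact ⟨h5 ▸ h3, h5 ▸ h4⟩

lemma mk_eq_iff {a b : ℂ} : S.Λ.mkQ a = S.Λ.mkQ b ↔ a - b ∈ S.Λ := Submodule.Quotient.eq _

lemma IsLift.eventually {g : X → ℂ} {x : X} (h : S.IsLift g x) : ∀ᶠ y in 𝓝 x, S.IsLift g y :=
  (h.1.eventually_nhds.and h.2.eventually).mono fun _ hy => hy

lemma IsLift.sub_const {g g' : X → ℂ} {x : X} (h : S.IsLift g x) (h' : S.IsLift g' x) :
    ∀ᶠ y in 𝓝 x, g y = g' y + (g x - g' x) := by
  have := (lam_lim (S := S) (U := 𝓝 x) (u := fun y => g y - g' y) (c := g x - g' x)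
    (h.2.continuousAt.sub h'.2.continuousAt) (by
      filter_upwards [h.1, h'.1] with y h1 h2
      exact mk_eq_iff.1 (h1.symm.trans h2))).2
  filter_upwards [this] with y hy
  linear_combination hy

variable (S) in
/-- a chosen lift -/
def lf (x : X) : X → ℂ := (S.lift x).choose

lemma isLift_lf (x : X) : S.IsLift (S.lf x) x := (S.lift x).choose_spec

variable (S) in
/-- differential of the fibration in a chart -/
def dπ (e : OpenPartialHomeomorph X E2) (x : X) : E2 →L[ℂ] ℂ := fderiv ℂ (S.lf x ∘ e.symm) (e x)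

lemma IsLift.fderiv_eq {g : X → ℂ} {x : X} (h : S.IsLift g x) {e : OpenPartialHomeomorph X E2}
    (hx : x ∈ e.source) : fderiv ℂ (g ∘ e.symm) (e x) = S.dπ e x := by
  have h1 : g ∘ e.symm =ᶠ[𝓝 (e x)] fun u => (S.lf x ∘ e.symm) u + (g x - S.lf x x) :=
    symm_eventually hx (h.sub_const (isLift_lf x))
  rw [h1.fderiv_eq, fderiv_add_const, dπ]

lemma dπ_trans {x : X} {e e' : OpenPartialHomeomorph X E2} (he : e ∈ S.A) (he' : e' ∈ S.A)
    (hx : x ∈ e.source) (hx' : x ∈ e'.source) :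
    S.dπ e x = (S.dπ e' x).comp (fderiv ℂ (e' ∘ e.symm) (e x)) := by
  rw [dπ, (chart_change_eventuallyEq (S.lf x) hx hx').fderiv_eq, fderiv_comp]
  · simp [dπ, e.left_inv hx]
  · have := ((isLift_lf x).2 e' he' hx').differentiableAt
    simpa [e.left_inv hx] using this
  · exact (S.trans e he e' he' x hx hx').differentiableAt

lemma IsLift.dπ_eventually {g : X → ℂ} {x : X} (h : S.IsLift g x)
    {e : OpenPartialHomeomorph X E2} (hx : x ∈ e.source) :
    ∀ᶠ y in 𝓝 x, S.dπ e y = fderiv ℂ (g ∘ e.symm) (e y) := by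
  filter_upwards [h.eventually, e.open_source.mem_nhds hx] with y h1 h2
  exact (h1.fderiv_eq h2).symm

lemma anAt_dπ {x : X} {e : OpenPartialHomeomorph X E2} (he : e ∈ S.A) (hx : x ∈ e.source) :
    S.AnAt (S.dπ e) x := by
  refine anAt_of_chart he hx ?_
  have h1 := ((isLift_lf x).2 e he hx).fderiv
  refine h1.congr ?_
  filter_upwards [symm_eventually hx ((isLift_lf (S := S) x).dπ_eventually hx),
    e.open_target.mem_nhds (e.map_source hx)] with u hu hu'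
  simp [hu, e.right_inv hu']

variable (S) in
/-- critical point of the fibration -/
def Crit (x : X) : Prop := ∀ e ∈ S.A, x ∈ e.source → S.dπ e x = 0

lemma crit_of_chart {x : X} {e : OpenPartialHomeomorph X E2} (he : e ∈ S.A) (hx : x ∈ e.source)
    (h : S.dπ e x = 0) : S.Crit x := fun e' he' hx' => by
  rw [dπ_trans he' he hx' hx, h]; simp

lemma isOpen_not_crit : IsOpen {x | ¬ S.Crit x} := by
  rw [isOpen_iff_mem_nhds]
  intro x hx
  obtain ⟨e, he, hxe⟩ := S.cover x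
  have h1 : S.dπ e x ≠ 0 := fun h => hx (crit_of_chart he hxe h)
  filter_upwards [(anAt_dπ he hxe).continuousAt.eventually_ne h1, e.open_source.mem_nhds hxe]
    with y h2 h3 h4
  exact h2 (h4 e he h3)

lemma IsLift.comp_eventually {g : X → ℂ} {f : ℂ → X} {z : ℂ} (hg : S.IsLift g (f z))
    (hf : ContinuousAt f z) {φ : ℂ → ℂ} (hφ : ContinuousAt φ z)
    (h : ∀ᶠ w in 𝓝 z, S.π (f w) = S.Λ.mkQ (φ w)) :
    ∀ᶠ w in 𝓝 z, g (f w) = φ w + (g (f z) - φ z) := by
  have := (lam_lim (S := S) (U := 𝓝 z) (u := fun w => g (f w) - φ w) (c := g (f z) - φ z)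
    ((hg.2.continuousAt.comp hf).sub hφ) (by
      filter_upwards [h, hf.eventually hg.1] with y h1 h2
      exact mk_eq_iff.1 (h2.symm.trans h1))).2
  filter_upwards [this] with y hy
  linear_combination hy

lemma dπ_deriv {f : ℂ → X} {z : ℂ} (hf : S.HolAt f z) {φ : ℂ → ℂ} {b : ℂ} (hφ : HasDerivAt φ b z)
    (h : ∀ᶠ w in 𝓝 z, S.π (f w) = S.Λ.mkQ (φ w))
    {e : OpenPartialHomeomorph X E2} (he : e ∈ S.A) (hx : f z ∈ e.source) :
    S.dπ e (f z) (deriv (e ∘ f) z) = b := by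
  have hg := isLift_lf (S := S) (f z)
  have h1 := hg.2.hasDerivAt hf he hx
  have h2 : HasDerivAt (S.lf (f z) ∘ f) b z :=
    (hφ.add_const _).congr_of_eventuallyEq (hg.comp_eventually hf.1 hφ.continuousAt h)
  exact h1.unique h2

lemma π_lim {ι : Type*} {U : Filter ι} [U.NeBot] {p q : ι → X} {c : ι → ℂ} {x y : X} {d : ℂ}
    (hp : Tendsto p U (𝓝 x)) (hq : Tendsto q U (𝓝 y)) (hc : Tendsto c U (𝓝 d))
    (h : ∀ᶠ n in U, S.π (p n) = S.π (q n) + S.Λ.mkQ (c n)) : S.π x = S.π y + S.Λ.mkQ d := by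
  have hx := isLift_lf (S := S) x
  have hy := isLift_lf (S := S) y
  have := (lam_lim (S := S) (U := U) (u := fun n => S.lf x (p n) - (S.lf y (q n) + c n))
    (c := S.lf x x - (S.lf y y + d))
    ((hx.2.continuousAt.tendsto.comp hp).sub ((hy.2.continuousAt.tendsto.comp hq).add hc)) (by
      filter_upwards [h, hp.eventually hx.1, hq.eventually hy.1] with n h1 h2 h3
      rw [← mk_eq_iff, map_add, ← h2, ← h3, h1])).1
  rw [hx.1.self_of_nhds, hy.1.self_of_nhds, ← map_add, mk_eq_iff]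
  exact this

variable (S) in
/-- node with chart `e` and constant `c` -/
def NodeAt (x : X) (e : OpenPartialHomeomorph X E2) (c : ℂ) : Prop :=
  e ∈ S.A ∧ x ∈ e.source ∧ e x = 0 ∧ ∀ᶠ y in 𝓝 x, S.π y = S.Λ.mkQ (c + (e y).1 * (e y).2)

variable (S) in
/-- ordinary double point of the fibration -/
def Node (x : X) : Prop := ∃ e c, S.NodeAt x e c

lemma NodeAt.isLift {x : X} {e : OpenPartialHomeomorph X E2} {c : ℂ} (h : S.NodeAt x e c) :
    S.IsLift (fun y => c + (e y).1 * (e y).2) x := by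
  refine ⟨h.2.2.2, anAt_of_chart h.1 h.2.1 ?_⟩
  have h1 : AnalyticAt ℂ (fun u : E2 => c + u.1 * u.2) (e x) := by fun_prop
  refine h1.congr ?_
  filter_upwards [e.open_target.mem_nhds (e.map_source h.2.1)] with u hu
  simp [e.right_inv hu]

lemma NodeAt.dπ_eq {x : X} {e : OpenPartialHomeomorph X E2} {c : ℂ} (h : S.NodeAt x e c) :
    ∀ᶠ y in 𝓝 x, ∀ u : E2, S.dπ e y u = (e y).1 * u.2 + (e y).2 * u.1 := by
  filter_upwards [h.isLift.dπ_eventually h.2.1, e.open_source.mem_nhds h.2.1] with y h1 h2 u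
  have h3 : (fun y => c + (e y).1 * (e y).2) ∘ e.symm =ᶠ[𝓝 (e y)] fun u : E2 => c + u.1 * u.2 := by
    filter_upwards [e.open_target.mem_nhds (e.map_source h2)] with u hu
    simp [e.right_inv hu]
  have h4 : HasFDerivAt (fun u : E2 => c + u.1 * u.2)
      ((e y).1 • ContinuousLinearMap.snd ℂ ℂ ℂ + (e y).2 • ContinuousLinearMap.fst ℂ ℂ ℂ) (e y) :=
    (hasFDerivAt_fst.mul hasFDerivAt_snd).const_add c
  rw [h1, h3.fderiv_eq, h4.fderiv]
  simp

lemma NodeAt.not_crit {x : X} {e : OpenPartialHomeomorph X E2} {c : ℂ} (h : S.NodeAt x e c) :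
    ∀ᶠ y in 𝓝 x, S.Crit y → y = x := by
  filter_upwards [h.dπ_eq, e.open_source.mem_nhds h.2.1] with y h1 h2 h3
  have h4 := h3 e h.1 h2
  have h5 := h1 (1, 0)
  have h6 := h1 (0, 1)
  simp [h4] at h5 h6
  refine e.injOn h2 h.2.1 ?_
  rw [h.2.2.1]
  exact Prod.ext h6.symm h5.symm

end Srf

/-- the scalar attached to a vertical vector -/
def tau (ℓ : E2 →L[ℂ] ℂ) (u : E2) : ℂ :=
  det2 u (starRingEnd ℂ (ℓ (1, 0)), starRingEnd ℂ (ℓ (0, 1))) /
    ℓ (starRingEnd ℂ (ℓ (1, 0)), starRingEnd ℂ (ℓ (0, 1)))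

lemma plucker (ℓ : E2 →L[ℂ] ℂ) (u v w : E2) :
    det2 u w * ℓ v = det2 u v * ℓ w - det2 w v * ℓ u := by
  rw [lin_apply ℓ u, lin_apply ℓ v, lin_apply ℓ w]
  simp only [det2, smul_eq_mul]; ring

lemma tau_spec {ℓ : E2 →L[ℂ] ℂ} (h : ℓ ≠ 0) {u : E2} (hu : ℓ u = 0) (w : E2) :
    det2 u w = tau ℓ u * ℓ w := by
  have h1 : ℓ (starRingEnd ℂ (ℓ (1, 0)), starRingEnd ℂ (ℓ (0, 1))) ≠ 0 := by
    rw [lin_apply ℓ]
    simp only [smul_eq_mul, Complex.conj_mul']
    intro h2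
    have h3 : ‖ℓ (1, 0)‖ ^ 2 + ‖ℓ (0, 1)‖ ^ 2 = 0 := by exact_mod_cast h2
    have h4 : ℓ (1, 0) = 0 := by
      rw [← norm_eq_zero]; nlinarith [sq_nonneg ‖ℓ (1, 0)‖, sq_nonneg ‖ℓ (0, 1)‖]
    have h5 : ℓ (0, 1) = 0 := by
      rw [← norm_eq_zero]; nlinarith [sq_nonneg ‖ℓ (1, 0)‖, sq_nonneg ‖ℓ (0, 1)‖]
    apply h
    refine ContinuousLinearMap.ext fun v => ?_
    rw [lin_apply ℓ, h4, h5]; simp
  rw [tau, div_mul_eq_mul_div, eq_div_iff h1, plucker, hu]; ring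

lemma exists_apply_ne_zero {ℓ : E2 →L[ℂ] ℂ} (h : ℓ ≠ 0) : ∃ w, ℓ w ≠ 0 := by
  by_contra hcon
  push Not at hcon
  exact h (ContinuousLinearMap.ext hcon)

lemma tau_comp {ℓ : E2 →L[ℂ] ℂ} {A : E2 →L[ℂ] E2} (h : ℓ.comp A ≠ 0) {u : E2}
    (hu : ℓ (A u) = 0) : tau ℓ (A u) = jac A * tau (ℓ.comp A) u := by
  have h0 : ℓ ≠ 0 := by rintro rfl; simp at h
  obtain ⟨w, hw⟩ := exists_apply_ne_zero h
  have h1 := tau_spec h0 hu (A w)
  have h2 := tau_spec h (u := u) hu w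
  rw [det2_map, h2] at h1
  have h3 : (ℓ.comp A) w = ℓ (A w) := rfl
  rw [h3] at h1 hw
  apply mul_right_cancel₀ hw
  rw [← h1]; ring

lemma eq_zero_of_tau {ℓ : E2 →L[ℂ] ℂ} (h : ℓ ≠ 0) {u : E2} (hu : ℓ u = 0) (h0 : tau ℓ u = 0) :
    u = 0 := by
  have h1 := tau_spec h hu (1, 0)
  have h2 := tau_spec h hu (0, 1)
  simp [h0, det2] at h1 h2
  exact Prod.ext h2 h1

end Pool.Agent.P.MP_7ede32_ag.Ell
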