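import Pool.Agent.P.MP_7ede32_ag.Ell.Basic

/-!
Equicontinuity and limits along ultrafilters.
-/

open Filter Topology Metric Set

noncomputable section

namespace Pool.Agent.P.MP_7ede32_ag.Ell

/-- uniform convergence on bounded sets -/
def Conv {ι Y : Type*} [PseudoMetricSpace Y] (U : Filter ι) (φ : ι → ℂ → Y) (h : ℂ → Y) : Prop :=
  ∀ R ε : ℝ, 0 < ε → ∀ᶠ n in U, ∀ z, ‖z‖ ≤ R → dist (φ n z) (h z) < ε

lemma Conv.tendsto {ι Y : Type*} [PseudoMetricSpace Y] {U : Filter ι} {φ : ι → ℂ → Y} {h : ℂ → Y}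
    (H : Conv U φ h) (z : ℂ) : Tendsto (fun n => φ n z) U (𝓝 (h z)) :=
  Metric.tendsto_nhds.2 fun ε hε => (H ‖z‖ ε hε).mono fun _ hn => hn z le_rfl

lemma Conv.tendsto_comp {ι Y : Type*} [PseudoMetricSpace Y] {U : Filter ι} {φ : ι → ℂ → Y}
    {h : ℂ → Y} (H : Conv U φ h) {z : ℂ} (hc : ContinuousAt h z) {w : ι → ℂ}
    (hw : Tendsto w U (𝓝 z)) : Tendsto (fun n => φ n (w n)) U (𝓝 (h z)) := by
  refine Metric.tendsto_nhds.2 fun ε hε => ?_
  have h1 := Metric.tendsto_nhds.1 (hc.tendsto.comp hw) (ε / 2) (by positivity)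
  have h2 := Metric.tendsto_nhds.1 hw 1 one_pos
  filter_upwards [H (‖z‖ + 1) (ε / 2) (by positivity), h1, h2] with n h3 h4 h5
  have h6 : ‖w n‖ ≤ ‖z‖ + 1 := by
    rw [dist_eq_norm] at h5
    linarith [norm_sub_norm_le (w n) z]
  have := h3 _ h6
  simp only [Function.comp] at h4
  linarith [dist_triangle (φ n (w n)) (h (w n)) (h z)]

lemma unif_of_equicont {ι Y : Type*} [PseudoMetricSpace Y] {U : Filter ι} [U.NeBot]
    {F : ι → ℂ → Y} {G : ℂ → Y} {s : Set ℂ} (hs : IsCompact s)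
    (heq : ∀ ε > 0, ∃ δ > 0, ∀ᶠ n in U, ∀ w ∈ s, ∀ w' ∈ s, dist w' w < δ →
      dist (F n w') (F n w) < ε)
    (hpt : ∀ w ∈ s, Tendsto (fun n => F n w) U (𝓝 (G w))) :
    ∀ ε > 0, ∀ᶠ n in U, ∀ w ∈ s, dist (F n w) (G w) < ε := by
  intro ε hε
  obtain ⟨δ, hδ, h1⟩ := heq (ε / 4) (by positivity)
  obtain ⟨t, hts, htf, hcov⟩ := Metric.finite_approx_of_totallyBounded hs.totallyBounded δ hδ
  have h2 : ∀ w ∈ s, ∀ w' ∈ s, dist w' w < δ → dist (G w') (G w) ≤ ε / 4 := by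
    intro w hw w' hw' hd
    exact le_of_tendsto ((hpt w' hw').dist (hpt w hw)) (h1.mono fun n hn => (hn w hw w' hw' hd).le)
  have h3 : ∀ᶠ n in U, ∀ y ∈ t, dist (F n y) (G y) < ε / 4 :=
    (eventually_all_finite htf).2 fun y hy =>
      Metric.tendsto_nhds.1 (hpt y (hts hy)) _ (by positivity)
  filter_upwards [h1, h3] with n hn1 hn3 w hw
  obtain ⟨y, hy, hwy⟩ := mem_iUnion₂.1 (hcov hw)
  have a1 := hn1 y (hts hy) w hw hwy
  have a2 := h2 y (hts hy) w hw hwy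
  have a3 := hn3 y hy
  have a4 := dist_triangle4 (F n w) (F n y) (G y) (G w)
  rw [dist_comm (G y)] at a4
  linarith

/-- Montel along a filter: a pointwise limit of bounded holomorphic maps. -/
lemma montel_filter {ι F : Type*} [NormedAddCommGroup F] [NormedSpace ℂ F] [CompleteSpace F]
    {U : Filter ι} [U.NeBot] {f : ι → ℂ → F} {g : ℂ → F} {z : ℂ} {r M : ℝ} (hr : 0 < r)
    (hd : ∀ᶠ n in U, DifferentiableOn ℂ (f n) (ball z r) ∧ ∀ w ∈ ball z r, ‖f n w‖ ≤ M)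
    (hpt : ∀ w ∈ ball z r, Tendsto (fun n => f n w) U (𝓝 (g w))) :
    DifferentiableOn ℂ g (ball z (r / 2)) ∧ TendstoUniformlyOn f g U (ball z (r / 2)) := by
  have hsub : closedBall z (r / 2) ⊆ ball z r := closedBall_subset_ball (by linarith)
  have hM : 0 ≤ M := by
    obtain ⟨n, hn⟩ := hd.exists
    exact (norm_nonneg _).trans (hn.2 z (mem_ball_self hr))
  have h1 := unif_of_equicont (U := U) (F := f) (G := g) (isCompact_closedBall z (r / 2)) ?_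
    (fun w hw => hpt w (hsub hw))
  · have h2 : TendstoUniformlyOn f g U (ball z (r / 2)) := by
      rw [Metric.tendstoUniformlyOn_iff]
      intro ε hε
      filter_upwards [h1 ε hε] with n hn w hw
      rw [dist_comm]; exact hn w (ball_subset_closedBall hw)
    refine ⟨?_, h2⟩
    refine h2.tendstoLocallyUniformlyOn.differentiableOn ?_ isOpen_ball
    exact hd.mono fun n hn => hn.1.mono (ball_subset_ball (by linarith))
  · intro ε hε
    refine ⟨min (r / 2) (ε * r / (4 * M + 1)), by positivity, ?_⟩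
    filter_upwards [hd] with n hn w hw w' _ hww
    have hb : ball w (r / 2) ⊆ ball z r := by
      intro u hu
      rw [mem_ball] at hu ⊢
      rw [mem_closedBall] at hw
      linarith [dist_triangle u w z]
    have h3 := Complex.dist_le_div_mul_dist_of_mapsTo_ball (R₂ := 2 * M) (hn.1.mono hb)
      (fun u hu => by
        rw [mem_closedBall, dist_eq_norm]
        linarith [norm_sub_le (f n u) (f n w), hn.2 u (hb hu), hn.2 w (hsub hw)])
      (show w' ∈ ball w (r / 2) from lt_of_lt_of_le hww (min_le_left _ _))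
    have h4 : dist w' w < ε * r / (4 * M + 1) := lt_of_lt_of_le hww (min_le_right _ _)
    calc dist (f n w') (f n w) ≤ 2 * M / (r / 2) * dist w' w := h3
      _ ≤ 2 * M / (r / 2) * (ε * r / (4 * M + 1)) := by gcongr
      _ = ε * (4 * M / (4 * M + 1)) := by field_simp; ring
      _ < ε * 1 := by
          gcongr
          rw [div_lt_one (by positivity)]; linarith
      _ = ε := mul_one _

variable {X : Type*} [MetricSpace X] {S : Srf X}

/-- `φ` is holomorphic on the disc and maps it into a small ball -/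
def Cov.Tame (C : Cov S) (φ : ℂ → X) (ζ : ℂ) (r : ℝ) : Prop :=
  ∀ ξ ∈ ball ζ r, S.HolAt φ ξ ∧ dist (φ ξ) (φ ζ) ≤ C.ε

lemma Cov.diffOn (C : Cov S) {φ : ℂ → X} {s : Set ℂ} {i : Fin C.k} (h : ∀ ξ ∈ s, S.HolAt φ ξ)
    (hK : ∀ ξ ∈ s, φ ξ ∈ C.K i) : DifferentiableOn ℂ (C.e i ∘ φ) s := fun ξ hξ =>
  ((h ξ hξ).2 _ (C.mem i) (C.sub i (hK ξ hξ))).differentiableWithinAt

lemma Cov.mapsTo (C : Cov S) {φ : ℂ → X} {ζ : ℂ} {r : ℝ} (hr : 0 < r) {i : Fin C.k}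
    (hK : ∀ ξ ∈ ball ζ r, φ ξ ∈ C.K i) :
    MapsTo (C.e i ∘ φ) (ball ζ r) (closedBall ((C.e i ∘ φ) ζ) (2 * C.B)) := by
  intro u hu
  rw [mem_closedBall, dist_eq_norm]
  linarith [norm_sub_le ((C.e i ∘ φ) u) ((C.e i ∘ φ) ζ), C.bd i _ (hK u hu),
    C.bd i _ (hK ζ (mem_ball_self hr)), Function.comp_apply (f := C.e i) (g := φ) (x := u),
    show ‖(C.e i ∘ φ) u‖ = ‖C.e i (φ u)‖ from rfl, show ‖(C.e i ∘ φ) ζ‖ = ‖C.e i (φ ζ)‖ from rfl]

lemma Cov.deriv_le (C : Cov S) {φ : ℂ → X} {ζ : ℂ} {r : ℝ} (hr : 0 < r) {i : Fin C.k}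
    (h : ∀ ξ ∈ ball ζ r, S.HolAt φ ξ) (hK : ∀ ξ ∈ ball ζ r, φ ξ ∈ C.K i) :
    ‖deriv (C.e i ∘ φ) ζ‖ ≤ 2 * C.B / r :=
  Complex.norm_deriv_le_div_of_mapsTo_ball (C.diffOn h hK) (C.mapsTo hr hK) hr

lemma Cov.Tame.mem {C : Cov S} {φ : ℂ → X} {ζ : ℂ} {r : ℝ} (h : C.Tame φ ζ r) :
    ∀ ξ ∈ ball ζ r, φ ξ ∈ C.K (C.idx (φ ζ)) := fun ξ hξ => C.leb _ (h ξ hξ).2

/-- the inverse charts are uniformly continuous on the compact pieces -/
lemma Cov.symm_uc (C : Cov S) {ε : ℝ} (hε : 0 < ε) : ∃ η > 0, ∀ i, ∀ x ∈ C.K i, ∀ y ∈ C.K i,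
    ‖C.e i x - C.e i y‖ < η → dist x y < ε := by
  refine exists_pos_fin _ (fun i => ?_) (fun i r r' _ h1 h2 x hx y hy h3 =>
    h2 x hx y hy (h3.trans_le h1))
  have hc : IsCompact (C.e i '' C.K i) :=
    (C.cpt i).image_of_continuousOn ((C.e i).continuousOn.mono (C.sub i))
  have hs : C.e i '' C.K i ⊆ (C.e i).target := by
    rintro _ ⟨x, hx, rfl⟩; exact (C.e i).map_source (C.sub i hx)
  have hu := hc.uniformContinuousOn_of_continuous ((C.e i).continuousOn_symm.mono hs)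
  obtain ⟨η, hη, h⟩ := Metric.uniformContinuousOn_iff.1 hu ε hε
  refine ⟨η, hη, fun x hx y hy hxy => ?_⟩
  have := h _ (mem_image_of_mem _ hx) _ (mem_image_of_mem _ hy) (by rwa [dist_eq_norm])
  rwa [(C.e i).left_inv (C.sub i hx), (C.e i).left_inv (C.sub i hy)] at this

/-- equicontinuity of tame maps -/
lemma Cov.equi (C : Cov S) {r : ℝ} (hr : 0 < r) {ε : ℝ} (hε : 0 < ε) :
    ∃ δ > 0, ∀ φ ζ, C.Tame φ ζ r → ∀ ξ, dist ξ ζ < δ → dist (φ ξ) (φ ζ) < ε := by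
  obtain ⟨η, hη, h⟩ := C.symm_uc hε
  have hB := C.B_pos
  refine ⟨min r (η * r / (2 * C.B)), by positivity, fun φ ζ ht ξ hξ => ?_⟩
  have h1 : ξ ∈ ball ζ r := lt_of_lt_of_le hξ (min_le_left _ _)
  have h2 : dist ξ ζ < η * r / (2 * C.B) := lt_of_lt_of_le hξ (min_le_right _ _)
  have h3 := Complex.dist_le_div_mul_dist_of_mapsTo_ball (C.diffOn (fun u hu => (ht u hu).1) ht.mem)
    (C.mapsTo hr ht.mem) h1
  refine h _ _ (ht.mem ξ h1) _ (ht.mem ζ (mem_ball_self hr)) ?_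
  rw [dist_eq_norm] at h3
  calc _ ≤ 2 * C.B / r * dist ξ ζ := h3
    _ < 2 * C.B / r * (η * r / (2 * C.B)) := by gcongr
    _ = η := by field_simp

lemma Cov.uc_of_tame (C : Cov S) {r : ℝ} (hr : 0 < r) {h : ℂ → X} (ht : ∀ ζ, C.Tame h ζ r) :
    UniformContinuous h := by
  rw [Metric.uniformContinuous_iff]
  intro ε hε
  obtain ⟨δ, hδ, H⟩ := C.equi hr hε
  exact ⟨δ, hδ, fun {a b} hab => H h b (ht b) a hab⟩

/-- convergence read in a chart -/
lemma Conv.chart {ι : Type*} {U : Filter ι} {φ : ι → ℂ → X} {h : ℂ → X} [CompactSpace X]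
    (H : Conv U φ h) {ζ : ℂ} (hc : ContinuousAt h ζ) {F : Type*} [PseudoMetricSpace F]
    {g : X → F} {V : Set X} (hV : V ∈ 𝓝 (h ζ)) (hg : ContinuousOn g V) :
    ∃ ρ > 0, (∀ w ∈ ball ζ ρ, h w ∈ V) ∧ (∀ᶠ n in U, ∀ w ∈ ball ζ ρ, φ n w ∈ V) ∧
      TendstoUniformlyOn (fun n => g ∘ φ n) (g ∘ h) U (ball ζ ρ) := by
  obtain ⟨η, hη, hsub⟩ := Metric.nhds_basis_closedBall.mem_iff.1 hV
  obtain ⟨ρ, hρ, hball⟩ := Metric.continuousAt_iff.1 hc (η / 2) (by positivity)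
  have hR : ∀ w ∈ ball ζ ρ, ‖w‖ ≤ ‖ζ‖ + ρ := fun w hw => by
    rw [mem_ball, dist_eq_norm] at hw
    linarith [norm_sub_norm_le w ζ]
  have h1 : ∀ w ∈ ball ζ ρ, h w ∈ closedBall (h ζ) η := fun w hw => by
    have := hball hw
    rw [mem_closedBall]; linarith
  have h2 : ∀ᶠ n in U, ∀ w ∈ ball ζ ρ, φ n w ∈ closedBall (h ζ) η := by
    filter_upwards [H (‖ζ‖ + ρ) (η / 2) (by positivity)] with n hn w hw
    have a1 := hball hw
    have a2 := hn w (hR w hw)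
    rw [mem_closedBall]; linarith [dist_triangle (φ n w) (h w) (h ζ)]
  refine ⟨ρ, hρ, fun w hw => hsub (h1 w hw), h2.mono fun n hn w hw => hsub (hn w hw), ?_⟩
  have hu := (isClosed_closedBall (x := h ζ) (ε := η)).isCompact.uniformContinuousOn_of_continuous
    (hg.mono hsub)
  rw [Metric.tendstoUniformlyOn_iff]
  intro ε hε
  obtain ⟨δ, hδ, h3⟩ := Metric.uniformContinuousOn_iff.1 hu ε hε
  filter_upwards [h2, H (‖ζ‖ + ρ) δ hδ] with n hn1 hn2 w hw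
  exact h3 _ (h1 w hw) _ (hn1 w hw) (by rw [dist_comm]; exact hn2 w (hR w hw))

/-- limit of eventually tame maps along an ultrafilter -/
lemma Cov.exists_limit [CompactSpace X] (C : Cov S) {ι : Type*} (U : Ultrafilter ι)
    {φ : ι → ℂ → X} {r : ℝ} (hr : 0 < r)
    (ht : ∀ R : ℝ, ∀ᶠ n in U, ∀ ζ, ‖ζ‖ ≤ R → C.Tame (φ n) ζ r) :
    ∃ h, S.Hol h ∧ Conv U φ h ∧ ∀ ζ, C.Tame h ζ r := by
  have hlim : ∀ ζ, ∃ x, Tendsto (fun n => φ n ζ) U (𝓝 x) := fun ζ => by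
    obtain ⟨x, _, hx⟩ := isCompact_univ.ultrafilter_le_nhds (U.map fun n => φ n ζ) (by simp)
    exact ⟨x, hx⟩
  choose h hh using hlim
  have hconv : Conv U φ h := by
    intro R ε hε
    have := unif_of_equicont (U := U) (F := φ) (G := h) (isCompact_closedBall (0 : ℂ) R) ?_
      (fun w _ => hh w) ε hε
    · exact this.mono fun n hn z hz => hn z (by simpa using hz)
    · intro ε hε
      obtain ⟨δ, hδ, H⟩ := C.equi hr hε
      refine ⟨δ, hδ, (ht R).mono fun n hn w hw w' _ hww => H _ _ (hn w (by simpa using hw)) _ hww⟩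
  have hcont : ∀ ζ, ContinuousAt h ζ := by
    intro ζ
    rw [Metric.continuousAt_iff]
    intro ε hε
    obtain ⟨δ, hδ, H⟩ := C.equi hr (half_pos hε)
    refine ⟨δ, hδ, fun ξ hξ => ?_⟩
    have : dist (h ξ) (h ζ) ≤ ε / 2 := le_of_tendsto ((hh ξ).dist (hh ζ))
      ((ht ‖ζ‖).mono fun n hn => (H _ _ (hn ζ le_rfl) _ hξ).le)
    linarith
  have hhol : S.Hol h := by
    intro ζ
    refine ⟨hcont ζ, fun e he hζ => ?_⟩
    obtain ⟨ρ, hρ, _, h2, h3⟩ := hconv.chart (hcont ζ) (e.open_source.mem_nhds hζ) e.continuousOn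
    have h4 : ball ζ (min ρ r) ⊆ ball ζ ρ := ball_subset_ball (min_le_left _ _)
    have := (h3.mono h4).tendstoLocallyUniformlyOn.differentiableOn ?_ isOpen_ball
    · exact this.differentiableAt (ball_mem_nhds _ (by positivity))
    · filter_upwards [h2, ht ‖ζ‖] with n hn1 hn2 w hw
      exact ((hn2 ζ le_rfl w (ball_subset_ball (min_le_right _ _) hw)).1.2 e he
        (hn1 w (h4 hw))).differentiableWithinAt
  refine ⟨h, hhol, hconv, fun ζ ξ hξ => ⟨hhol ξ, ?_⟩⟩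
  exact le_of_tendsto ((hh ξ).dist (hh ζ)) ((ht ‖ζ‖).mono fun n hn => (hn ζ le_rfl ξ hξ).2)

/-- Liouville: an entire curve inside a small ball is constant -/
lemma Cov.const_of_small (C : Cov S) {h : ℂ → X} (hh : S.Hol h)
    (hb : ∀ z, dist (h z) (h 0) ≤ C.ε) (z : ℂ) : h z = h 0 := by
  have hK : ∀ w, h w ∈ C.K (C.idx (h 0)) := fun w => C.leb _ (hb w)
  have hd : Differentiable ℂ (C.e (C.idx (h 0)) ∘ h) := fun w =>
    (hh w).2 _ (C.mem _) (C.sub _ (hK w))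
  have := hd.apply_eq_apply_of_bounded (isBounded_iff_forall_norm_le.2 ⟨C.B, by
    rintro _ ⟨w, rfl⟩; exact C.bd _ _ (hK w)⟩) z 0
  exact (C.e _).injOn (C.sub _ (hK z)) (C.sub _ (hK 0)) this

end Pool.Agent.P.MP_7ede32_ag.Ell
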