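import Pool.Agent.P.MP_7ede32_ag.Ell.Vert2

/-!
The lifts of the universal covering of the base form an equicontinuous family.
-/

open Filter Topology Metric Set

noncomputable section

namespace Pool.Agent.P.MP_7ede32_ag.Ell

variable {X : Type*} [MetricSpace X]

namespace Srf

variable (S : Srf X)

/-- every fibre is nodal or carries no non-constant Brody curve -/
def Fib : Prop := ∀ s, (∀ x, S.π x = s → S.Crit x → S.Node x) ∨
  ∀ h, S.Hol h → UniformContinuous h → (∀ z, S.π (h z) = s) → ∀ z, h z = h 0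

/-- lift of a translate of the universal covering -/
def Sec (f : ℂ → X) : Prop := S.Hol f ∧ ∀ z, S.π (f z) = S.π (f 0) + S.Λ.mkQ z

variable {S}

lemma Sec.shift {f : ℂ → X} (hf : S.Sec f) (a : ℂ) : S.Sec (fun w => f (a + w)) :=
  ⟨hf.1.shift a, fun z => by
    rw [hf.2 (a + z), hf.2 (a + 0), add_zero, map_add, add_assoc]⟩

lemma node_zero [CompactSpace X] {ι : Type*} {U : Filter ι} {φ : ι → ℂ → X} {h : ℂ → X}
    (hφ : ∀ R : ℝ, ∀ᶠ n in U, ∀ w, ‖w‖ ≤ R → S.HolAt (φ n) w) (hh : S.Hol h) (hc : Conv U φ h) (hn : ¬ ∀ z, h z = h 0) {ζ : ℂ}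
    (hnode : S.Node (h ζ)) {η : ℝ} (hη : 0 < η) :
    ∀ᶠ n in U, ∃ ξ, dist ξ ζ < η ∧ S.π (φ n ξ) = S.π (h ζ) := by
  obtain ⟨e, c, he, hx, he0, hπ⟩ := hnode
  obtain ⟨ρ, hρ, h1, h2, h3⟩ := hc.chart (hh ζ).1 (inter_mem (e.open_source.mem_nhds hx) hπ)
    (e.continuousOn.mono inter_subset_left)
  have hs : S.π (h ζ) = S.Λ.mkQ c := by
    have := hπ.self_of_nhds
    rw [he0] at this
    simpa using this
  have hd : ∀ᶠ n in U, DifferentiableOn ℂ (e ∘ φ n) (ball ζ ρ) := by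
    filter_upwards [h2, hφ (‖ζ‖ + ρ)] with n hn hn' w hw
    refine ((hn' w ?_).2 e he (hn w hw).1).differentiableWithinAt
    rw [mem_ball, dist_eq_norm] at hw
    linarith [norm_sub_norm_le w ζ]
  have hcont : ContinuousOn (e ∘ h) (ball ζ ρ) := fun w hw =>
    ((hh w).2 e he (h1 w hw).1).continuousAt.continuousWithinAt
  have han := hh.analyticAt he hx
  rcases (analyticAt_fst.comp han).eventually_eq_zero_or_eventually_ne_zero with hA | hA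
  · rcases (analyticAt_snd.comp han).eventually_eq_zero_or_eventually_ne_zero with hB | hB
    · exfalso
      apply hn
      have h4 := hh.eq_of_eventually (hol_const (h ζ)) (z₀ := ζ) (by
        filter_upwards [hA, hB, eventually_mem_source (hh ζ).1 hx] with w a1 a2 a3
        exact e.injOn a3 hx (by rw [he0]; exact Prod.ext a1 a2))
      intro z
      rw [congrFun h4 z, congrFun h4 0]
    · filter_upwards [h2, hurwitz hρ (hd.mono fun n hn => hn.snd)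
        (uniformContinuous_snd.comp_tendstoUniformlyOn h3) hcont.snd (by simp [he0]) hB hη]
        with n a1 ⟨ξ, a2, a3, a4⟩
      refine ⟨ξ, a3, ?_⟩
      have a5 : (e (φ n ξ)).2 = 0 := a4
      rw [(a1 ξ a2).2, a5, hs]; simp
  · filter_upwards [h2, hurwitz hρ (hd.mono fun n hn => hn.fst)
      (uniformContinuous_fst.comp_tendstoUniformlyOn h3) hcont.fst (by simp [he0]) hA hη]
      with n a1 ⟨ξ, a2, a3, a4⟩
    refine ⟨ξ, a3, ?_⟩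
    have a5 : (e (φ n ξ)).1 = 0 := a4
    rw [(a1 ξ a2).2, a5, hs]; simp

theorem loc_equi [CompactSpace X] (hF : S.Fib) {ε : ℝ} (hε : 0 < ε) :
    ∃ c > 0, c ≤ 1 ∧ ∀ (f : ℂ → X) (φ : ℂ → ℂ) (z : ℂ) (t : ℝ),
      (∀ ζ ∈ ball z t, S.HolAt f ζ ∧ S.π (f ζ) = S.Λ.mkQ (φ ζ) ∧ ‖φ ζ - φ z‖ ≤ 1) →
      DifferentiableOn ℂ φ (ball z t) → InjOn φ (ball z t) →
      ∀ w, dist w z < c * t → dist (f w) (f z) < ε := by
  obtain ⟨C⟩ := S.nonempty_cov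
  by_contra hcon
  push Not at hcon
  have hn1 : ∀ n : ℕ, (1 : ℝ) ≤ n + 1 := fun n => by linarith [Nat.cast_nonneg (α := ℝ) n]
  choose f φ z₀ t hf hφd hinj w₀ hzw hfar using fun n : ℕ => hcon (1 / (16 * ((n : ℝ) + 1) ^ 2))
    (by positivity) (by rw [div_le_one (by positivity)]; nlinarith [hn1 n])
  have hzw' : ∀ n : ℕ, 16 * ((n : ℝ) + 1) ^ 2 * dist (w₀ n) (z₀ n) < t n := fun n => by
    have := hzw n
    rwa [div_mul_eq_mul_div, one_mul, lt_div_iff₀ (by positivity), mul_comm] at this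
  have hzw'' : ∀ n : ℕ, 16 * ((n : ℝ) + 1) * dist (w₀ n) (z₀ n) < t n := fun n => by
    refine lt_of_le_of_lt ?_ (hzw' n)
    gcongr
    nlinarith [hn1 n]
  obtain ⟨z, ρ, h, hρ, hloc, hh, huc, hconv, ζ', hζ'⟩ := C.exists_bubble_loc
    (fun n ζ hζ => (hf n ζ hζ).1) (lt_min hε C.ε_pos) (min_le_right _ _)
    (fun n => (min_le_left _ _).trans (hfar n)) hzw''
  have hmem : ∀ (n : ℕ) (ξ : ℂ), ‖ξ‖ ≤ n + 2 → z n + ρ n * ξ ∈ ball (z₀ n) (t n) := fun n ξ hξ => by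
    have h3 : 0 ≤ 8 * ((n : ℝ) + 1) * dist (w₀ n) (z₀ n) := by positivity
    rw [mem_ball]; linarith [hloc n ξ hξ, hzw'' n]
  have hsm : ∀ (n : ℕ) (ξ : ℂ), ‖ξ‖ ≤ n + 2 →
      ‖φ n (z n + ρ n * ξ) - φ n (z₀ n)‖ ≤ 1 / (2 * ((n : ℝ) + 1)) := by
    intro n ξ hξ
    have h1 := Complex.dist_le_div_mul_dist_of_mapsTo_ball (R₂ := 1) (hφd n)
      (fun u hu => by rw [mem_closedBall, dist_eq_norm]; exact (hf n u hu).2.2) (hmem n ξ hξ)
    have h2 : 0 < t n := lt_of_le_of_lt (by positivity) (hzw' n)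
    rw [← dist_eq_norm]
    refine h1.trans ?_
    rw [div_mul_eq_mul_div, div_le_div_iff₀ h2 (by positivity)]
    nlinarith [hloc n ξ hξ, hzw' n, hn1 n]
  have hev : ∀ R : ℝ, ∀ᶠ n : ℕ in (UU : Filter ℕ), R ≤ n + 2 := fun R =>
    (ev_UU (tendsto_natCast_atTop_atTop.eventually_ge_atTop R)).mono fun n hn => by linarith
  have hdiff : ∀ (n : ℕ) (ξ ξ' : ℂ), ‖ξ‖ ≤ n + 2 → ‖ξ'‖ ≤ n + 2 →
      ‖φ n (z n + ρ n * ξ) - φ n (z n + ρ n * ξ')‖ ≤ 1 / ((n : ℝ) + 1) := by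
    intro n ξ ξ' h1 h2
    have := norm_sub_le_norm_sub_add_norm_sub (φ n (z n + ρ n * ξ)) (φ n (z₀ n))
      (φ n (z n + ρ n * ξ'))
    rw [norm_sub_rev (φ n (z₀ n))] at this
    have h3 : 1 / ((n : ℝ) + 1) = 1 / (2 * ((n : ℝ) + 1)) + 1 / (2 * ((n : ℝ) + 1)) := by
      field_simp; ring
    linarith [hsm n ξ h1, hsm n ξ' h2]
  have hv : ∀ ζ, S.π (h ζ) = S.π (h 0) := by
    intro ζ
    have := π_lim (hconv.tendsto ζ) (hconv.tendsto 0)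
      (c := fun n => φ n (z n + ρ n * ζ) - φ n (z n + ρ n * 0)) (d := 0)
      (squeeze_zero_norm' ((hev ‖ζ‖).mono fun n hn => hdiff n ζ 0 hn (by simp; positivity))
        (tendsto_one_div_add_atTop_nhds_zero_nat.mono_left UU_le))
      ((hev ‖ζ‖).mono fun n hn => by
        rw [(hf n _ (hmem n ζ hn)).2.1, (hf n _ (hmem n 0 (by simp; positivity))).2.1, map_sub]
        abel)
    simpa using this
  have hn : ¬ ∀ z, h z = h 0 := fun H => hζ' (H ζ')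
  rcases hF (S.π (h 0)) with hnod | hhyp
  swap
  · exact hn (hhyp h hh huc hv)
  have hone : ∃ ζs, ∀ ζ ≠ ζs, ¬ S.Crit (h ζ) := by
    by_contra hcon'
    push Not at hcon'
    obtain ⟨ζ₀, _, h0⟩ := hcon' 0
    obtain ⟨ζ₁, hne, h1⟩ := hcon' ζ₀
    have hd : 0 < dist ζ₁ ζ₀ := dist_pos.2 hne
    have hφ : ∀ R : ℝ, ∀ᶠ n in (UU : Filter ℕ), ∀ w, ‖w‖ ≤ R →
        S.HolAt (fun ζ => f n (z n + ρ n * ζ)) w := fun R => (hev R).mono fun n hn w hw =>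
      HolAt.comp (f := f n) (φ := fun w => z n + ρ n * w) (hf n _ (hmem n w (hw.trans hn))).1
        (by fun_prop)
    obtain ⟨r, hr, hΛ⟩ := S.disc
    have a0 := node_zero hφ hh hconv hn (hnod _ (hv ζ₀) h0) (half_pos hd)
    have a1 := node_zero hφ hh hconv hn (hnod _ (hv ζ₁) h1) (half_pos hd)
    have a2 : ∀ᶠ n : ℕ in (UU : Filter ℕ), 1 / ((n : ℝ) + 1) < r :=
      (tendsto_one_div_add_atTop_nhds_zero_nat.mono_left UU_le).eventually (gt_mem_nhds hr)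
    obtain ⟨n, ⟨ξ₀, b0, c0⟩, ⟨ξ₁, b1, c1⟩, b2, b3, b4⟩ := (a0.and (a1.and (a2.and
      ((hev (‖ζ₀‖ + dist ζ₁ ζ₀)).and (hev (‖ζ₁‖ + dist ζ₁ ζ₀)))))).exists
    have d0 : ‖ξ₀‖ ≤ n + 2 := by
      rw [dist_eq_norm ξ₀] at b0; linarith [norm_sub_norm_le ξ₀ ζ₀]
    have d1 : ‖ξ₁‖ ≤ n + 2 := by
      rw [dist_eq_norm ξ₁] at b1; linarith [norm_sub_norm_le ξ₁ ζ₁]
    rw [(hf n _ (hmem n _ d0)).2.1, hv] at c0
    rw [(hf n _ (hmem n _ d1)).2.1, hv] at c1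
    have b5 := hinj n (hmem n _ d1) (hmem n _ d0) (sub_eq_zero.1 (hΛ _
      (mk_eq_iff.1 (c1.trans c0.symm)) ((hdiff n _ _ d1 d0).trans_lt b2)))
    have b6 : ξ₁ = ξ₀ := mul_left_cancel₀ (by exact_mod_cast (hρ n).ne') (add_left_cancel b5)
    subst b6
    have := dist_triangle_left ζ₁ ζ₀ ξ₁
    linarith
  obtain ⟨ζs, hone⟩ := hone
  exact hn (vert_const hh huc hv hnod hone)

/-- equicontinuity of local sections -/
theorem equicont_loc [CompactSpace X] (hF : S.Fib) {ε : ℝ} (hε : 0 < ε) :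
    ∃ δ > 0, δ ≤ 1 ∧ ∀ (f : ℂ → X) (c z : ℂ),
      (∀ ζ ∈ ball z 1, S.HolAt f ζ ∧ S.π (f ζ) = S.Λ.mkQ (c + ζ)) →
      ∀ w, dist w z < δ → dist (f w) (f z) < ε := by
  obtain ⟨δ, hδ, hδ1, H⟩ := loc_equi hF hε
  refine ⟨δ, hδ, hδ1, fun f c z hf w hw => H f (fun ζ => c + ζ) z 1 (fun ζ hζ =>
    ⟨(hf ζ hζ).1, (hf ζ hζ).2, ?_⟩) (by fun_prop) (fun a _ b _ h => add_left_cancel h) w
    (by rwa [mul_one])⟩
  rw [add_sub_add_left_eq_sub, ← dist_eq_norm]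
  exact (mem_ball.1 hζ).le

theorem equicont [CompactSpace X] (hF : S.Fib) {ε : ℝ} (hε : 0 < ε) :
    ∃ δ > 0, ∀ f, S.Sec f → ∀ z w, dist w z < δ → dist (f w) (f z) < ε := by
  obtain ⟨δ, hδ, _, H⟩ := equicont_loc hF hε
  refine ⟨δ, hδ, fun f hf z w hw => ?_⟩
  obtain ⟨c, hc⟩ := S.Λ.mkQ_surjective (S.π (f 0))
  exact H f c z (fun ζ _ => ⟨hf.1 ζ, by rw [hf.2 ζ, map_add, hc]⟩) w hw

lemma exists_sec_limit_loc [CompactSpace X] (hF : S.Fib) {f : ℕ → ℂ → X} {c : ℕ → ℂ}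
    (hf : ∀ R : ℝ, ∀ᶠ n in (UU : Filter ℕ), ∀ w, ‖w‖ ≤ R →
      S.HolAt (f n) w ∧ S.π (f n w) = S.Λ.mkQ (c n + w)) :
    ∃ g, S.Sec g ∧ Conv UU f g := by
  obtain ⟨C⟩ := S.nonempty_cov
  obtain ⟨r, hr, hr1, H⟩ := equicont_loc hF C.ε_pos
  obtain ⟨g, hg, hconv, _⟩ := C.exists_limit UU (φ := f) hr (fun R => (hf (R + 1)).mono
    fun n hn ζ hζ ξ hξ => by
      have h1 : ∀ u ∈ ball ζ 1, ‖u‖ ≤ R + 1 := fun u hu => by
        rw [mem_ball, dist_eq_norm] at hu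
        linarith [norm_sub_norm_le u ζ]
      exact ⟨(hn ξ (h1 ξ (ball_subset_ball hr1 hξ))).1,
        (H _ (c n) ζ (fun u hu => hn u (h1 u hu)) ξ hξ).le⟩)
  exact ⟨g, ⟨hg, fun z => π_lim (hconv.tendsto z) (hconv.tendsto 0) tendsto_const_nhds
    ((hf ‖z‖).mono fun n hn => by
      rw [(hn z le_rfl).2, (hn 0 (by simp)).2, add_zero, map_add])⟩, hconv⟩

lemma sec_tame [CompactSpace X] (hF : S.Fib) (C : Cov S) :
    ∃ r > 0, ∀ f, S.Sec f → ∀ ζ, C.Tame f ζ r := by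
  obtain ⟨δ, hδ, H⟩ := equicont hF C.ε_pos
  exact ⟨δ, hδ, fun f hf ζ ξ hξ => ⟨hf.1 ξ, (H f hf ζ ξ hξ).le⟩⟩

lemma exists_sec_limit [CompactSpace X] (hF : S.Fib) {f : ℕ → ℂ → X} (hf : ∀ n, S.Sec (f n)) :
    ∃ g, S.Sec g ∧ Conv UU f g := by
  obtain ⟨C⟩ := S.nonempty_cov
  obtain ⟨r, hr, H⟩ := sec_tame hF C
  obtain ⟨g, hg, hconv, _⟩ := C.exists_limit UU hr
    (fun R => Eventually.of_forall fun n ζ _ => H _ (hf n) ζ)
  exact ⟨g, ⟨hg, fun z => π_lim (hconv.tendsto z) (hconv.tendsto 0) tendsto_const_nhds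
    (Eventually.of_forall fun n => (hf n).2 z)⟩, hconv⟩

end Srf

end Pool.Agent.P.MP_7ede32_ag.Ell
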