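import Pool.Agent.P.MP_7ede32_ag.Ell.Limit

/-!
The rescaling lemma (Brody, Zalcman, Hofer), in metric form.
-/

open Filter Topology Metric Set

noncomputable section

namespace Pool.Agent.P.MP_7ede32_ag.Ell

lemma rescale {Y : Type*} [MetricSpace Y] {f : ℂ → Y} (hf : Continuous f) {ε : ℝ} (hε : 0 < ε)
    {z₀ w₀ : ℂ} (h0 : ε ≤ dist (f w₀) (f z₀)) {R : ℝ} (hR : 1 ≤ R) :
    ∃ (z : ℂ) (ρ : ℝ), 0 < ρ ∧ ρ ≤ 2 * dist w₀ z₀ ∧ dist z z₀ ≤ 4 * R * dist w₀ z₀ ∧
      (∃ ζ : ℂ, ‖ζ‖ ≤ 2 ∧ ε ≤ dist (f (z + ρ * ζ)) (f z)) ∧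
      ∀ ζ : ℂ, ‖ζ‖ ≤ R → ∀ ξ ∈ ball ζ (1 / 4), dist (f (z + ρ * ξ)) (f (z + ρ * ζ)) < ε := by
  set t := dist w₀ z₀ with ht
  have htpos : 0 < t := by
    rw [ht, dist_pos]
    rintro rfl
    simp at h0; linarith
  let D : ℂ → Set ℝ := fun z => insert (4 * t) ((fun w => dist w z) '' {w | ε ≤ dist (f w) (f z)})
  have hDne : ∀ z, (D z).Nonempty := fun z => ⟨_, mem_insert _ _⟩
  have hDbd : ∀ z, BddBelow (D z) := fun z => ⟨0, by
    rintro _ (rfl | ⟨w, _, rfl⟩)
    · positivity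
    · exact dist_nonneg⟩
  let δ : ℂ → ℝ := fun z => sInf (D z)
  have hδ1 : ∀ z w, dist w z < δ z → dist (f w) (f z) < ε := by
    intro z w h
    by_contra hcon
    exact absurd (csInf_le (hDbd z) (mem_insert_of_mem _ ⟨w, not_lt.1 hcon, rfl⟩)) (not_le.2 h)
  have hδ0 : δ z₀ ≤ t := csInf_le (hDbd z₀) (mem_insert_of_mem _ ⟨w₀, h0, rfl⟩)
  have hlow : ∀ P : ℝ, ∃ d > 0, ∀ z ∈ closedBall z₀ P, d ≤ δ z := by
    intro P
    have hu := (isCompact_closedBall z₀ (P + 4 * t)).uniformContinuousOn_of_continuous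
      hf.continuousOn
    obtain ⟨η, hη, h⟩ := Metric.uniformContinuousOn_iff.1 hu ε hε
    refine ⟨min η (4 * t), by positivity, fun z hz => le_csInf (hDne z) ?_⟩
    rintro _ (rfl | ⟨w, hw, rfl⟩)
    · exact min_le_right _ _
    · by_contra hcon
      have h1 : dist w z < min η (4 * t) := not_le.1 hcon
      rw [mem_closedBall] at hz
      have h2 := h w (by
        rw [mem_closedBall]
        linarith [dist_triangle w z z₀, min_le_right η (4 * t)]) z
        (by rw [mem_closedBall]; linarith) (h1.trans_le (min_le_left _ _))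
      exact absurd hw (not_le.2 h2)
  have hδpos : ∀ z, 0 < δ z := fun z => by
    obtain ⟨d, hd, h⟩ := hlow (dist z z₀)
    exact hd.trans_le (h z (mem_closedBall.2 le_rfl))
  set P := 4 * R * δ z₀ with hP
  have hPpos : 0 < P := by have := hδpos z₀; positivity
  let wt : ℂ → ℝ := fun z => (P - dist z z₀) / δ z
  obtain ⟨d, hd, hdle⟩ := hlow P
  have hbdd : BddAbove (wt '' closedBall z₀ P) := ⟨P / d, by
    rintro _ ⟨z, hz, rfl⟩
    have h1 := hdle z hz
    have h2 := hδpos z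
    have h3 : 0 ≤ dist z z₀ := dist_nonneg
    calc wt z ≤ P / δ z := by simp only [wt]; gcongr; linarith
      _ ≤ P / d := by gcongr⟩
  set W := sSup (wt '' closedBall z₀ P) with hW
  have hW0 : 4 * R ≤ W := by
    have : wt z₀ = 4 * R := by
      have := hδpos z₀
      simp only [wt, dist_self, sub_zero, hP]; field_simp
    rw [← this]
    exact le_csSup hbdd (mem_image_of_mem _ (mem_closedBall_self hPpos.le))
  obtain ⟨_, ⟨z, hz, rfl⟩, hzW⟩ := exists_lt_of_lt_csSup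
    (s := wt '' closedBall z₀ P) (b := W / 2)
    ⟨_, mem_image_of_mem _ (mem_closedBall_self hPpos.le)⟩ (by linarith)
  have hρ := hδpos z
  set σ := P - dist z z₀ with hσ
  have hσ1 : W / 2 * δ z < σ := by
    have : W / 2 < σ / δ z := hzW
    rwa [lt_div_iff₀ hρ] at this
  have hσ2 : 2 * R * δ z < σ := by nlinarith
  have hσ3 : σ ≤ P := by linarith [dist_nonneg (x := z) (y := z₀)]
  have hρ2 : δ z < 2 * δ z₀ := by
    have : 2 * R * δ z < 2 * R * (2 * δ z₀) := by linarith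
    exact lt_of_mul_lt_mul_left this (by linarith)
  refine ⟨z, δ z, hρ, by linarith, ?_, ?_, ?_⟩
  · have : dist z z₀ ≤ P := hz
    calc dist z z₀ ≤ 4 * R * δ z₀ := this
      _ ≤ 4 * R * t := by gcongr
  · obtain ⟨x, hx, hxlt⟩ := exists_lt_of_csInf_lt (hDne z)
      (show δ z < min (4 * t) (2 * δ z) from lt_min (by linarith) (by linarith))
    rcases hx with rfl | ⟨w, hw, rfl⟩
    · exact absurd (min_le_left _ _) (not_le.2 hxlt)
    · have hne : (δ z : ℂ) ≠ 0 := by exact_mod_cast hρ.ne'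
      refine ⟨(w - z) / δ z, ?_, ?_⟩
      · have h1 : dist w z < 2 * δ z := hxlt.trans_le (min_le_right _ _)
        rw [norm_div, Complex.norm_real, Real.norm_of_nonneg hρ.le, div_le_iff₀ hρ,
          ← dist_eq_norm]
        exact h1.le
      · have : z + δ z * ((w - z) / δ z) = w := by field_simp; ring
        rw [this]; exact hw
  · intro ζ hζ ξ hξ
    apply hδ1
    set u := z + δ z * ζ with hu
    have h1 : dist u z ≤ R * δ z := by
      rw [hu, dist_eq_norm, add_sub_cancel_left, norm_mul, Complex.norm_real,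
        Real.norm_of_nonneg hρ.le, mul_comm]
      gcongr
    have h2 : σ / 2 < P - dist u z₀ := by linarith [dist_triangle u z z₀]
    have hσpos : 0 < σ := by nlinarith
    have h3 : wt u ≤ W := le_csSup hbdd (mem_image_of_mem _ (by rw [mem_closedBall]; linarith))
    have h4 : P - dist u z₀ ≤ W * δ u := by
      have : (P - dist u z₀) / δ u ≤ W := h3
      rwa [div_le_iff₀ (hδpos u)] at this
    have h5 : δ z / 4 ≤ δ u := by
      by_contra hcon
      have h6 : δ u < δ z / 4 := not_le.1 hcon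
      have : W * δ u ≤ W * (δ z / 4) := by gcongr; linarith
      linarith
    have h6 : dist (z + δ z * ξ) u = δ z * dist ξ ζ := by
      rw [hu, dist_eq_norm, dist_eq_norm, add_sub_add_left_eq_sub, ← mul_sub, norm_mul,
        Complex.norm_real, Real.norm_of_nonneg hρ.le]
    rw [h6]
    have h7 : dist ξ ζ < 1 / 4 := hξ
    nlinarith

variable {X : Type*} [MetricSpace X] [CompactSpace X] {S : Srf X}

/-- the ultrafilter used for all limits -/
abbrev UU : Ultrafilter ℕ := hyperfilter ℕ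

lemma UU_le : (UU : Filter ℕ) ≤ atTop := Nat.hyperfilter_le_atTop

lemma ev_UU {p : ℕ → Prop} (h : ∀ᶠ n in atTop, p n) : ∀ᶠ n in (UU : Filter ℕ), p n := UU_le h

/-- Rescaled limit of a sequence of entire curves that is not equicontinuous. -/
lemma Cov.exists_bubble (C : Cov S) {f : ℕ → ℂ → X} (hf : ∀ n, S.Hol (f n)) {ε : ℝ} (hε : 0 < ε)
    (hεC : ε ≤ C.ε) {z₀ w₀ : ℕ → ℂ} (h0 : ∀ n, ε ≤ dist (f n (w₀ n)) (f n (z₀ n))) :
    ∃ (z : ℕ → ℂ) (ρ : ℕ → ℝ) (h : ℂ → X), (∀ n, 0 < ρ n) ∧ (∀ n, ρ n ≤ 2 * dist (w₀ n) (z₀ n)) ∧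
      S.Hol h ∧ UniformContinuous h ∧ Conv UU (fun n ζ => f n (z n + ρ n * ζ)) h ∧
      ∃ ζ, h ζ ≠ h 0 := by
  have H := fun n => rescale (hf n).continuous hε (h0 n) (R := n + 1)
    (by linarith [Nat.cast_nonneg (α := ℝ) n])
  choose z ρ hρ hρ2 _ hζ ht using H
  choose ζ hζ1 hζ2 using hζ
  obtain ⟨h, hh, hconv, htame⟩ := C.exists_limit UU (φ := fun n ζ => f n (z n + ρ n * ζ))
    (r := 1 / 4) (by norm_num) (fun R => by
      filter_upwards [ev_UU (tendsto_natCast_atTop_atTop.eventually_ge_atTop R)] with n hn u hu ξ hξ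
      exact ⟨(hf n).affine _ _ ξ, (ht n u (by linarith) ξ hξ).le.trans hεC⟩)
  refine ⟨z, ρ, h, hρ, hρ2, hh, C.uc_of_tame (by norm_num) htame, hconv, ?_⟩
  obtain ⟨u, _, hu⟩ := (isCompact_closedBall (0 : ℂ) 2).ultrafilter_le_nhds (UU.map ζ)
    (by
      rw [le_principal_iff]
      exact Filter.mem_map.2 (Eventually.of_forall fun n => by simpa using hζ1 n))
  have h1 := hconv.tendsto_comp (hh u).1 (w := ζ) hu
  have h2 := hconv.tendsto 0
  have h3 : ε ≤ dist (h u) (h 0) :=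
    ge_of_tendsto (h1.dist h2) (Eventually.of_forall fun n => by simpa using hζ2 n)
  refine ⟨u, fun h4 => ?_⟩
  rw [h4, dist_self] at h3
  linarith

/-- Local form of the bubbling lemma. -/
lemma Cov.exists_bubble_loc (C : Cov S) {f : ℕ → ℂ → X} {z₀ w₀ : ℕ → ℂ} {t : ℕ → ℝ}
    (hf : ∀ n, ∀ ζ ∈ ball (z₀ n) (t n), S.HolAt (f n) ζ) {ε : ℝ} (hε : 0 < ε)
    (hεC : ε ≤ C.ε) (h0 : ∀ n, ε ≤ dist (f n (w₀ n)) (f n (z₀ n)))
    (ht : ∀ n : ℕ, 16 * (n + 1) * dist (w₀ n) (z₀ n) < t n) :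
    ∃ (z : ℕ → ℂ) (ρ : ℕ → ℝ) (h : ℂ → X), (∀ n, 0 < ρ n) ∧
      (∀ (n : ℕ) (ζ : ℂ), ‖ζ‖ ≤ n + 2 → dist (z n + ρ n * ζ) (z₀ n) ≤ 8 * (n + 1) * dist (w₀ n) (z₀ n)) ∧
      S.Hol h ∧ UniformContinuous h ∧ Conv UU (fun n ζ => f n (z n + ρ n * ζ)) h ∧
      ∃ ζ, h ζ ≠ h 0 := by
  have hn1 : ∀ n : ℕ, (1 : ℝ) ≤ n + 1 := fun n => by linarith [Nat.cast_nonneg (α := ℝ) n]
  have htpos : ∀ n, 0 < t n := fun n => lt_of_le_of_lt (by positivity) (ht n)
  let ret : ℕ → ℂ → ℂ := fun n u =>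
    z₀ n + ((t n / 2 / max (t n / 2) ‖u - z₀ n‖ : ℝ) : ℂ) * (u - z₀ n)
  have hmax : ∀ n u, 0 < max (t n / 2) ‖u - z₀ n‖ := fun n u =>
    lt_max_of_lt_left (half_pos (htpos n))
  have hretc : ∀ n, Continuous (ret n) := fun n =>
    continuous_const.add ((Complex.continuous_ofReal.comp (continuous_const.div (by fun_prop)
      fun u => (hmax n u).ne')).mul (by fun_prop))
  have hretm : ∀ n u, ret n u ∈ ball (z₀ n) (t n) := by
    intro n u
    have h1 := htpos n
    have h2 := hmax n u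
    rw [mem_ball, dist_eq_norm, add_sub_cancel_left, norm_mul, Complex.norm_real,
      Real.norm_of_nonneg (by positivity), div_mul_eq_mul_div, div_lt_iff₀ h2]
    nlinarith [le_max_right (t n / 2) ‖u - z₀ n‖]
  have hret : ∀ n u, dist u (z₀ n) ≤ t n / 2 → ret n u = u := by
    intro n u hu
    rw [dist_eq_norm] at hu
    simp only [ret]
    rw [max_eq_left hu, div_self (half_pos (htpos n)).ne']
    simp
  have hF : ∀ n, Continuous (f n ∘ ret n) := fun n => continuous_iff_continuousAt.2 fun u =>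
    (hf n _ (hretm n u)).1.comp (hretc n).continuousAt
  have H := fun n => rescale (hF n) hε (z₀ := z₀ n) (w₀ := w₀ n) (by
    have h1 := ht n
    have h2 := hn1 n
    have h3 : 0 ≤ dist (w₀ n) (z₀ n) := dist_nonneg
    simp only [Function.comp]
    rw [hret n (w₀ n) (by nlinarith), hret n (z₀ n) (by simp [(htpos n).le, div_nonneg])]
    exact h0 n) (R := n + 1) (hn1 n)
  choose z ρ hρ hρ2 hz hζ hs using H
  choose ζ hζ1 hζ2 using hζ
  have hloc : ∀ (n : ℕ) (ζ : ℂ), ‖ζ‖ ≤ n + 2 →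
      dist (z n + ρ n * ζ) (z₀ n) ≤ 8 * (n + 1) * dist (w₀ n) (z₀ n) := by
    intro n u hu
    have h1 : dist (z n + ρ n * u) (z n) ≤ 2 * dist (w₀ n) (z₀ n) * (n + 2) := by
      rw [dist_eq_norm, add_sub_cancel_left, norm_mul, Complex.norm_real,
        Real.norm_of_nonneg (hρ n).le]
      gcongr
      exact hρ2 n
    have h3 : 0 ≤ dist (w₀ n) (z₀ n) := dist_nonneg
    nlinarith [dist_triangle (z n + ρ n * u) (z n) (z₀ n), hz n, Nat.cast_nonneg (α := ℝ) n]
  have hid : ∀ (n : ℕ) (u : ℂ), ‖u‖ ≤ n + 2 →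
      (f n ∘ ret n) (z n + ρ n * u) = f n (z n + ρ n * u) := fun n u hu => by
    simp only [Function.comp]
    rw [hret n _ (by linarith [hloc n u hu, ht n])]
  obtain ⟨h, hh, hconv, htame⟩ := C.exists_limit UU (φ := fun n ζ => f n (z n + ρ n * ζ))
    (r := 1 / 4) (by norm_num) (fun R => by
      filter_upwards [ev_UU (tendsto_natCast_atTop_atTop.eventually_ge_atTop R)] with n hn u hu ξ hξ
      have h1 : ‖ξ‖ ≤ n + 2 := by
        rw [mem_ball, dist_eq_norm] at hξ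
        linarith [norm_sub_norm_le ξ u]
      refine ⟨Srf.HolAt.comp (f := f n) (φ := fun w => z n + ρ n * w) (hf n _ ?_) (by fun_prop), ?_⟩
      · rw [mem_ball]; linarith [hloc n ξ h1, ht n, htpos n]
      · have := hs n u (by linarith) ξ hξ
        rw [hid n ξ h1, hid n u (by linarith)] at this
        exact this.le.trans hεC)
  refine ⟨z, ρ, h, hρ, hloc, hh, C.uc_of_tame (by norm_num) htame, hconv, ?_⟩
  obtain ⟨u, _, hu⟩ := (isCompact_closedBall (0 : ℂ) 2).ultrafilter_le_nhds (UU.map ζ)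
    (by
      rw [le_principal_iff]
      exact Filter.mem_map.2 (Eventually.of_forall fun n => by simpa using hζ1 n))
  have h1 := hconv.tendsto_comp (hh u).1 (w := ζ) hu
  have h2 := hconv.tendsto 0
  have h3 : ε ≤ dist (h u) (h 0) :=
    ge_of_tendsto (h1.dist h2) (Eventually.of_forall fun n => by
      have a1 := hζ2 n
      have a2 := hid n 0 (by simp; positivity)
      rw [hid n _ (by linarith [hζ1 n, Nat.cast_nonneg (α := ℝ) n])] at a1
      rw [mul_zero, add_zero] at a2 ⊢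
      rwa [a2] at a1)
  refine ⟨u, fun h4 => ?_⟩
  rw [h4, dist_self] at h3
  linarith

end Pool.Agent.P.MP_7ede32_ag.Ell
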