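import Pool.Agent.P.MP_7ede32_ag.Ell.Final

/-!
Local sections over large discs shadow global sections; decay of the distance on truncated
half-planes; the one-step maximum principle.
-/

open Filter Topology Metric Set

noncomputable section

namespace Pool.Agent.P.MP_7ede32_ag.Ell

variable {X : Type*} [MetricSpace X] [CompactSpace X] {S : Srf X}

/-- global sections over a translate -/
def Srf.Tc (S : Srf X) (c : ℂ) : Set (ℂ → X) := {f | S.Hol f ∧ ∀ w, S.π (f w) = S.Λ.mkQ (c + w)}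

lemma finite_Tc (hF : S.Fib) (c : ℂ) : (S.Tc c).Finite := by
  refine ((finite_sec hF).image fun f w => f (c + w)).subset fun f hf =>
    ⟨fun w => f (-c + w), ⟨hf.1.shift _, fun w => by rw [hf.2]; simp⟩, ?_⟩
  funext w; simp

omit [CompactSpace X] in
lemma exists_lift_tendsto {p : ℕ → X} {x : X} (hp : Tendsto p UU (𝓝 x)) {u : ℕ → ℂ}
    (hu : ∀ᶠ n in (UU : Filter ℕ), S.π (p n) = S.Λ.mkQ (u n)) :
    ∃ (v : ℕ → ℂ) (d : ℂ), Tendsto v UU (𝓝 d) ∧ S.π x = S.Λ.mkQ d ∧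
      ∀ᶠ n in (UU : Filter ℕ), u n - v n ∈ S.Λ := by
  have hg := Srf.isLift_lf (S := S) x
  refine ⟨fun n => S.lf x (p n), _, hg.2.continuousAt.tendsto.comp hp, hg.1.self_of_nhds, ?_⟩
  filter_upwards [hu, hp.eventually hg.1] with n h1 h2
  exact Srf.mk_eq_iff.1 (h1.symm.trans h2)

lemma shadow (hF : S.Fib) (c : ℂ) {ε : ℝ} (hε : 0 < ε) : ∃ R > 0, ∀ (g : ℂ → X) (w₀ : ℂ),
    (∀ w, ‖w - w₀‖ ≤ R → S.HolAt g w ∧ S.π (g w) = S.Λ.mkQ (c + w)) →
    ∃ f ∈ S.Tc c, ∀ w, ‖w - w₀‖ ≤ 1 → dist (g w) (f w) < ε := by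
  by_contra hcon
  push Not at hcon
  choose g w₀ hg hfar using fun n : ℕ => hcon ((n : ℝ) + 1) (by positivity)
  have hloc : ∀ R : ℝ, ∀ᶠ n in (UU : Filter ℕ), ∀ w, ‖w‖ ≤ R →
      S.HolAt (fun w => g n (w₀ n + w)) w ∧
        S.π (g n (w₀ n + w)) = S.Λ.mkQ (c + w₀ n + w) := fun R => by
    filter_upwards [ev_UU (tendsto_natCast_atTop_atTop.eventually_ge_atTop R)] with n hn w hw
    have := hg n (w₀ n + w) (by rw [add_sub_cancel_left]; linarith)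
    exact ⟨Srf.HolAt.comp (f := g n) (φ := fun w => w₀ n + w) this.1 (by fun_prop),
      by rw [this.2, add_assoc]⟩
  obtain ⟨p, hp, hconv⟩ := Srf.exists_sec_limit_loc hF hloc
  obtain ⟨v, d, hv, hd, hΛ⟩ := exists_lift_tendsto (S := S) (hconv.tendsto 0)
    (u := fun n => c + w₀ n) ((hloc 0).mono fun n hn => by simpa using (hn 0 (by simp)).2)
  obtain ⟨δ, hδ, H⟩ := Srf.equicont hF (half_pos hε)
  obtain ⟨n, a1, a2, a3⟩ := ((hconv 1 _ (half_pos hε)).and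
    (hΛ.and (Metric.tendsto_nhds.1 hv δ hδ))).exists
  obtain ⟨w, b1, b2⟩ := hfar n (fun w => p (v n - d - w₀ n + w)) ⟨hp.1.shift _, fun w => by
    rw [hp.2, hd, ← map_add, Srf.mk_eq_iff]
    convert S.Λ.neg_mem a2 using 1; ring⟩
  have b3 := a1 (w - w₀ n) b1
  have b4 := H p hp (w - w₀ n) (v n - d - w₀ n + w) (by
    rw [dist_eq_norm] at a3 ⊢
    convert a3 using 2; ring)
  simp only [add_sub_cancel] at b3
  linarith [dist_triangle_right (g n w) (p (v n - d - w₀ n + w)) (p (w - w₀ n))]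

lemma separated (hF : S.Fib) (c : ℂ) : ∃ ε > 0, ∀ f ∈ S.Tc c, ∀ f' ∈ S.Tc c, ∀ w₀ : ℂ,
    (∀ w, ‖w - w₀‖ ≤ 1 / 2 → dist (f w) (f' w) < ε) → f = f' := by
  by_contra hcon
  push Not at hcon
  choose f hf f' hf' w₀ hd hne using fun n : ℕ => hcon (1 / ((n : ℝ) + 1)) (by positivity)
  obtain ⟨x, _, hx⟩ := isCompact_univ.ultrafilter_le_nhds (UU.map fun n => f n (w₀ n)) (by simp)
  obtain ⟨v, d, hv, _, hΛ⟩ := exists_lift_tendsto (S := S) (p := fun n => f n (w₀ n)) hx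
    (u := fun n => c + w₀ n) (Eventually.of_forall fun n => (hf n).2 _)
  have hsh : ∀ g ∈ S.Tc c, ∀ l ∈ S.Λ, (fun w => g (l + w)) ∈ S.Tc c := fun g hg l hl =>
    ⟨hg.1.shift _, fun w => by rw [hg.2, Srf.mk_eq_iff]; convert hl using 1; ring⟩
  have key : ∀ F : ℕ → ℂ → X, (∀ n, F n ∈ S.Tc c) → ∃ g ∈ S.Tc c,
      ∀ᶠ n in (UU : Filter ℕ), (fun w => F n (c + w₀ n - v n + w)) = g := fun F hFm => by
    have := (Ultrafilter.finite_biUnion_mem_iff (f := UU) (finite_Tc hF c)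
      (s := fun g => {n | (fun w => F n (c + w₀ n - v n + w)) = g})).1
      (hΛ.mono fun n hn => mem_iUnion₂.2 ⟨_, hsh _ (hFm n) _ hn, rfl⟩)
    exact this
  obtain ⟨g, hg, h1⟩ := key f hf
  obtain ⟨g', hg', h2⟩ := key f' hf'
  have h3 : g = g' := by
    refine hg.1.eq_of_eventually hg'.1 (z₀ := d - c) ?_
    filter_upwards [ball_mem_nhds (d - c) (show (0 : ℝ) < 1 / 4 by norm_num)] with w hw
    refine dist_le_zero.1 (ge_of_tendsto
      (tendsto_one_div_add_atTop_nhds_zero_nat.mono_left UU_le) ?_)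
    filter_upwards [h1, h2, Metric.tendsto_nhds.1 hv (1 / 4) (by norm_num)] with n a1 a2 a3
    rw [← a1, ← a2]
    refine (hd n _ ?_).le
    rw [mem_ball, dist_eq_norm] at hw
    rw [dist_eq_norm] at a3
    have : c + w₀ n - v n + w - w₀ n = (w - (d - c)) - (v n - d) := by ring
    rw [this]
    linarith [norm_sub_le (w - (d - c)) (v n - d)]
  obtain ⟨n, a1, a2⟩ := (h1.and h2).exists
  apply hne n
  funext w
  have := congrFun (a1.trans (h3.trans a2.symm)) (w - (c + w₀ n - v n))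
  simpa using this

/-- one global section shadows a local section along a whole connected set -/
lemma shadow_conn (hF : S.Fib) (c : ℂ) {ε : ℝ} (hε : 0 < ε) : ∃ R > 0, ∀ (g : ℂ → X) (Ω : Set ℂ),
    IsPreconnected Ω → Ω.Nonempty →
    (∀ w₀ ∈ Ω, ∀ w, ‖w - w₀‖ ≤ R → S.HolAt g w ∧ S.π (g w) = S.Λ.mkQ (c + w)) →
    ∃ f ∈ S.Tc c, ∀ w ∈ Ω, dist (g w) (f w) < ε := by
  obtain ⟨η, hη, hsep⟩ := separated hF c
  obtain ⟨R, hR, H⟩ := shadow hF c (lt_min hε (half_pos hη))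
  refine ⟨R, hR, fun g Ω hΩ ⟨w₁, hw₁⟩ hg => ?_⟩
  have : Nonempty X := ⟨g 0⟩
  choose! F hF1 hF2 using fun w₀ (hw₀ : w₀ ∈ Ω) => H g w₀ (hg w₀ hw₀)
  have hloc : ∀ w₀ ∈ Ω, ∀ w ∈ Ω, ‖w - w₀‖ ≤ 1 / 2 → F w = F w₀ := by
    intro w₀ h0 w h1 h2
    refine hsep _ (hF1 w h1) _ (hF1 w₀ h0) w fun u hu => ?_
    have a1 := hF2 w h1 u (by linarith)
    have a2 := hF2 w₀ h0 u (by linarith [norm_sub_le_norm_sub_add_norm_sub u w w₀])
    linarith [dist_triangle_left (F w u) (F w₀ u) (g u), min_le_right ε (η / 2)]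
  have hconst : ∀ w ∈ Ω, F w = F w₁ := by
    intro w hw
    refine hΩ.induction₂' (fun a b => F a = F b) (fun a ha => ?_) (fun a b d _ _ _ h1 h2 =>
      h1.trans h2) hw hw₁
    filter_upwards [mem_nhdsWithin_of_mem_nhds (closedBall_mem_nhds a
      (show (0 : ℝ) < 1 / 2 by norm_num)), self_mem_nhdsWithin] with b h1 h2
    have := hloc a ha b h2 (by rwa [mem_closedBall, dist_eq_norm] at h1)
    exact ⟨this.symm, this⟩
  refine ⟨F w₁, hF1 w₁ hw₁, fun w hw => ?_⟩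
  rw [← hconst w hw]
  exact (hF2 w hw w (by simp)).trans_le (min_le_left _ _)

/-- quantitative form of the linearisation -/
lemma lin_q (hF : S.Fib) (C : Cov S) : ∃ R > 0, ∃ ε > 0, ε ≤ C.ε ∧
    ∀ (p q : ℂ → X) (k : ℂ → ℂ) (c w₀ : ℂ), (∀ w, ‖w - w₀‖ ≤ R → S.HolAt p w ∧ S.HolAt q w ∧
      S.π (p w) = S.Λ.mkQ (c + w) ∧ S.π (q w) = S.Λ.mkQ (c + w) ∧ dist (q w) (p w) ≤ ε ∧
      DifferentiableAt ℂ k w ∧ ‖k w‖ * C.D (p w) (q w) ≤ 4) →
    ‖k w₀‖ * C.D (p w₀) (q w₀) < 1 := by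
  by_contra hcon
  push Not at hcon
  choose p q k c w₀ H h1 using fun n : ℕ => hcon ((n : ℝ) + 1) (by positivity)
    (min C.ε (1 / ((n : ℝ) + 1))) (lt_min C.ε_pos (by positivity)) (min_le_left _ _)
  have hev : ∀ R : ℝ, ∀ᶠ n : ℕ in (UU : Filter ℕ), ∀ w, ‖w‖ ≤ R → ‖w₀ n + w - w₀ n‖ ≤ n + 1 :=
    fun R => (ev_UU (tendsto_natCast_atTop_atTop.eventually_ge_atTop R)).mono fun n hn w hw => by
      rw [add_sub_cancel_left]; linarith
  have hs : ∀ n, ∀ w, DifferentiableAt ℂ (fun w => w₀ n + w) w := fun n w => by fun_prop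
  obtain ⟨f, hf, hp⟩ := Srf.exists_sec_limit_loc hF (f := fun n w => p n (w₀ n + w))
    (c := fun n => c n + w₀ n) fun R => (hev R).mono fun n hn w hw =>
      ⟨Srf.HolAt.comp (f := p n) (H n _ (hn w hw)).1 (hs n w),
        by rw [(H n _ (hn w hw)).2.2.1, add_assoc]⟩
  obtain ⟨g, hg, hq⟩ := Srf.exists_sec_limit_loc hF (f := fun n w => q n (w₀ n + w))
    (c := fun n => c n + w₀ n) fun R => (hev R).mono fun n hn w hw =>
      ⟨Srf.HolAt.comp (f := q n) (H n _ (hn w hw)).2.1 (hs n w),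
        by rw [(H n _ (hn w hw)).2.2.2.1, add_assoc]⟩
  have hfg : g = f := by
    funext w
    refine dist_le_zero.1 (le_of_tendsto_of_tendsto ((hq.tendsto w).dist (hp.tendsto w))
      (tendsto_one_div_add_atTop_nhds_zero_nat.mono_left UU_le) ?_)
    exact (hev ‖w‖).mono fun n hn => (H n _ (hn w le_rfl)).2.2.2.2.1.trans (min_le_right _ _)
  subst hfg
  refine linearise hF C (c := fun n w => k n (w₀ n + w)) hf hp hq
    (fun R => (hev R).mono fun n hn w hw => ?_) (Eventually.of_forall fun n => by simpa using h1 n)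
  obtain ⟨a1, a2, a3, a4, _, a5, a6⟩ := H n _ (hn w hw)
  exact ⟨Srf.HolAt.comp (f := p n) a1 (hs n w), Srf.HolAt.comp (f := q n) a2 (hs n w),
    a3.trans a4.symm, DifferentiableAt.comp (g := k n) w a5 (hs n w), a6⟩

/-- decay on a truncated half-plane -/
lemma cap_est (hF : S.Fib) (C : Cov S) : ∃ κ > 0, ∃ R > 0, ∃ ε > 0,
    ∀ (p q : ℂ → X) (c u : ℂ) (a b : ℝ), ‖u‖ = 1 → 2 * R ≤ b →
    (∀ w, a ≤ (starRingEnd ℂ u * w).re → ‖w‖ ≤ b → S.HolAt p w ∧ S.HolAt q w ∧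
      S.π (p w) = S.Λ.mkQ (c + w) ∧ S.π (q w) = S.Λ.mkQ (c + w) ∧ dist (q w) (p w) ≤ ε) →
    0 ≤ a → ∀ w, a ≤ (starRingEnd ℂ u * w).re → ‖w‖ ≤ b → C.D (p w) (q w) *
      Real.exp (κ * b / 4 * ((starRingEnd ℂ u * w).re - a - R) - κ * ‖w‖ ^ 2) ≤ 4 * C.B := by
  obtain ⟨R, hR, ε, hε, hεC, H⟩ := lin_q hF C
  refine ⟨1 / (2 * R ^ 2), by positivity, R, hR, ε, hε, fun p q c u a b hu hb hpq ha => ?_⟩
  set κ := 1 / (2 * R ^ 2) with hκ
  have hκ0 : 0 < κ := by positivity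
  have hB := C.B_pos
  let x : ℂ → ℝ := fun w => (starRingEnd ℂ u * w).re
  have hxle : ∀ w, |x w| ≤ ‖w‖ := fun w =>
    (Complex.abs_re_le_norm _).trans_eq (by rw [norm_mul, Complex.norm_conj, hu, one_mul])
  let Θ : ℂ → ℝ := fun w => κ * b / 4 * (x w - a - R) - κ * ‖w‖ ^ 2
  let E : ℂ → ℝ := fun w => C.D (p w) (q w) * Real.exp (Θ w)
  let Ω := {w | a ≤ x w ∧ ‖w‖ ≤ b}
  have hD : ∀ w ∈ Ω, C.D (p w) (q w) ≤ 2 * C.B := fun w hw =>
    C.D_le ((hpq w hw.1 hw.2).2.2.2.2.trans hεC)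
  have hb0 : 0 < b := by linarith
  have hΘ : ∀ w ∈ Ω, Θ w ≤ κ * b / 4 * b - κ * ‖w‖ ^ 2 := fun w hw => by
    have h1 : x w - a - R ≤ b := by linarith [le_abs_self (x w), hxle w, hw.2]
    simp only [Θ]; gcongr
  have hbdd : BddAbove (E '' Ω) := ⟨2 * C.B * Real.exp (κ * b / 4 * b), by
    rintro _ ⟨w, hw, rfl⟩
    have h1 := hΘ w hw
    have h2 : 0 ≤ κ * ‖w‖ ^ 2 := by positivity
    simp only [E]
    gcongr
    · exact hD w hw
    · linarith⟩
  intro w₁ h1 h2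
  by_contra hcon
  have hle : ∀ w ∈ Ω, E w ≤ sSup (E '' Ω) := fun w hw => le_csSup hbdd (mem_image_of_mem _ hw)
  have h3 : 4 * C.B < sSup (E '' Ω) := (not_le.1 hcon).trans_le (hle w₁ ⟨h1, h2⟩)
  obtain ⟨_, ⟨w₀, hw₀, rfl⟩, h4⟩ := exists_lt_of_lt_csSup (s := E '' Ω) (b := sSup (E '' Ω) / 2)
    ⟨_, mem_image_of_mem _ ⟨h1, h2⟩⟩ (by linarith)
  have h5 : 0 < Θ w₀ := by
    by_contra h6
    have : E w₀ ≤ 2 * C.B * 1 := by
      simp only [E]
      gcongr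
      · exact hD w₀ hw₀
      · exact Real.exp_le_one_iff.2 (not_lt.1 h6)
    linarith
  have h6 : a + R ≤ x w₀ := by
    by_contra h7
    have : κ * b / 4 * (x w₀ - a - R) ≤ 0 :=
      mul_nonpos_of_nonneg_of_nonpos (by positivity) (by linarith)
    have h8 : 0 ≤ κ * ‖w₀‖ ^ 2 := by positivity
    simp only [Θ] at h5
    linarith
  have h7 : ‖w₀‖ ≤ b / 2 := by
    by_contra h8
    have h9 : (b / 2) ^ 2 ≤ ‖w₀‖ ^ 2 := by gcongr; exact (not_le.1 h8).le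
    nlinarith [hΘ w₀ hw₀]
  have hE0 : 0 < E w₀ := by linarith
  have hD0 : 0 < C.D (p w₀) (q w₀) := (C.D_nonneg _ _).lt_of_ne' fun h => by simp [E, h] at hE0
  let G : ℂ → ℂ := fun w => (κ * b / 4 : ℝ) * (starRingEnd ℂ u * (w - w₀)) -
    (2 * κ : ℝ) * (starRingEnd ℂ w₀ * (w - w₀))
  have hG : ∀ w, (G w).re = Θ w - Θ w₀ + κ * ‖w - w₀‖ ^ 2 := fun w => by
    simp only [G, Θ, x, Complex.sub_re, Complex.ofReal_re, Complex.ofReal_im, Complex.sq_norm,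
      Complex.normSq_apply, Complex.mul_re, Complex.conj_re, Complex.conj_im, Complex.sub_im]
    ring
  have hk : ∀ w, ‖Complex.exp (G w) * ((C.D (p w₀) (q w₀))⁻¹ : ℝ)‖ =
      Real.exp (Θ w - Θ w₀ + κ * ‖w - w₀‖ ^ 2) * (C.D (p w₀) (q w₀))⁻¹ := fun w => by
    rw [norm_mul, Complex.norm_exp, Complex.norm_real, Real.norm_of_nonneg (inv_pos.2 hD0).le, hG]
  have := H p q (fun w => Complex.exp (G w) * ((C.D (p w₀) (q w₀))⁻¹ : ℝ)) c w₀ fun w hw => by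
    have b1 : w ∈ Ω := by
      refine ⟨?_, by linarith [norm_sub_norm_le w w₀]⟩
      have : x w = x w₀ + x (w - w₀) := by simp only [x, mul_sub, Complex.sub_re]; ring
      linarith [neg_abs_le (x (w - w₀)), hxle (w - w₀)]
    obtain ⟨a1, a2, a3, a4, a5⟩ := hpq w b1.1 b1.2
    refine ⟨a1, a2, a3, a4, a5, by fun_prop, ?_⟩
    have b2 : Real.exp (κ * ‖w - w₀‖ ^ 2) ≤ 2 := by
      have b3 : κ * ‖w - w₀‖ ^ 2 ≤ 1 / 2 := by
        calc _ ≤ κ * R ^ 2 := by gcongr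
          _ = 1 / 2 := by rw [hκ]; field_simp
      calc _ ≤ Real.exp (1 / 2) := Real.exp_le_exp.2 b3
        _ ≤ 1 / (1 - 1 / 2) := Real.exp_bound_div_one_sub_of_interval (by norm_num) (by norm_num)
        _ = 2 := by norm_num
    have b3 : Real.exp (Θ w - Θ w₀ + κ * ‖w - w₀‖ ^ 2) * (C.D (p w₀) (q w₀))⁻¹ * C.D (p w) (q w) =
        Real.exp (κ * ‖w - w₀‖ ^ 2) * (E w / E w₀) := by
      simp only [E]
      rw [Real.exp_add, Real.exp_sub]
      field_simp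
    have b4 : E w / E w₀ ≤ 2 := by
      rw [div_le_iff₀ hE0]; linarith [hle w b1]
    have b5 : 0 ≤ E w / E w₀ := div_nonneg (mul_nonneg (C.D_nonneg _ _) (Real.exp_pos _).le) hE0.le
    rw [hk, b3]
    nlinarith
  rw [hk] at this
  simp [inv_mul_cancel₀ hD0.ne'] at this

omit [CompactSpace X] in
lemma Cov.lip_unif (C : Cov S) : ∃ L > 0, ∃ δ > 0, ∀ i, ∀ x ∈ C.K i, ∀ y ∈ ball x δ,
    ∀ y' ∈ ball x δ, ‖C.e i y - C.e i y'‖ ≤ L * C.D y y' := by
  have h : ∀ i, ∃ L > 0, ∃ δ > 0, ∀ x ∈ C.K i, ∀ y ∈ ball x δ,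
      ∀ y' ∈ ball x δ, ‖C.e i y - C.e i y'‖ ≤ L * C.D y y' := by
    intro i
    choose L hL V hV _ H using fun x : C.K i => C.lip (C.mem i) (C.sub i x.2)
    obtain ⟨t, ht⟩ := (C.cpt i).elim_nhds_subcover' (fun x hx => interior (V ⟨x, hx⟩))
      (fun x hx => interior_mem_nhds.2 (hV ⟨x, hx⟩))
    obtain ⟨δ, hδ, h1⟩ := lebesgue_number_lemma_of_metric (C.cpt i)
      (c := fun x : t => interior (V x.1)) (fun _ => isOpen_interior)
      (fun x hx => by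
        obtain ⟨y, hy, h⟩ := mem_iUnion₂.1 (ht hx)
        exact mem_iUnion.2 ⟨⟨y, hy⟩, h⟩)
    refine ⟨1 + ∑ x ∈ t, L x, by have := Finset.sum_nonneg (s := t) fun x _ => (hL x).le; linarith,
      δ, hδ, fun x hx y hy y' hy' => ?_⟩
    obtain ⟨j, hj⟩ := h1 x hx
    refine (H j.1 y (interior_subset (hj hy)) y' (interior_subset (hj hy'))).trans ?_
    have := Finset.single_le_sum (f := L) (fun x _ => (hL x).le) j.2
    have := C.D_nonneg y y'
    gcongr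
    linarith
  choose L hL δ hδ H using h
  obtain ⟨L', hL', h1⟩ := exists_bound_fin (fun i B => L i ≤ B) (fun i => ⟨_, le_rfl⟩)
    fun i a b h1 h2 => h2.trans h1
  obtain ⟨δ', hδ', h2⟩ := exists_pos_fin (fun i r => r ≤ δ i) (fun i => ⟨_, hδ i, le_rfl⟩)
    fun i a b _ h1 h2 => h1.trans h2
  refine ⟨L', hL', δ', hδ', fun i x hx y hy y' hy' => (H i x hx y (ball_subset_ball (h2 i) hy) y'
    (ball_subset_ball (h2 i) hy')).trans ?_⟩
  have := C.D_nonneg y y'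
  gcongr
  exact h1 i

/-- truncated chart distance -/
def Cov.Dt (C : Cov S) (η : ℝ) (p q : X) : ℝ := if dist q p ≤ η then C.D p q else 1

omit [CompactSpace X] in
lemma Cov.Dt_nonneg (C : Cov S) (η : ℝ) (p q : X) : 0 ≤ C.Dt η p q := by
  unfold Cov.Dt; split_ifs
  · exact C.D_nonneg _ _
  · exact zero_le_one

omit [CompactSpace X] in
lemma Cov.Dt_le (C : Cov S) {η : ℝ} (hη : η ≤ C.ε) (p q : X) : C.Dt η p q ≤ 4 * C.B + 1 := by
  have := C.B_pos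
  unfold Cov.Dt; split_ifs with h
  · linarith [C.D_le (h.trans hη)]
  · linarith

omit [CompactSpace X] in
lemma Cov.Dt_pos (C : Cov S) {η : ℝ} (hη : η ≤ C.ε) {p q : X} (h : p ≠ q) : 0 < C.Dt η p q := by
  unfold Cov.Dt; split_ifs with h1
  · exact (C.D_nonneg _ _).lt_of_ne' fun h0 => h (C.eq_of_D (h1.trans hη) h0)
  · exact one_pos

lemma max_sphere {F : Type*} [NormedAddCommGroup F] [NormedSpace ℂ F] {f : ℂ → F} {z : ℂ}
    {ρ m : ℝ} (hρ : 0 < ρ) (hd : ∀ ζ ∈ closedBall z ρ, DifferentiableAt ℂ f ζ)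
    (hm : ∀ ζ ∈ sphere z ρ, ‖f ζ‖ ≤ m) {w : ℂ} (hw : w ∈ closedBall z ρ) : ‖f w‖ ≤ m := by
  refine Complex.norm_le_of_forall_mem_frontier_norm_le (U := ball z ρ) isBounded_ball
    (DifferentiableOn.diffContOnCl ?_) (by rwa [frontier_ball z hρ.ne']) ?_
  · rw [closure_ball z hρ.ne']
    exact fun ζ hζ => (hd ζ hζ).differentiableWithinAt
  · rwa [closure_ball z hρ.ne']

omit [CompactSpace X] in
/-- one step of the maximum principle -/
lemma Cov.step (C : Cov S) : ∃ η > 0, η ≤ C.ε ∧ ∃ γ > 0,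
    ∀ (p q : ℂ → X) (H : ℂ → ℂ) (z : ℂ) (ρ m : ℝ), 0 < ρ →
    (∀ ζ ∈ closedBall z ρ, S.HolAt p ζ ∧ S.HolAt q ζ ∧ dist (p ζ) (p z) < η / 4 ∧
      dist (q ζ) (q z) < η / 4 ∧ DifferentiableAt ℂ H ζ) → H z = 0 →
    (∀ ζ ∈ sphere z ρ, C.Dt η (p ζ) (q ζ) * Real.exp (H ζ).re ≤ m) →
    C.Dt η (p z) (q z) ≤ Real.exp γ / 2 * m := by
  obtain ⟨L, hL, δ, hδ, hlip⟩ := C.lip_unif
  have hε := C.ε_pos
  have hB := C.B_pos
  set η := min δ C.ε / 2 with hη
  have hη0 : 0 < η := by positivity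
  have hη1 : 2 * η ≤ δ := by linarith [min_le_left δ C.ε]
  have hη2 : 2 * η ≤ C.ε := by linarith [min_le_right δ C.ε]
  obtain ⟨β, hβ, hsym⟩ := C.symm_uc (half_pos hη0)
  set A := L + 2 * C.B + 1 / β + 1 with hA
  have hA0 : 0 < A := by positivity
  have hA1 : A ≤ Real.exp (2 * A) / 2 := by linarith [Real.add_one_le_exp (2 * A)]
  refine ⟨η, hη0, by linarith, 2 * A, by positivity, fun p q H z ρ m hρ hpq hH hm => ?_⟩
  have hm0 : 0 ≤ m := le_trans (mul_nonneg (C.Dt_nonneg _ _ _) (Real.exp_pos _).le)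
    (hm (z + ρ) (by simp [hρ.le]))
  refine le_trans ?_ (mul_le_mul_of_nonneg_right hA1 hm0)
  by_cases hc : dist (q z) (p z) ≤ η
  · set i := C.idx (p z)
    have h1 : ∀ ζ ∈ closedBall z ρ, dist (p ζ) (p z) < 2 * η ∧ dist (q ζ) (p z) < 2 * η :=
      fun ζ hζ => ⟨by linarith [(hpq ζ hζ).2.2.1],
        by linarith [(hpq ζ hζ).2.2.2.1, dist_triangle (q ζ) (q z) (p z)]⟩
    have h2 : ∀ ζ ∈ closedBall z ρ, p ζ ∈ C.K i ∧ q ζ ∈ C.K i := fun ζ hζ =>
      ⟨C.leb _ (by rw [mem_closedBall]; linarith [(h1 ζ hζ).1]),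
        C.leb _ (by rw [mem_closedBall]; linarith [(h1 ζ hζ).2])⟩
    have h3 := max_sphere (f := fun ζ => Complex.exp (H ζ) • (C.e i (p ζ) - C.e i (q ζ)))
      (m := A * m) hρ (fun ζ hζ => (hpq ζ hζ).2.2.2.2.cexp.smul
        (((hpq ζ hζ).1.2 _ (C.mem i) (C.sub i (h2 ζ hζ).1)).sub
          ((hpq ζ hζ).2.1.2 _ (C.mem i) (C.sub i (h2 ζ hζ).2)))) (fun ζ hζ => by
        have hζ' := sphere_subset_closedBall hζ
        have h4 : ‖C.e i (p ζ) - C.e i (q ζ)‖ ≤ A * C.Dt η (p ζ) (q ζ) := by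
          unfold Cov.Dt; split_ifs
          · refine (hlip i _ (C.mem_K _) _ (lt_of_lt_of_le (h1 ζ hζ').1 hη1) _
              (lt_of_lt_of_le (h1 ζ hζ').2 hη1)).trans ?_
            have := C.D_nonneg (p ζ) (q ζ)
            have : 0 < 1 / β := by positivity
            gcongr; linarith
          · have : 0 < 1 / β := by positivity
            linarith [norm_sub_le (C.e i (p ζ)) (C.e i (q ζ)), C.bd i _ (h2 ζ hζ').1,
              C.bd i _ (h2 ζ hζ').2]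
        rw [norm_smul, Complex.norm_exp]
        calc _ ≤ Real.exp (H ζ).re * (A * C.Dt η (p ζ) (q ζ)) := by gcongr
          _ = A * (C.Dt η (p ζ) (q ζ) * Real.exp (H ζ).re) := by ring
          _ ≤ A * m := by gcongr; exact hm ζ hζ) (mem_closedBall_self hρ.le)
    simpa [hH, Cov.Dt, hc, Cov.D] using h3
  · have h3 := max_sphere (f := fun ζ => Complex.exp (H ζ)) (m := A * m) hρ
      (fun ζ hζ => (hpq ζ hζ).2.2.2.2.cexp) (fun ζ hζ => by
        have hζ' := sphere_subset_closedBall hζ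
        have h4 : 1 ≤ A * C.Dt η (p ζ) (q ζ) := by
          unfold Cov.Dt; split_ifs with h5
          · have h6 : β ≤ C.D (p ζ) (q ζ) := by
              by_contra h7
              have := hsym _ _ (C.mem_K (p ζ)) _ (C.leb (p ζ) (h5.trans (by linarith)))
                (not_le.1 h7)
              have h8 := dist_triangle4 (q z) (q ζ) (p ζ) (p z)
              rw [dist_comm (q z) (q ζ), dist_comm (q ζ) (p ζ)] at h8
              linarith [(hpq ζ hζ').2.2.1, (hpq ζ hζ').2.2.2.1, not_le.1 hc]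
            calc (1 : ℝ) = 1 / β * β := by field_simp
              _ ≤ A * C.D (p ζ) (q ζ) := by gcongr; linarith
          · have : 0 < 1 / β := by positivity
            linarith
        rw [Complex.norm_exp]
        calc _ = 1 * Real.exp (H ζ).re := (one_mul _).symm
          _ ≤ A * C.Dt η (p ζ) (q ζ) * Real.exp (H ζ).re := by gcongr
          _ = A * (C.Dt η (p ζ) (q ζ) * Real.exp (H ζ).re) := by ring
          _ ≤ A * m := by gcongr; exact hm ζ hζ) (mem_closedBall_self hρ.le)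
    simpa [hH, Cov.Dt, hc] using h3

end Pool.Agent.P.MP_7ede32_ag.Ell
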