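import Pool.Agent.P.MP_7ede32_ag.Ell.An

/-!
Vertical curves: the pluricanonical pairing along a curve in a fibre, and the local estimate.
-/

open Filter Topology Metric Set

noncomputable section

namespace Pool.Agent.P.MP_7ede32_ag.Ell

variable {X : Type*} [MetricSpace X]

namespace Srf

variable (S : Srf X)

/-- a chosen chart -/
def ch (x : X) : OpenPartialHomeomorph X E2 := (S.cover x).choose

lemma ch_mem (x : X) : S.ch x ∈ S.A := (S.cover x).choose_spec.1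

lemma mem_ch (x : X) : x ∈ (S.ch x).source := (S.cover x).choose_spec.2

/-- vector of pluricanonical coefficients -/
def av (e : OpenPartialHomeomorph X E2) (y : X) : Fin S.N → ℂ := fun l => S.a l e (e y)

/-- pairing of the forms with the tangent vector of a vertical curve -/
def θ (h : ℂ → X) (ζ : ℂ) : Fin S.N → ℂ :=
  tau (S.dπ (S.ch (h ζ)) (h ζ)) (deriv (S.ch (h ζ) ∘ h) ζ) ^ S.m • S.av (S.ch (h ζ)) (h ζ)

variable {S}

lemma av_compat {x : X} {e e' : OpenPartialHomeomorph X E2} (he : e ∈ S.A) (he' : e' ∈ S.A)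
    (hx : x ∈ e.source) (hx' : x ∈ e'.source) :
    S.av e x = jac (fderiv ℂ (e' ∘ e.symm) (e x)) ^ S.m • S.av e' x := by
  funext l
  simp only [av, Pi.smul_apply, smul_eq_mul]
  rw [S.a_compat l e he e' he' x hx hx', mul_comm]

lemma anAt_av {x : X} {e : OpenPartialHomeomorph X E2} (he : e ∈ S.A) (hx : x ∈ e.source) :
    S.AnAt (S.av e) x := by
  refine anAt_of_chart he hx ?_
  have h1 : AnalyticAt ℂ (fun u l => S.a l e u) (e x) :=
    AnalyticAt.pi fun l => S.a_an l e he x hx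
  refine h1.congr ?_
  filter_upwards [e.open_target.mem_nhds (e.map_source hx)] with u hu
  funext l
  simp [av, e.right_inv hu]

lemma av_ne_zero {x : X} {e : OpenPartialHomeomorph X E2} (he : e ∈ S.A) (hx : x ∈ e.source) :
    S.av e x ≠ 0 := by
  obtain ⟨l, hl⟩ := S.bpf e he x hx
  exact fun h => hl (congrFun h l)

lemma eq_of_av {x y : X} {e e' : OpenPartialHomeomorph X E2} (he : e ∈ S.A) (he' : e' ∈ S.A)
    (hx : x ∈ e.source) (hy : y ∈ e'.source) {c : ℂ} (h : S.av e x = c • S.av e' y) : x = y :=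
  S.inj e he e' he' x hx y hy c fun l => congrFun h l

lemma dπ_ne_zero {x : X} (h : ¬ S.Crit x) {e : OpenPartialHomeomorph X E2} (he : e ∈ S.A)
    (hx : x ∈ e.source) : S.dπ e x ≠ 0 := fun h0 => h (crit_of_chart he hx h0)

lemma vert_deriv {h : ℂ → X} {s : ℂ ⧸ S.Λ} (hh : S.Hol h) (hv : ∀ z, S.π (h z) = s) {ζ : ℂ}
    {e : OpenPartialHomeomorph X E2} (he : e ∈ S.A) (hx : h ζ ∈ e.source) :
    S.dπ e (h ζ) (deriv (e ∘ h) ζ) = 0 := by
  obtain ⟨c, rfl⟩ := S.Λ.mkQ_surjective s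
  exact dπ_deriv (hh ζ) (hasDerivAt_const ζ c) (Eventually.of_forall hv) he hx

lemma θ_eq {h : ℂ → X} {s : ℂ ⧸ S.Λ} (hh : S.Hol h) (hv : ∀ z, S.π (h z) = s) {ζ : ℂ}
    (hc : ¬ S.Crit (h ζ)) {e : OpenPartialHomeomorph X E2} (he : e ∈ S.A) (hx : h ζ ∈ e.source) :
    S.θ h ζ = tau (S.dπ e (h ζ)) (deriv (e ∘ h) ζ) ^ S.m • S.av e (h ζ) := by
  have h1 := dπ_trans he (S.ch_mem (h ζ)) hx (S.mem_ch _)
  have h2 := deriv_trans (hh ζ) he (S.ch_mem (h ζ)) hx (S.mem_ch _)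
  have h3 := vert_deriv hh hv (S.ch_mem (h ζ)) (S.mem_ch _)
  rw [θ, av_compat he (S.ch_mem (h ζ)) hx (S.mem_ch _), h2, tau_comp, ← h1, smul_smul, mul_pow,
    mul_comm]
  · rw [← h1]; exact dπ_ne_zero hc he hx
  · rw [← h2]; exact h3

lemma θ_differentiableAt {h : ℂ → X} {s : ℂ ⧸ S.Λ} (hh : S.Hol h) (hv : ∀ z, S.π (h z) = s)
    {ζ : ℂ} (hc : ¬ S.Crit (h ζ)) : DifferentiableAt ℂ (S.θ h) ζ := by
  obtain ⟨e, he, hx⟩ := S.cover (h ζ)
  obtain ⟨w, hw⟩ := exists_apply_ne_zero (dπ_ne_zero hc he hx)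
  have h1 : DifferentiableAt ℂ (fun z => S.dπ e (h z) w) ζ :=
    ((anAt_dπ he hx).differentiableAt (hh ζ)).clm_apply (differentiableAt_const w)
  have h2 : DifferentiableAt ℂ (deriv (e ∘ h)) ζ := (hh.analyticAt he hx).deriv.differentiableAt
  have h3 : DifferentiableAt ℂ (fun z => S.av e (h z)) ζ := (anAt_av he hx).differentiableAt (hh ζ)
  have h4 : DifferentiableAt ℂ
      (fun z => (det2 (deriv (e ∘ h) z) w / S.dπ e (h z) w) ^ S.m • S.av e (h z)) ζ := by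
    refine DifferentiableAt.smul (DifferentiableAt.pow (DifferentiableAt.div ?_ h1 hw) _) h3
    exact (h2.fst.mul_const _).sub (h2.snd.mul_const _)
  refine h4.congr_of_eventuallyEq ?_
  filter_upwards [eventually_mem_source (hh ζ).1 hx, h1.continuousAt.eventually_ne hw,
    (hh ζ).1.eventually (isOpen_not_crit.mem_nhds hc)] with z a1 a2 a3
  rw [θ_eq hh hv a3 he a1, tau_spec (dπ_ne_zero a3 he a1) (vert_deriv hh hv he a1) w,
    mul_div_cancel_right₀ _ a2]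

lemma NodeAt.crit {x : X} {e : OpenPartialHomeomorph X E2} {c : ℂ} (h : S.NodeAt x e c) :
    S.Crit x := by
  refine crit_of_chart h.1 h.2.1 (ContinuousLinearMap.ext fun u => ?_)
  rw [h.dπ_eq.self_of_nhds u, h.2.2.1]; simp

lemma eventually_norm_sub_le {x : X} {e : OpenPartialHomeomorph X E2} (hx : x ∈ e.source)
    {β : ℝ} (hβ : 0 < β) : ∀ᶠ y in 𝓝 x, ‖e y - e x‖ ≤ β := by
  filter_upwards [Metric.tendsto_nhds.1 (e.continuousAt hx) β hβ] with y hy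
  rw [← dist_eq_norm]; exact hy.le

lemma deriv_le_of_small {h : ℂ → X} (hh : S.Hol h) {e : OpenPartialHomeomorph X E2} (he : e ∈ S.A)
    {ζ : ℂ} {r β : ℝ} {u : E2} (hr : 0 < r)
    (H : ∀ ξ ∈ ball ζ r, h ξ ∈ e.source ∧ ‖e (h ξ) - u‖ ≤ β) :
    ‖deriv (e ∘ h) ζ‖ ≤ 2 * β / r := by
  refine Complex.norm_deriv_le_div_of_mapsTo_ball
    (fun ξ hξ => ((hh ξ).2 e he (H ξ hξ).1).differentiableWithinAt) (fun ξ hξ => ?_) hr
  rw [mem_closedBall]
  have a1 := (H ξ hξ).2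
  have a2 := (H ζ (mem_ball_self hr)).2
  rw [← dist_eq_norm] at a1 a2
  have := dist_triangle_right (e (h ξ)) (e (h ζ)) u
  simp only [Function.comp]
  linarith

/-- local estimate at a regular point -/
lemma est_reg {h : ℂ → X} {s : ℂ ⧸ S.Λ} (hh : S.Hol h) (hv : ∀ z, S.π (h z) = s) {q : X}
    (hq : ¬ S.Crit q) {F : Type*} [NormedAddCommGroup F] [NormedSpace ℂ F]
    {Ψ : OpenPartialHomeomorph X E2 → X → F} (hΨ : ∀ e ∈ S.A, q ∈ e.source → S.AnAt (Ψ e) q)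
    {M : ℕ} (hM : 0 < M) {κ : ℝ} (hκ : 0 < κ) :
    ∃ e ∈ S.A, ∃ V ∈ 𝓝 q, V ⊆ e.source ∧ ∀ ζ r, 0 < r →
      (∀ ξ ∈ ball ζ r, h ξ ∈ V ∧ ¬ S.Crit (h ξ)) →
      ‖tau (S.dπ e (h ζ)) (deriv (e ∘ h) ζ) ^ M • Ψ e (h ζ)‖ * r ^ M ≤ κ := by
  obtain ⟨e, he, hx⟩ := S.cover q
  obtain ⟨w, hw⟩ := exists_apply_ne_zero (dπ_ne_zero hq he hx)
  set c := ‖S.dπ e q w‖ / 2 with hc
  have hcpos : 0 < c := half_pos (norm_pos_iff.2 hw)
  set B := ‖Ψ e q‖ + 1 with hB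
  have hBpos : 0 < B := by positivity
  have h1 : ∀ᶠ y in 𝓝 q, c < ‖S.dπ e y w‖ := by
    have : ContinuousAt (fun y => ‖S.dπ e y w‖) q :=
      ((anAt_dπ he hx).continuousAt.clm_apply continuousAt_const).norm
    exact this.eventually (lt_mem_nhds (by linarith))
  have h2 : ∀ᶠ y in 𝓝 q, ‖Ψ e y‖ < B :=
    (hΨ e he hx).continuousAt.norm.eventually (gt_mem_nhds (by linarith))
  set t := min 1 (κ / B) with ht
  have htpos : 0 < t := by positivity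
  set β := t * c / (4 * ‖w‖ + 1) with hβ
  have hβpos : 0 < β := by positivity
  refine ⟨e, he, _, inter_mem (e.open_source.mem_nhds hx)
    (h1.and (h2.and (eventually_norm_sub_le hx hβpos))), inter_subset_left, ?_⟩
  intro ζ r hr H
  have hζ := H ζ (mem_ball_self hr)
  have h3 := deriv_le_of_small hh he hr (fun ξ hξ => ⟨(H ξ hξ).1.1, (H ξ hξ).1.2.2.2⟩)
  have h4 := tau_spec (dπ_ne_zero hζ.2 he hζ.1.1) (vert_deriv hh hv he hζ.1.1) w
  have h5 := norm_det2_le (deriv (e ∘ h) ζ) w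
  rw [h4, norm_mul] at h5
  set τ := tau (S.dπ e (h ζ)) (deriv (e ∘ h) ζ)
  have h6 : ‖τ‖ * r ≤ t := by
    have a1 : ‖τ‖ * c ≤ 2 * (2 * β / r) * ‖w‖ := by
      calc ‖τ‖ * c ≤ ‖τ‖ * ‖S.dπ e (h ζ) w‖ := by gcongr; exact hζ.1.2.1.le
        _ ≤ 2 * ‖deriv (e ∘ h) ζ‖ * ‖w‖ := h5
        _ ≤ _ := by gcongr
    have a2 : ‖τ‖ * r * c ≤ t * c := by
      calc ‖τ‖ * r * c = (‖τ‖ * c) * r := by ring
        _ ≤ 2 * (2 * β / r) * ‖w‖ * r := by gcongr
        _ = t * c * (4 * ‖w‖ / (4 * ‖w‖ + 1)) := by rw [hβ]; field_simp; ring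
        _ ≤ t * c * 1 := by
          gcongr
          rw [div_le_one (by positivity)]; linarith
        _ = t * c := mul_one _
    exact le_of_mul_le_mul_right a2 hcpos
  rw [norm_smul, norm_pow, mul_right_comm, ← mul_pow]
  calc (‖τ‖ * r) ^ M * ‖Ψ e (h ζ)‖ ≤ t ^ M * B := by gcongr; exact hζ.1.2.2.1.le
    _ ≤ t * B := by
        gcongr
        exact pow_le_of_le_one htpos.le (min_le_left _ _) hM.ne'
    _ ≤ κ / B * B := by gcongr; exact min_le_right _ _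
    _ = κ := by field_simp

/-- local estimate at a node -/
lemma est_node {h : ℂ → X} {s : ℂ ⧸ S.Λ} (hh : S.Hol h) (hv : ∀ z, S.π (h z) = s) {q : X}
    (hqs : S.π q = s) (hq : S.Node q) {F : Type*} [NormedAddCommGroup F] [NormedSpace ℂ F]
    {Ψ : OpenPartialHomeomorph X E2 → X → F} (hΨ : ∀ e ∈ S.A, q ∈ e.source → S.AnAt (Ψ e) q)
    (hΨ0 : ∀ e ∈ S.A, q ∈ e.source → Ψ e q = 0) (M : ℕ) {κ : ℝ} (hκ : 0 < κ) :
    ∃ e ∈ S.A, ∃ V ∈ 𝓝 q, V ⊆ e.source ∧ ∀ ζ r, 0 < r →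
      (∀ ξ ∈ ball ζ r, h ξ ∈ V ∧ ¬ S.Crit (h ξ)) →
      ‖tau (S.dπ e (h ζ)) (deriv (e ∘ h) ζ) ^ M • Ψ e (h ζ)‖ * r ^ M ≤ κ := by
  obtain ⟨e, c, hn⟩ := hq
  have he := hn.1
  have hx := hn.2.1
  have he0 := hn.2.2.1
  obtain ⟨L, hL, h1⟩ := ((hΨ e he hx e he hx).differentiableAt.isBigO_sub).exists_pos
  have h2 : ∀ᶠ y in 𝓝 q, ‖Ψ e y‖ ≤ L * ‖e y‖ := by
    filter_upwards [(e.continuousAt hx).eventually h1.bound, e.open_source.mem_nhds hx] with y a1 a2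
    rw [he0] at a1
    simp only [Function.comp, e.left_inv a2, sub_zero] at a1
    rwa [← he0, e.left_inv hx, hΨ0 e he hx, sub_zero] at a1
  obtain ⟨ρ, hρ, hΛ⟩ := S.disc
  have h3 : ∀ᶠ y in 𝓝 q, ‖(e y).1 * (e y).2‖ < ρ := by
    have : ContinuousAt (fun y => ‖(e y).1 * (e y).2‖) q :=
      ((e.continuousAt hx).fst.mul (e.continuousAt hx).snd).norm
    exact this.eventually (gt_mem_nhds (by simpa [he0] using hρ))
  set γ := min 1 (κ / (L * (2 * (M + 1)) ^ M)) with hγ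
  have hγpos : 0 < γ := by positivity
  have hγ1 : γ ≤ 1 := min_le_left _ _
  have h4 := eventually_norm_sub_le hx (pow_pos hγpos (M + 1))
  refine ⟨e, he, _, inter_mem (e.open_source.mem_nhds hx)
    (h2.and (h3.and (h4.and (hn.2.2.2.and hn.dπ_eq)))), inter_subset_left, ?_⟩
  intro ζ r hr H
  have hζ := mem_ball_self (x := ζ) hr
  have hc : S.Λ.mkQ c = s := by
    have := hn.2.2.2.self_of_nhds
    rw [he0] at this
    simpa [hqs] using this.symm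
  have hd : DifferentiableOn ℂ (e ∘ h) (ball ζ r) :=
    fun ξ hξ => ((hh ξ).2 e he (H ξ hξ).1.1).differentiableWithinAt
  have hda := (hd.differentiableAt (isOpen_ball.mem_nhds hζ)).hasDerivAt
  have hb : ∀ ξ ∈ ball ζ r, ‖e (h ξ)‖ ≤ γ ^ (M + 1) := fun ξ hξ => by
    simpa [he0] using (H ξ hξ).1.2.2.2.1
  have hdich := mul_zero_dichotomy (x := fun ξ => (e (h ξ)).1) (y := fun ξ => (e (h ξ)).2)
    hd.continuousOn.fst hd.continuousOn.snd (fun ξ hξ => by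
      apply hΛ _ _ (H ξ hξ).1.2.2.1
      have := (H ξ hξ).1.2.2.2.2.1
      rw [hv, ← hc, eq_comm, mk_eq_iff] at this
      simpa using this) (fun ξ hξ => by
      by_contra hcon
      push Not at hcon
      apply (H ξ hξ).2
      have : h ξ = q := e.injOn (H ξ hξ).1.1 hx (by rw [he0]; exact Prod.ext hcon.1 hcon.2)
      rw [this]; exact hn.crit)
  have hts := tau_spec (dπ_ne_zero (H ζ hζ).2 he (H ζ hζ).1.1) (vert_deriv hh hv he (H ζ hζ).1.1)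
  have hℓ := (H ζ hζ).1.2.2.2.2.2
  have hΨb := (H ζ hζ).1.2.1
  set τ := tau (S.dπ e (h ζ)) (deriv (e ∘ h) ζ)
  have key : ‖e (h ζ)‖ * (‖τ‖ * r) ^ M ≤ (2 * (M + 1)) ^ M * γ := by
    rcases hdich with hA | hA
    · have a1 := root_bound (f := fun ξ => (e (h ξ)).1) M hr hγpos hγ1 hd.fst
        (fun ξ hξ => (hA ξ hξ).1) (fun ξ hξ => (norm_fst_le _).trans (hb ξ hξ))
      have a2 : deriv (fun ξ => (e (h ξ)).1) ζ = (deriv (e ∘ h) ζ).1 :=
        ((ContinuousLinearMap.fst ℂ ℂ ℂ).hasFDerivAt.comp_hasDerivAt ζ hda).deriv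
      have a3 := hts (0, 1)
      rw [hℓ] at a3
      simp only [det2, mul_one, mul_zero, sub_zero, add_zero] at a3
      rw [a2, a3, mul_div_cancel_right₀ _ (hA ζ hζ).1] at a1
      have a4 : ‖e (h ζ)‖ = ‖(e (h ζ)).1‖ := by rw [Prod.norm_def, (hA ζ hζ).2]; simp
      rwa [a4]
    · have a1 := root_bound (f := fun ξ => (e (h ξ)).2) M hr hγpos hγ1 hd.snd
        (fun ξ hξ => (hA ξ hξ).1) (fun ξ hξ => (norm_snd_le _).trans (hb ξ hξ))
      have a2 : deriv (fun ξ => (e (h ξ)).2) ζ = (deriv (e ∘ h) ζ).2 :=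
        ((ContinuousLinearMap.snd ℂ ℂ ℂ).hasFDerivAt.comp_hasDerivAt ζ hda).deriv
      have a3 := hts (1, 0)
      rw [hℓ] at a3
      simp only [det2, mul_one, mul_zero, zero_sub, zero_add] at a3
      rw [a2, neg_eq_iff_eq_neg.1 a3, neg_div, norm_neg, mul_div_cancel_right₀ _ (hA ζ hζ).1] at a1
      have a4 : ‖e (h ζ)‖ = ‖(e (h ζ)).2‖ := by rw [Prod.norm_def, (hA ζ hζ).2]; simp
      rwa [a4]
  rw [norm_smul, norm_pow, mul_right_comm, ← mul_pow]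
  calc (‖τ‖ * r) ^ M * ‖Ψ e (h ζ)‖ ≤ (‖τ‖ * r) ^ M * (L * ‖e (h ζ)‖) := by gcongr
    _ = L * (‖e (h ζ)‖ * (‖τ‖ * r) ^ M) := by ring
    _ ≤ L * ((2 * (M + 1)) ^ M * γ) := by gcongr
    _ ≤ L * ((2 * (M + 1)) ^ M * (κ / (L * (2 * (M + 1)) ^ M))) := by
        gcongr; exact min_le_right _ _
    _ = κ := by field_simp

end Srf

end Pool.Agent.P.MP_7ede32_ag.Ell
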