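import Pool.Agent.P.MP_7ede32_ag.Ell.Vert

/-!
A Brody curve in a nodal fibre that meets the nodes at most once is constant.
-/

open Filter Topology Metric Set

noncomputable section

namespace Pool.Agent.P.MP_7ede32_ag.Ell

lemma exists_form {N : ℕ} {u w : Fin N → ℂ} (hu : u ≠ 0) (h : ∀ c : ℂ, w ≠ c • u) :
    ∃ L : (Fin N → ℂ) →L[ℂ] ℂ, L u = 0 ∧ L w ≠ 0 := by
  obtain ⟨i, hi⟩ := Function.ne_iff.1 hu
  have hi' : u i ≠ 0 := hi
  by_contra hcon
  push Not at hcon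
  apply h (w i / u i)
  funext j
  have := hcon (u i • ContinuousLinearMap.proj j - u j • ContinuousLinearMap.proj i)
    (by simp [mul_comm])
  simp only [sub_apply, smul_apply,
    ContinuousLinearMap.proj_apply, smul_eq_mul] at this
  simp only [Pi.smul_apply, smul_eq_mul]
  field_simp
  linear_combination this

variable {X : Type*} [MetricSpace X]

namespace Srf

variable {S : Srf X}

lemma isClosed_fib (s : ℂ ⧸ S.Λ) : IsClosed {x | S.π x = s} := by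
  refine isClosed_of_closure_subset fun x hx => ?_
  obtain ⟨p, hp, hlim⟩ := mem_closure_iff_seq_limit.1 hx
  have := π_lim (S := S) (U := atTop) (q := fun _ => p 0) (c := fun _ => 0) hlim tendsto_const_nhds
    tendsto_const_nhds (Eventually.of_forall fun n => by
      rw [hp n, hp 0]; simp)
  rw [mem_ofPred_eq, this, hp 0]; simp

lemma crit_isolated {x : X} (h : S.Crit x → S.Node x) : ∀ᶠ y in 𝓝 x, S.Crit y → y = x := by
  by_cases hx : S.Crit x
  · obtain ⟨e, c, hn⟩ := h hx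
    exact hn.not_crit
  · filter_upwards [isOpen_not_crit.mem_nhds hx] with y h1 h2 using absurd h2 h1

lemma finite_crit [CompactSpace X] {s : ℂ ⧸ S.Λ} (hnod : ∀ x, S.π x = s → S.Crit x → S.Node x) :
    {x | S.π x = s ∧ S.Crit x}.Finite := by
  obtain ⟨t, _, ht⟩ := (isClosed_fib s).isCompact.elim_nhds_subcover
    (fun x => {y | S.Crit y → y = x}) (fun x hx => crit_isolated (hnod x hx))
  refine t.finite_toSet.subset fun x hx => ?_
  obtain ⟨y, hy, h⟩ := mem_iUnion₂.1 (ht hx.1)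
  rw [h hx.2]; exact hy

lemma exists_deriv_ne_zero {h : ℂ → X} (hh : S.Hol h) (hn : ¬ ∀ z, h z = h 0) (ζs : ℂ) :
    ∃ ζ ≠ ζs, deriv (S.ch (h ζ) ∘ h) ζ ≠ 0 := by
  by_contra hcon
  push Not at hcon
  apply hn
  obtain ⟨e, he, hx⟩ := S.cover (h (ζs + 1))
  obtain ⟨r, hr, h1⟩ := Metric.eventually_nhds_iff_ball.1 ((eventually_mem_source (hh _).1 hx).and
    (isOpen_ne.mem_nhds (show ζs + 1 ≠ ζs by simp)))
  have h2 : ∀ w ∈ ball (ζs + 1) r, h w = h (ζs + 1) := by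
    intro w hw
    refine e.injOn (h1 w hw).1 hx ?_
    refine const_of_deriv_ball (f := e ∘ h)
      (fun u hu => ((hh u).2 e he (h1 u hu).1).differentiableWithinAt) (fun u hu => ?_) hw
      (mem_ball_self hr)
    rw [deriv_trans (hh u) (S.ch_mem (h u)) he (S.mem_ch _) (h1 u hu).1, hcon u (h1 u hu).2,
      map_zero]
  have h3 := hh.eq_of_eventually (hol_const (h (ζs + 1))) (z₀ := ζs + 1)
    (Metric.eventually_nhds_iff_ball.2 ⟨r, hr, h2⟩)
  intro z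
  rw [congrFun h3 z, congrFun h3 0]

theorem vert_const [CompactSpace X] {h : ℂ → X} {s : ℂ ⧸ S.Λ} (hh : S.Hol h)
    (huc : UniformContinuous h) (hv : ∀ z, S.π (h z) = s)
    (hnod : ∀ x, S.π x = s → S.Crit x → S.Node x) {ζs : ℂ} (hone : ∀ ζ ≠ ζs, ¬ S.Crit (h ζ)) :
    ∀ z, h z = h 0 := by
  classical
  by_contra hn
  obtain ⟨ζ₁, hζ₁, hd₁⟩ := exists_deriv_ne_zero hh hn ζs
  set T := (finite_crit hnod).toFinset with hT
  have hTm : ∀ p, p ∈ T ↔ S.π p = s ∧ S.Crit p := fun p => by simp [hT]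
  have hL : ∀ p, ∃ L : (Fin S.N → ℂ) →L[ℂ] ℂ, p ∈ T →
      L (S.av (S.ch p) p) = 0 ∧ L (S.av (S.ch (h ζ₁)) (h ζ₁)) ≠ 0 := by
    intro p
    by_cases hp : p ∈ T
    · obtain ⟨L, hL⟩ := exists_form (av_ne_zero (S.ch_mem p) (S.mem_ch p))
        (w := S.av (S.ch (h ζ₁)) (h ζ₁)) (fun c hc => hone ζ₁ hζ₁ (by
          rw [eq_of_av (S.ch_mem _) (S.ch_mem p) (S.mem_ch _) (S.mem_ch p) hc]
          exact ((hTm p).1 hp).2))
      exact ⟨L, fun _ => hL⟩
    · exact ⟨0, fun h => absurd h hp⟩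
  choose L hL using hL
  let Ψ : OpenPartialHomeomorph X E2 → X → (Fin S.N → ℂ) :=
    fun e y => (∏ p ∈ T, L p (S.av e y)) • S.av e y
  let Φ : ℂ → (Fin S.N → ℂ) := fun ζ => (∏ p ∈ T, L p (S.θ h ζ)) • S.θ h ζ
  set M := S.m * (T.card + 1) with hM
  have hMpos : 0 < M := Nat.mul_pos S.m_pos (Nat.succ_pos _)
  have hΦΨ : ∀ ζ, ¬ S.Crit (h ζ) → ∀ e ∈ S.A, h ζ ∈ e.source →
      Φ ζ = tau (S.dπ e (h ζ)) (deriv (e ∘ h) ζ) ^ M • Ψ e (h ζ) := by
    intro ζ hc e he hx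
    simp only [Φ, Ψ, θ_eq hh hv hc he hx, map_smul, smul_eq_mul, Finset.prod_mul_distrib,
      Finset.prod_const, smul_smul, hM]
    congr 1
    ring
  have hΨ : ∀ q, ∀ e ∈ S.A, q ∈ e.source → S.AnAt (Ψ e) q := by
    intro q e he hx e' he' hx'
    have h1 := anAt_av he hx e' he' hx'
    exact (Finset.analyticAt_fun_prod T fun p _ => ((L p).analyticAt _).comp h1).smul h1
  have hLE : ∀ q, S.π q = s → ∀ κ > 0, ∃ V ∈ 𝓝 q, ∀ ζ r, 0 < r →
      (∀ ξ ∈ ball ζ r, h ξ ∈ V ∧ ¬ S.Crit (h ξ)) → ‖Φ ζ‖ * r ^ M ≤ κ := by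
    intro q hq κ hκ
    have : ∃ e ∈ S.A, ∃ V ∈ 𝓝 q, V ⊆ e.source ∧ ∀ ζ r, 0 < r →
        (∀ ξ ∈ ball ζ r, h ξ ∈ V ∧ ¬ S.Crit (h ξ)) →
        ‖tau (S.dπ e (h ζ)) (deriv (e ∘ h) ζ) ^ M • Ψ e (h ζ)‖ * r ^ M ≤ κ := by
      by_cases hc : S.Crit q
      · refine est_node hh hv hq (hnod q hq hc) (hΨ q) (fun e he hx => ?_) M hκ
        have hqT := (hTm q).2 ⟨hq, hc⟩
        simp only [Ψ]
        rw [Finset.prod_eq_zero hqT, zero_smul]
        rw [av_compat he (S.ch_mem q) hx (S.mem_ch q), map_smul, (hL q hqT).1, smul_zero]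
      · exact est_reg hh hv hc (hΨ q) hMpos hκ
    obtain ⟨e, he, V, hV, hVe, H⟩ := this
    refine ⟨V, hV, fun ζ r hr H' => ?_⟩
    have := H' ζ (mem_ball_self hr)
    rw [hΦΨ ζ this.2 e he (hVe this.1)]
    exact H ζ r hr H'
  have hΦd : ∀ ζ ≠ ζs, DifferentiableAt ℂ Φ ζ := by
    intro ζ hζ
    have h1 := θ_differentiableAt hh hv (hone ζ hζ)
    exact (DifferentiableAt.fun_finsetProd fun p _ => (L p).differentiableAt.comp ζ h1).smul h1
  have hΦ1 : Φ ζ₁ ≠ 0 := by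
    rw [hΦΨ ζ₁ (hone ζ₁ hζ₁) _ (S.ch_mem _) (S.mem_ch _)]
    refine smul_ne_zero (pow_ne_zero _ fun h0 => hd₁ ?_) (smul_ne_zero ?_ ?_)
    · exact eq_zero_of_tau (dπ_ne_zero (hone ζ₁ hζ₁) (S.ch_mem _) (S.mem_ch _))
        (vert_deriv hh hv (S.ch_mem _) (S.mem_ch _)) h0
    · exact Finset.prod_ne_zero_iff.2 fun p hp => (hL p hp).2
    · exact av_ne_zero (S.ch_mem _) (S.mem_ch _)
  -- the entire function
  let P : ℂ → (Fin S.N → ℂ) := fun ζ => (ζ - ζs) ^ M • Φ ζ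
  have hPsmall : ∀ (q : X) (U : Filter ℂ), S.π q = s →
      (∀ V ∈ 𝓝 q, ∀ᶠ ζ in U, ∀ ξ ∈ ball ζ (‖ζ - ζs‖ / 2), h ξ ∈ V) → Tendsto P U (𝓝 0) := by
    intro q U hq hU
    rw [NormedAddGroup.tendsto_nhds_zero]
    intro ε hε
    obtain ⟨V, hV, H⟩ := hLE q hq (ε / 2 / 2 ^ M) (by positivity)
    filter_upwards [hU V hV] with ζ hζ
    by_cases h0 : ζ = ζs
    · simp [P, h0, hMpos.ne', hε]
    have h1 : 0 < ‖ζ - ζs‖ := norm_pos_iff.2 (sub_ne_zero.2 h0)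
    have h2 := H ζ _ (half_pos h1) (fun ξ hξ => ⟨hζ ξ hξ, hone ξ (by
      rintro rfl
      rw [mem_ball, dist_comm, dist_eq_norm] at hξ
      linarith)⟩)
    rw [div_pow, ← mul_div_assoc, div_le_div_iff_of_pos_right (by positivity)] at h2
    simp only [P, norm_smul, norm_pow]
    linarith
  have hPd : Differentiable ℂ P := by
    have h1 : ∀ ζ ≠ ζs, DifferentiableAt ℂ P ζ := fun ζ hζ =>
      DifferentiableAt.smul (c := fun ζ : ℂ => (ζ - ζs) ^ M) (by fun_prop) (hΦd ζ hζ)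
    intro ζ
    by_cases h0 : ζ = ζs
    · subst h0
      refine (Complex.analyticAt_of_differentiable_on_punctured_nhds_of_continuousAt
        (eventually_nhdsWithin_of_forall h1) ?_).differentiableAt
      have h2 : P ζ = 0 := by simp [P, hMpos.ne']
      rw [ContinuousAt, h2]
      refine hPsmall (h ζ) _ (hv ζ) fun V hV => ?_
      obtain ⟨r, hr, h3⟩ := Metric.eventually_nhds_iff_ball.1 ((hh ζ).1.eventually hV)
      filter_upwards [ball_mem_nhds ζ (half_pos hr)] with u hu ξ hξ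
      apply h3
      rw [mem_ball] at hu hξ ⊢
      rw [← dist_eq_norm] at hξ
      linarith [dist_triangle ξ u ζ]
    · exact h1 ζ h0
  have hP1 : ¬ Tendsto P (cocompact ℂ) (𝓝 0) := fun h0 =>
    smul_ne_zero (pow_ne_zero M (sub_ne_zero.2 hζ₁)) hΦ1 (hPd.apply_eq_of_tendsto_cocompact ζ₁ h0)
  -- boundedness near infinity
  have hbd : ∃ B, ∀ ζ, ‖ζs‖ + 1 < ‖ζ‖ → ‖Φ ζ‖ ≤ B := by
    choose V hV H using fun q : {x // S.π x = s} => hLE q.1 q.2 1 one_pos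
    obtain ⟨δ, hδ, h1⟩ := lebesgue_number_lemma_of_metric (isClosed_fib s).isCompact
      (c := fun q => interior (V q)) (fun _ => isOpen_interior)
      (fun x hx => mem_iUnion.2 ⟨⟨x, hx⟩, mem_interior_iff_mem_nhds.2 (hV ⟨x, hx⟩)⟩)
    obtain ⟨r, hr, h2⟩ := Metric.uniformContinuous_iff.1 huc δ hδ
    have hr' : 0 < min r 1 := by positivity
    refine ⟨1 / min r 1 ^ M, fun ζ hζ => ?_⟩
    obtain ⟨q, hq⟩ := h1 (h ζ) (hv ζ)
    rw [le_div_iff₀ (by positivity)]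
    refine H q ζ _ hr' fun ξ hξ => ⟨interior_subset (hq (h2 (lt_of_lt_of_le hξ (min_le_left _ _)))),
      hone ξ ?_⟩
    rintro rfl
    have : dist ξ ζ < 1 := lt_of_lt_of_le hξ (min_le_right _ _)
    rw [dist_comm, dist_eq_norm] at this
    linarith [norm_sub_norm_le ζ ξ]
  obtain ⟨B, hB⟩ := hbd
  obtain ⟨n, G, v, hv0, hG, hGeq⟩ := expansion_at_infty (Φ := Φ) (R := ‖ζs‖ + 1) (by positivity)
    (fun z hz => hΦd z (by rintro rfl; linarith)) hB (fun h0 => hP1 (by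
      refine tendsto_const_nhds.congr' ?_
      filter_upwards [h0] with z hz
      simp [P, hz]))
  obtain ⟨l₀, hl₀⟩ := Function.ne_iff.1 hv0
  have hl₀' : v l₀ ≠ 0 := hl₀
  have hclu : ∀ q, MapClusterPt q (cocompact ℂ) h →
      S.av (S.ch q) q = (S.av (S.ch q) q l₀ / v l₀) • v := by
    intro q hq
    obtain ⟨U, hU, hq⟩ := mapClusterPt_iff_ultrafilter.1 hq
    have h1 := (anAt_av (S.ch_mem q) (S.mem_ch q)).continuousAt.tendsto.comp hq
    have h2 := hG.mono_left hU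
    have h3 : ∀ᶠ ζ in (U : Filter ℂ),
        G ζ l₀ • S.av (S.ch q) (h ζ) = S.av (S.ch q) (h ζ) l₀ • G ζ := by
      filter_upwards [hU hGeq, hU (cocompact_norm ‖ζs‖), hU (cocompact_norm 0),
        hq.eventually ((S.ch q).open_source.mem_nhds (S.mem_ch q)),
        (tendsto_pi_nhds.1 h2 l₀).eventually_ne hl₀'] with ζ a1 a2 a3 a4 a5
      have a6 : ζ ≠ ζs := by rintro rfl; exact lt_irrefl _ a2
      have a7 : Φ ζ = ζ⁻¹ ^ n • G ζ := a1
      rw [hΦΨ ζ (hone ζ a6) _ (S.ch_mem q) a4] at a7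
      simp only [Ψ, smul_smul] at a7
      set c := tau (S.dπ (S.ch q) (h ζ)) (deriv (S.ch q ∘ h) ζ) ^ M *
        ∏ p ∈ T, L p (S.av (S.ch q) (h ζ))
      have a8 : ζ⁻¹ ^ n ≠ 0 := pow_ne_zero _ (inv_ne_zero (norm_pos_iff.1 a3))
      funext l
      have b1 := congrFun a7 l
      have b2 := congrFun a7 l₀
      simp only [Pi.smul_apply, smul_eq_mul] at b1 b2 ⊢
      apply mul_left_cancel₀ a8
      linear_combination (-(S.av (S.ch q) (h ζ) l)) * b2 + (S.av (S.ch q) (h ζ) l₀) * b1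
    have h4 := tendsto_nhds_unique_of_eventuallyEq ((tendsto_pi_nhds.1 h2 l₀).smul h1)
      ((tendsto_pi_nhds.1 h1 l₀).smul h2) h3
    rw [div_eq_inv_mul, mul_smul, ← h4, smul_smul, inv_mul_cancel₀ hl₀', one_smul]
  obtain ⟨q, hq⟩ := exists_clusterPt_of_compactSpace (map h (cocompact ℂ))
  have hlim : Tendsto h (cocompact ℂ) (𝓝 q) := by
    refine tendsto_nhds_of_unique_mapClusterPt fun x hx => ?_
    have h1 := hclu x hx
    have h2 := hclu q hq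
    have h3 : S.av (S.ch q) q l₀ / v l₀ ≠ 0 := fun h0 =>
      av_ne_zero (S.ch_mem q) (S.mem_ch q) (by rw [h2, h0, zero_smul])
    refine eq_of_av (S.ch_mem x) (S.ch_mem q) (S.mem_ch x) (S.mem_ch q)
      (c := (S.av (S.ch x) x l₀ / v l₀) / (S.av (S.ch q) q l₀ / v l₀)) ?_
    conv_rhs => enter [2]; rw [h2]
    rw [smul_smul, div_mul_cancel₀ _ h3]
    exact h1
  have hqs : S.π q = s := (isClosed_fib s).mem_of_tendsto hlim (Eventually.of_forall hv)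
  refine hP1 (hPsmall q _ hqs fun V hV => ?_)
  obtain ⟨K, hK, hKV⟩ := mem_cocompact.1 (hlim hV)
  obtain ⟨R, hR⟩ := hK.isBounded.exists_norm_le
  filter_upwards [cocompact_norm (2 * R + ‖ζs‖)] with ζ hζ ξ hξ
  refine hKV fun hξK => ?_
  have a1 := hR ξ hξK
  rw [mem_ball, dist_comm, dist_eq_norm] at hξ
  linarith [norm_sub_norm_le ζ ξ, norm_sub_le ζ ζs]

end Srf

end Pool.Agent.P.MP_7ede32_ag.Ell
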